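import Pool.Agent.Lib.MP_9dacbe_co.Pot

/-! The two level strategy of `Game.lean` on boards of either parity. -/

namespace Pool.Agent.Lib.MP_9dacbe_co

open Finset

variable {α : Type} [DecidableEq α] [Fintype α]
variable {H : Finset (Finset α)} {T : Finset α → Finset α → ℝ} {M' B' M B : Finset α}
  {O : Finset (Finset α)}

lemma Inv.full (hT : Pot H T) (h : Inv H T M' B' M B O)
    (hc : Fintype.card α ≤ M'.card + B'.card) : ∀ L ∈ H, ∃ x ∈ L, x ∈ B' := by
  intro L hL
  by_contra hn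
  push Not at hn
  have hu : M' ∪ B' = univ := eq_univ_of_card _ (le_antisymm (card_le_univ _) (by
    rw [card_union_of_disjoint h.dj]; exact hc))
  have LM : ∀ x ∈ L, x ∈ M' := fun x hx =>
    (mem_union.1 (hu ▸ mem_univ x)).resolve_right (hn x hx)
  have hd : Disjoint L B := disjoint_left.2 fun x hx e => hn x hx (h.sB e)
  refine (hT.cover M B L O hL hd ?_ h.own (fun x hx => h.pM x (LM x (mem_sdiff.1 hx).1)
    (mem_sdiff.1 hx).2) fun C hC hs => ?_).not_gt h.t0
  · rcases h.al L hL hd with a | ⟨x, hx, -⟩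
    exacts [card_pos.1 (by omega), ⟨x, hx⟩]
  · obtain ⟨x, hx⟩ : (C \ M).Nonempty := card_pos.1 (by rw [(h.own.1 C hC).2.2]; omega)
    obtain ⟨y, hy, hy'⟩ := h.hit C hC x hx (LM x (hs hx))
    exact hn y (hs hy) hy'

omit [Fintype α] in
lemma Inv.move (h : Inv H T M' B' M B O) (hr : Ready T M B O) {x : α} (x1 : x ∉ M')
    (x2 : x ∉ B') : (∃ M₂ O₂, Inv H T (insert x M') B' M₂ B O₂) ∨
      ∃ y, y ≠ x ∧ y ∉ M' ∧ y ∉ B' ∧ Inv H T (insert x M') (insert y B') M B O := by
  by_cases hp : pend O M x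
  · obtain ⟨C, hC, hxC⟩ := hp
    have step : ∀ B'', Inv H T M' B'' M B O → x ∉ B'' → (∃ y ∈ C \ M, y ∈ B'') →
        Inv H T (insert x M') B'' M B O := fun B'' i b hy =>
      ⟨i.sM.trans (subset_insert _ _), i.sB, disjoint_insert_left.2 ⟨b, i.dj⟩,
        fun w hw hw' => (mem_insert.1 hw).elim (fun e => e ▸ ⟨C, hC, hxC⟩) fun e => i.pM w e hw',
        i.pB, i.own, fun D hD w hw hw' => by
          rcases mem_insert.1 hw' with rfl | e
          · have : C = D := by
              by_contra hne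
              exact disjoint_left.1 (i.own.2 C hC D hD hne) hxC hw
            exact this ▸ hy
          · exact i.hit D hD w hw e, i.al, i.t0⟩
    by_cases hy : ∃ y ∈ C \ M, y ∈ B'
    · exact Or.inl ⟨M, O, step B' h x2 hy⟩
    · obtain ⟨y, hy1, hy2⟩ := exists_mem_ne (s := C \ M) (by rw [(h.own.1 C hC).2.2]; omega) x
      have y1 : y ∉ M' := fun e => hy (h.hit C hC y hy1 e)
      have y2 : y ∉ B' := fun e => hy ⟨y, hy1, e⟩
      refine Or.inr ⟨y, hy2, y1, y2, step _ (h.small y1 ⟨C, hC, hy1⟩) ?_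
        ⟨y, hy1, mem_insert_self _ _⟩⟩
      rw [mem_insert, not_or]; exact ⟨hy2.symm, x2⟩
  · obtain ⟨O₂, i⟩ := h.big x2 hp (hr x (fun e => x1 (h.sM e)) (fun e => x2 (h.sB e)) hp)
    exact Or.inl ⟨_, O₂, i⟩

lemma draw_gen (hT : Pot H T) : ∀ (k : ℕ) (M' B' M B : Finset α) (O : Finset (Finset α)),
    Inv H T M' B' M B O → Ready T M B O → M'.card + B'.card + 2 * k ≤ Fintype.card α →
    Fintype.card α ≤ M'.card + B'.card + 2 * k + 1 → Draw (· ∈ H) k M' B'
  | 0, M', B', M, B, O, h, hr, _, hc => by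
    by_cases e : Fintype.card α ≤ M'.card + B'.card
    · exact h.full hT e
    obtain ⟨x, x1, x2⟩ := exists_free h.dj (not_le.1 e)
    rcases h.move hr x1 x2 with ⟨M₂, O₂, i⟩ | ⟨y, -, -, y2, i⟩
    · exact i.full hT (by rw [card_insert_of_notMem x1]; omega)
    · have a := card_le_univ (insert x M' ∪ insert y B')
      rw [card_union_of_disjoint i.dj, card_insert_of_notMem x1, card_insert_of_notMem y2] at a
      omega
  | k + 1, M', B', M, B, O, h, hr, hc, hc' => by
    intro x x1 x2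
    rcases h.move hr x1 x2 with ⟨M₂, O₂, h2⟩ | ⟨y, y0, y1, y2, i⟩
    · obtain ⟨z, B₂, z1, z2, i, r⟩ := free_move hT h2 (exists_free h2.dj (by
        rw [card_insert_of_notMem x1]; omega))
      rw [mem_insert, not_or] at z1
      exact ⟨z, z1.1, z1.2, z2, draw_gen hT k _ _ _ _ _ i r (by
        rw [card_insert_of_notMem x1, card_insert_of_notMem z2]; omega) (by
        rw [card_insert_of_notMem x1, card_insert_of_notMem z2]; omega)⟩
    · exact ⟨y, y0, y1, y2, draw_gen hT k _ _ M B O i hr (by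
        rw [card_insert_of_notMem x1, card_insert_of_notMem y2]; omega) (by
        rw [card_insert_of_notMem x1, card_insert_of_notMem y2]; omega)⟩

lemma first_gen (hT : Pot H T) (h4 : ∀ L ∈ H, 4 ≤ L.card) {x : α} (hx : T {x} ∅ < 1) {k : ℕ}
    (hk : 2 + 2 * k ≤ Fintype.card α) (hk' : Fintype.card α ≤ 2 * k + 3) :
    ∃ y, y ≠ x ∧ Draw (· ∈ H) k {x} {y} := by
  have i : Inv H T {x} ∅ {x} ∅ ∅ :=
    ⟨Subset.rfl, Subset.rfl, disjoint_empty_right _, fun _ a b => absurd a b,
      fun _ a b => absurd a b, ⟨by simp, by simp⟩, by simp, fun L hL _ => Or.inl (by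
        have := le_card_sdiff {x} L
        have := h4 L hL
        rw [card_singleton] at *; omega), hx⟩
  obtain ⟨z, B₂, z1, -, i2, r⟩ := free_move hT i (exists_free i.dj (by simp; omega))
  exact ⟨z, by simpa using z1, draw_gen hT k _ _ _ _ _ i2 r (by simp; omega) (by simp; omega)⟩

end Pool.Agent.Lib.MP_9dacbe_co
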