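import Pool.Agent.Lib.MP_9dacbe_co.BigPot

/-! Incidence geometry of the torus lines for a general side length, and the Strong Draw for all
side lengths from 15 on. -/

namespace Pool.Agent.Lib.MP_9dacbe_co.Gen

open Finset

variable {n : ℕ}

abbrev W (n : ℕ) := Fin 4 → ZMod n

def Tr (a : ZMod n) : Prop := a = 0 ∨ a = 1 ∨ a = -1

def Dir (v : W n) : Prop := v ≠ 0 ∧ ∀ i, Tr (v i)

lemma Tr.sq {a : ZMod n} (h : Tr a) (h0 : a ≠ 0) : a * a = 1 := by
  rcases h with rfl | rfl | rfl <;> simp_all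

lemma Tr.mul {a b : ZMod n} (h : Tr a) (h' : Tr b) : Tr (a * b) := by
  rcases h with rfl | rfl | rfl <;> rcases h' with rfl | rfl | rfl <;> simp [Tr]

lemma Tr.neg {a : ZMod n} (h : Tr a) : Tr (-a) := by
  rcases h with rfl | rfl | rfl <;> simp [Tr]

lemma Tr.cancel {a b r : ZMod n} (h : Tr a) (h' : Tr b) (hr : 2 * r ≠ 0) (e : r * a = r * b) :
    a = b := by
  rcases h with rfl | rfl | rfl <;> rcases h' with rfl | rfl | rfl <;>
    first
      | rfl
      | exact absurd (by linear_combination 2 * e) hr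
      | exact absurd (by linear_combination (-2) * e) hr
      | exact absurd (by linear_combination e) hr
      | exact absurd (by linear_combination (-1) * e) hr

lemma f2 {a b c d r r' : ZMod n} (ha : Tr a) (hb : Tr b) (hc : Tr c) (hd : Tr d) (h0 : a ≠ 0)
    (hr : 2 * r ≠ 0) (e : r * a = r' * b) (e' : r * c = r' * d) : c = a * b * d := by
  have b0 : b ≠ 0 := fun h => hr (by
    have := ha.sq h0
    rw [h] at e
    linear_combination 2 * a * e - 2 * r * this)
  have := hb.sq b0
  exact hc.cancel ((ha.mul hb).mul hd) hr (by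
    linear_combination e' - b * d * e - r' * d * this)

variable [NeZero n]

def ln (p v : W n) : Finset (W n) := univ.image fun t : ZMod n => p + t • v

lemma exists_HH (n : ℕ) [NeZero n] : ∃ H : Finset (Finset (W n)), ∀ L, L ∈ H ↔ IsLine n L := by
  classical
  exact ⟨univ.filter (IsLine n), fun L => by simp⟩

noncomputable def HH (n : ℕ) [NeZero n] : Finset (Finset (W n)) := (exists_HH n).choose

lemma HH_spec (L : Finset (W n)) : L ∈ HH n ↔ IsLine n L := (exists_HH n).choose_spec L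

lemma mem_ln {p v x : W n} : x ∈ ln p v ↔ ∃ t : ZMod n, x = p + t • v := by
  simp [ln, eq_comm]

lemma mem_HH {L : Finset (W n)} : L ∈ HH n ↔ ∃ p v, Dir v ∧ L = ln p v := by
  simp only [HH_spec, IsLine, Dir, Tr, Finset.ext_iff, mem_ln, and_assoc]

lemma through {L : Finset (W n)} (hL : L ∈ HH n) {x : W n} (hx : x ∈ L) :
    ∃ v, Dir v ∧ L = ln x v := by
  obtain ⟨p, v, hv, rfl⟩ := mem_HH.1 hL
  obtain ⟨t, rfl⟩ := mem_ln.1 hx
  refine ⟨v, hv, Finset.ext fun y => ?_⟩
  rw [mem_ln, mem_ln]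
  constructor
  · rintro ⟨s, rfl⟩; exact ⟨s - t, by rw [sub_smul]; abel⟩
  · rintro ⟨s, rfl⟩; exact ⟨t + s, by rw [add_smul]; abel⟩

omit [NeZero n] in
lemma Dir.smul_inj {v : W n} (hv : Dir v) {s t : ZMod n} (h : s • v = t • v) : s = t := by
  obtain ⟨i, hi⟩ := Function.ne_iff.1 hv.1
  have e : s * v i = t * v i := congrFun h i
  have := (hv.2 i).sq hi
  linear_combination v i * e - (s - t) * this

omit [NeZero n] in
lemma Dir.inj {v : W n} (hv : Dir v) (p : W n) : Function.Injective fun t : ZMod n => p + t • v :=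
  fun _ _ h => hv.smul_inj (add_left_cancel h)

omit [NeZero n] in
lemma Dir.neg {v : W n} (hv : Dir v) : Dir (-v) :=
  ⟨neg_ne_zero.2 hv.1, fun i => (hv.2 i).neg⟩

lemma Dir.card {v : W n} (hv : Dir v) (p : W n) : (ln p v).card = n := by
  rw [ln, card_image_of_injective _ (hv.inj p), card_univ, ZMod.card]

lemma ln_eq {v w : W n} (hv : Dir v) (hw : Dir w) {c : ZMod n} (h : w = c • v) (p : W n) :
    ln p w = ln p v := by
  refine eq_of_subset_of_card_le (fun x hx => ?_) (by rw [hv.card, hw.card])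
  obtain ⟨t, rfl⟩ := mem_ln.1 hx
  exact mem_ln.2 ⟨t * c, by rw [h, mul_smul]⟩

lemma uniq {u w : W n} (hu : Dir u) (hw : Dir w) {r r' : ZMod n} (h : r • u = r' • w)
    (hr : 2 * r ≠ 0) (p : W n) : ln p u = ln p w := by
  obtain ⟨i, hi⟩ := Function.ne_iff.1 hu.1
  exact ln_eq hw hu (c := u i * w i) (funext fun j =>
    f2 (hu.2 i) (hw.2 i) (hu.2 j) (hw.2 j) hi hr (congrFun h i) (congrFun h j)) p

lemma inter_le {L C : Finset (W n)} (hL : L ∈ HH n) (hC : C ∈ HH n) (hne : L ≠ C) :
    (L ∩ C).card ≤ (univ.filter fun r : ZMod n => 2 * r = 0).card := by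
  rcases (L ∩ C).eq_empty_or_nonempty with h | ⟨a, ha⟩
  · simp [h]
  obtain ⟨u, hu, rfl⟩ := through hL (mem_inter.1 ha).1
  obtain ⟨w, hw, rfl⟩ := through hC (mem_inter.1 ha).2
  refine (card_le_card fun x hx => ?_).trans (card_image_le (f := fun t : ZMod n => a + t • u))
  obtain ⟨r, rfl⟩ := mem_ln.1 (mem_inter.1 hx).1
  obtain ⟨r', e⟩ := mem_ln.1 (mem_inter.1 hx).2
  refine mem_image_of_mem _ (mem_filter.2 ⟨mem_univ _, ?_⟩)
  by_contra h
  exact hne (uniq hu hw (add_left_cancel e) h a)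

lemma tors_le : (univ.filter fun r : ZMod n => 2 * r = 0).card ≤ 2 := by
  refine (card_le_card fun r hr => ?_).trans (card_le_two (a := 0) (b := ((n / 2 : ℕ) : ZMod n)))
  have h : ((2 * r.val : ℕ) : ZMod n) = 0 := by simpa using (mem_filter.1 hr).2
  obtain ⟨k, hk⟩ := (ZMod.natCast_eq_zero_iff _ _).1 h
  have := ZMod.val_lt r
  have k2 : k < 2 := by
    by_contra e
    have := Nat.mul_le_mul_left n (not_lt.1 e)
    omega
  rw [mem_insert, mem_singleton, ← ZMod.natCast_zmod_val r]
  interval_cases k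
  · exact Or.inl (by rw [show r.val = 0 by omega]; simp)
  · exact Or.inr (by rw [show r.val = n / 2 by omega])

lemma degree (h2 : (2 : ZMod n) ≠ 0) (x : W n) : ((HH n).filter (x ∈ ·)).card ≤ 40 := by
  set D := (Fintype.piFinset fun _ : Fin 4 => ({0, 1, -1} : Finset (ZMod n))).erase 0 with hD
  have mD : ∀ v, v ∈ D ↔ Dir v := fun v => by simp [hD, Dir, Tr]
  have cD : D.card ≤ 80 := by
    rw [hD, card_erase_of_mem (by simp), Fintype.card_piFinset, prod_const]
    have := Nat.pow_le_pow_left (card_le_three (a := (0 : ZMod n)) (b := 1) (c := -1)) 4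
    simp only [card_univ, Fintype.card_fin]
    omega
  have a : (HH n).filter (x ∈ ·) ⊆ D.image (ln x) := fun L hL => by
    obtain ⟨v, hv, e⟩ := through (mem_filter.1 hL).1 (mem_filter.1 hL).2
    exact mem_image.2 ⟨v, (mD v).2 hv, e.symm⟩
  have b := mul_card_image_le_card (f := ln x) D 2 fun L hL => by
    obtain ⟨v, hv, rfl⟩ := mem_image.1 hL
    have d := (mD v).1 hv
    obtain ⟨i, hi⟩ := Function.ne_iff.1 d.1
    refine one_lt_card.2 ⟨v, mem_filter.2 ⟨hv, rfl⟩, -v,
      mem_filter.2 ⟨(mD _).2 d.neg, ln_eq d d.neg (neg_one_smul (ZMod n) v).symm x⟩,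
      fun e => h2 ?_⟩
    have e1 : v i = -v i := congrFun e i
    have := (d.2 i).sq hi
    linear_combination v i * e1 - 2 * this
  have := card_le_card a
  omega

lemma cn {L : Finset (W n)} (hL : L ∈ HH n) : L.card = n := by
  obtain ⟨p, v, hv, rfl⟩ := mem_HH.1 hL
  exact hv.card p

lemma cardW : Fintype.card (W n) = n ^ 4 := by simp [ZMod.card]

omit [NeZero n] in
lemma two_ne (h : 3 ≤ n) : (2 : ZMod n) ≠ 0 := fun e => by
  have := Nat.le_of_dvd (by norm_num) ((ZMod.natCast_eq_zero_iff 2 n).1 (by exact_mod_cast e))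
  omega

lemma geoW (h : 3 ≤ n) {κ : ℕ} (hκ : (univ.filter fun r : ZMod n => 2 * r = 0).card ≤ κ) :
    GeoW (HH n) n κ := by
  refine ⟨fun L => cn, fun L hL C hC hne => (inter_le hL hC hne).trans hκ, fun R hR => ?_, ?_⟩
  · calc _ ≤ (R.biUnion fun a => ((HH n).filter (a ∈ ·)).erase R).card :=
          card_le_card fun C hC => by
            obtain ⟨c1, c2, a, ha⟩ := mem_filter.1 hC
            exact mem_biUnion.2 ⟨a, (mem_inter.1 ha).2,
              mem_erase.2 ⟨c2, mem_filter.2 ⟨c1, (mem_inter.1 ha).1⟩⟩⟩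
      _ ≤ R.card * 39 := card_biUnion_le_card_mul _ _ _ fun a ha => by
            rw [card_erase_of_mem (mem_filter.2 ⟨hR, ha⟩)]
            have := degree (two_ne h) a
            omega
      _ = _ := by rw [cn hR, mul_comm]
  · have := sum_card_le (B := HH n) (n := 40) (degree (two_ne h))
    rw [sum_congr rfl fun L hL => cn hL, cardW, sum_const, smul_eq_mul] at this
    refine Nat.le_of_mul_le_mul_right (c := n) (this.trans (le_of_eq ?_)) (by omega)
    ring

/-- translation invariance: a good answer to one first move gives one to every first move -/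
lemma draw_of_first {k : ℕ} {x₀ y : W n} (hy : y ≠ x₀) (d : Draw (· ∈ HH n) k {x₀} {y}) :
    Draw (IsLine n) (k + 1) ∅ ∅ := by
  rw [show IsLine n = (· ∈ HH n) from funext fun L => propext (HH_spec L).symm]
  intro x _ _
  have := Draw.map (Equiv.addRight (x - x₀)) (fun L hL => by
    obtain ⟨p, v, hv, rfl⟩ := mem_HH.1 hL
    refine mem_HH.2 ⟨p - (x - x₀), v, hv, ?_⟩
    rw [ln, ln, image_image]
    refine image_congr fun t _ => ?_
    show p + t • v + -(x - x₀) = _
    abel) _ _ _ d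
  refine ⟨y + (x - x₀), fun e => hy ?_, notMem_empty _, notMem_empty _, by simpa using this⟩
  have e' : y + (x - x₀) = x₀ + (x - x₀) := by rw [e]; abel
  exact add_right_cancel e'

lemma draw_of_pot (h : 4 ≤ n) {T : Finset (W n) → Finset (W n) → ℝ} (hT : Pot (HH n) T)
    (h0 : ∃ y, T {y} ∅ < 1) : Draw (IsLine n) (n ^ 4 / 2) ∅ ∅ := by
  obtain ⟨x₀, h0⟩ := h0
  have e : 4 ^ 4 ≤ n ^ 4 := Nat.pow_le_pow_left h 4
  obtain ⟨y, hy, d⟩ := first_gen hT (fun L hL => by rw [cn hL]; exact h) h0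
    (k := n ^ 4 / 2 - 1) (by rw [cardW]; omega) (by rw [cardW]; omega)
  rw [show n ^ 4 / 2 = n ^ 4 / 2 - 1 + 1 by omega]
  exact draw_of_first hy d

omit [NeZero n] in
lemma pow_big : ∀ m : ℕ, 18 ≤ m → 44 * m ^ 3 ≤ 2 ^ m := by
  intro m hm
  induction m, hm using Nat.le_induction with
  | base => norm_num
  | succ k hk ih =>
    have : (k + 1) ^ 3 ≤ 2 * k ^ 3 := by
      have := Nat.mul_le_mul hk (Nat.le_refl (k ^ 2))
      have := Nat.mul_le_mul hk (Nat.le_refl k)
      nlinarith
    rw [pow_succ 2]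
    omega

omit [NeZero n] in
lemma odd15 : ∀ a b : ZMod 15, 2 * a = 0 → 2 * b = 0 → a = b := by decide +kernel

omit [NeZero n] in
theorem drawBig (n : ℕ) (hn : 15 ≤ n) : Draw (IsLine n) (n ^ 4 / 2) ∅ ∅ := by
  have : NeZero n := ⟨by omega⟩
  by_cases h15 : n = 15
  · subst h15
    refine draw_of_pot (by norm_num) (potW (a := 0) (b := 2) (c := 4 / 3) (d := 17)
      (fun L => cn) le_rfl (by norm_num) (by norm_num) (by norm_num) fun p p1 p2 => ?_)
      (firstW (geoW (by norm_num) (κ := 1) (card_le_one.2 fun a ha b hb =>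
        odd15 a b (mem_filter.1 ha).2 (mem_filter.1 hb).2)) le_rfl (by norm_num) (by norm_num)
        (by norm_num) ?_)
    · interval_cases p <;> norm_num [Nat.descFactorial]
    · rw [cardW]; norm_num [gw]
  by_cases h17 : n ≤ 17
  · refine draw_of_pot (by omega) (potW (a := 0) (b := 2) (c := 4 / 3) (d := if n = 16 then 25 else 37)
      (fun L => cn) le_rfl (by norm_num) (by norm_num) (by positivity) fun p p1 p2 => ?_)
      (firstW (geoW (by omega) tors_le) le_rfl (by norm_num) (by norm_num)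
        (by positivity) ?_)
    · interval_cases n
      · exact absurd rfl h15
      all_goals interval_cases p <;> norm_num [Nat.descFactorial]
    · rw [cardW]
      interval_cases n
      · exact absurd rfl h15
      all_goals norm_num [gw]
  refine draw_of_pot (by omega) (potW (a := 1) (b := 1 / 2) (c := 0) (d := 0)
    (fun L => cn) (by norm_num) (by norm_num) le_rfl le_rfl fun p p1 _ => ?_)
    (firstW (geoW (by omega) tors_le) (by norm_num) (by norm_num) le_rfl le_rfl ?_)
  · by_cases p4 : 4 ≤ p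
    · have : (4 : ℝ) ≤ p := by exact_mod_cast p4
      have a : (0 : ℝ) ≤ (1 / 2) ^ p := by positivity
      have b : (0 : ℝ) ≤ p * (1 / 2) ^ (p + 1) := by positivity
      nlinarith
    · push Not at p4
      interval_cases p <;> norm_num
  · have a : (44 : ℝ) * n ^ 3 ≤ 2 ^ n := by exact_mod_cast pow_big n (by omega)
    have b : (18 : ℝ) ≤ n := by exact_mod_cast (show 18 ≤ n by omega)
    have c : (0 : ℝ) < 2 ^ n := by positivity
    have n3 : (5832 : ℝ) ≤ n ^ 3 := by
      have := pow_le_pow_left₀ (by norm_num) b 3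
      norm_num at this
      exact this
    have g : gw n 2 0 ≤ 1 / 50 := by
      rw [gw, ← mul_div_assoc, div_le_iff₀ c]
      have := mul_le_mul b b (by norm_num) (by linarith)
      nlinarith
    have t : (40 : ℝ) * n ^ 3 * (1 / 2) ^ n ≤ 10 / 11 := by
      rw [one_div, inv_pow, ← div_eq_mul_inv, div_le_iff₀ c]
      linarith
    have u : (n : ℝ) ^ 4 + 5 * n ≤ n ^ 4 * (1001 / 1000) := by nlinarith
    have g0 := gw_nonneg (n := n) (κ := 2) 0
    rw [cardW]
    push_cast
    calc _ = (40 * n ^ 3 * (1 / 2) ^ n) * ((n : ℝ) ^ 4 + 5 * n) * (1 + 1 / 2 * gw n 2 0) := by ring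
      _ ≤ (10 / 11) * (n ^ 4 * (1001 / 1000)) * (1 + 1 / 2 * (1 / 50)) := by gcongr
      _ < _ := by
        have : (0 : ℝ) < n ^ 4 := by positivity
        linarith

end Pool.Agent.Lib.MP_9dacbe_co.Gen
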