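import Pool.Agent.Lib.MP_9dacbe_co.BigGame

/-! Star potentials with free weights, and a crude bound for their starting value. -/

namespace Pool.Agent.Lib.MP_9dacbe_co

open Finset

variable {α : Type} [DecidableEq α] {H : Finset (Finset α)}

noncomputable def TW (H : Finset (Finset α)) (a b c d : ℝ) (M B : Finset α) : ℝ :=
  ∑ R ∈ H, (a * Q H R M B 0 ∅ + b * Q H R M B 1 ∅ + c * Q H R M B 2 ∅ + d * Q H R M B 4 ∅)

lemma potW [Fintype α] {n : ℕ} (hn : ∀ L ∈ H, L.card = n) {a b c d : ℝ} (ha : 0 ≤ a) (hb : 0 ≤ b)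
    (hc : 0 ≤ c) (hd' : 0 ≤ d) (row : ∀ p : ℕ, 1 ≤ p → p ≤ n →
      1 ≤ a * (1 / 2) ^ p + b * (p * (1 / 2) ^ (p + 1)) +
        c * (p.descFactorial 2 * (1 / 2) ^ (p + 2)) + d * (p.descFactorial 4 * (1 / 2) ^ (p + 4)) +
        p * (a / 4 + b * (1 / 2) ^ (p + 1))) : Pot H (TW H a b c d) := by
  classical
  have nn : ∀ (C M B : Finset α) (j : ℕ) {w : ℝ}, 0 ≤ w → 0 ≤ w * Q H C M B j ∅ :=
    fun C M B j w hw => mul_nonneg hw (Q_nonneg _ _ _ _ _)
  refine ⟨fun M B y z => ?_, fun M B z => sum_le_sum fun R _ => ?_,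
    fun M B R O hR hd hne ho hp hs => ?_⟩
  · simp only [TW, ← sum_add_distrib]
    refine sum_le_sum fun R _ => ?_
    linarith [mul_le_mul_of_nonneg_left (Q_es (H := H) R M B y z 0 ∅) ha,
      mul_le_mul_of_nonneg_left (Q_es (H := H) R M B y z 1 ∅) hb,
      mul_le_mul_of_nonneg_left (Q_es (H := H) R M B y z 2 ∅) hc,
      mul_le_mul_of_nonneg_left (Q_es (H := H) R M B y z 4 ∅) hd']
  · linarith [mul_le_mul_of_nonneg_left (Q_anti (H := H) R M B z 0 ∅) ha,
      mul_le_mul_of_nonneg_left (Q_anti (H := H) R M B z 1 ∅) hb,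
      mul_le_mul_of_nonneg_left (Q_anti (H := H) R M B z 2 ∅) hc,
      mul_le_mul_of_nonneg_left (Q_anti (H := H) R M B z 4 ∅) hd']
  set O' := O.filter fun C => ((C \ M) ∩ R).Nonempty with hO'
  have c1 : ∀ C ∈ O', ((C \ M) ∩ R).card = 1 ∧ ((C \ M) \ R).card = 1 := fun C hC => by
    obtain ⟨a, b⟩ := mem_filter.1 hC
    have e := card_sdiff_add_card_inter (C \ M) R
    have := card_pos.2 b
    have := card_pos.2 (sdiff_nonempty.2 (hs C a))
    have := (ho.1 C a).2.2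
    omega
  have c2 : (R \ M).card ≤ O'.card := by
    calc _ ≤ (O'.biUnion fun C => (C \ M) ∩ R).card := card_le_card fun x hx => by
          obtain ⟨C, a, b⟩ := hp x hx
          have := mem_inter.2 ⟨b, (mem_sdiff.1 hx).1⟩
          exact mem_biUnion.2 ⟨C, mem_filter.2 ⟨a, x, this⟩, this⟩
      _ ≤ _ := (card_biUnion_le_card_mul _ _ 1 fun C hC => (c1 C hC).1.le).trans (mul_one _).le
  obtain ⟨A, hA, cA⟩ := exists_subset_card_eq c2
  have An : A ⊆ nb H R := fun C hC => by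
    obtain ⟨a, x, b⟩ := mem_filter.1 (hA hC)
    exact mem_filter.2 ⟨(ho.1 C a).1, fun e => hs C a (e ▸ sdiff_subset), x,
      mem_inter.2 ⟨(mem_sdiff.1 (mem_inter.1 b).1).1, (mem_inter.1 b).2⟩⟩
  have As : ∀ C ∈ A, Disjoint C B ∧ ((C \ M) \ R).card ≤ 1 := fun C hC =>
    ⟨(ho.1 C (mem_filter.1 (hA hC)).1).2.1, (c1 C (hA hC)).2.le⟩
  have RA : R ∉ A := fun e => (mem_filter.1 (An e)).2.1 rfl
  have q := fun j => Q_ge hd An As j ∅ (empty_subset _)
  have back : ∀ C ∈ A, a / 4 + b * (1 / 2 : ℝ) ^ ((R \ M).card + 1) ≤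
      a * Q H C M B 0 ∅ + b * Q H C M B 1 ∅ + c * Q H C M B 2 ∅ + d * Q H C M B 4 ∅ :=
    fun C hC => by
    have e := phi_ge hd (s := {C}) (M := M) (by simpa using As C hC)
    have f : Q H C M B 0 (insert R ∅) ≤ Q H C M B 1 ∅ := by
      obtain ⟨-, u, v⟩ := mem_filter.1 (An hC)
      exact single_le_sum (f := fun D => Q H C M B 0 (insert D ∅)) (fun _ _ => Q_nonneg _ _ _ _ _)
        (mem_sdiff.2 ⟨mem_filter.2 ⟨hR, u.symm, inter_comm C R ▸ v⟩, notMem_empty _⟩)
    have g : Q H C M B 0 (insert R ∅) = phi (R ∪ ({C} : Finset (Finset α)).biUnion id) M B := by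
      simp [Q, union_comm]
    have h0 : Q H C M B 0 ∅ = 1 / 4 := by
      obtain ⟨-, u, v⟩ := ho.1 C (mem_filter.1 (hA hC)).1
      simp [Q, phi, u, v]; norm_num
    rw [card_singleton] at e
    rw [h0]
    linarith [nn C M B 2 hc, nn C M B 4 hd', mul_le_mul_of_nonneg_left (e.trans (g ▸ f)) hb]
  refine le_trans ?_ (sum_le_sum_of_subset_of_nonneg
    (insert_subset hR (An.trans (filter_subset _ _))) fun C _ _ => by
      linarith [nn C M B 0 ha, nn C M B 1 hb, nn C M B 2 hc, nn C M B 4 hd'])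
  rw [sum_insert RA]
  have e := card_nsmul_le_sum _ _ _ back
  have q0 := mul_le_mul_of_nonneg_left (q 0) ha
  have q1 := mul_le_mul_of_nonneg_left (q 1) hb
  have q2 := mul_le_mul_of_nonneg_left (q 2) hc
  have q4 := mul_le_mul_of_nonneg_left (q 4) hd'
  have r := row _ (card_pos.2 hne) ((card_le_card sdiff_subset).trans (hn R hR).le)
  rw [cA] at e q0 q1 q2 q4
  simp only [card_empty, Nat.sub_zero, add_zero, Nat.descFactorial_zero, Nat.descFactorial_one,
    Nat.cast_one, one_mul, nsmul_eq_mul] at e q0 q1 q2 q4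
  linarith

structure GeoW (H : Finset (Finset α)) (n κ : ℕ) : Prop where
  cn : ∀ L ∈ H, L.card = n
  two : ∀ L ∈ H, ∀ C ∈ H, L ≠ C → (L ∩ C).card ≤ κ
  deg : ∀ R ∈ H, (nb H R).card ≤ 39 * n
  num : H.card ≤ 40 * n ^ 3

noncomputable def gw (n κ m : ℕ) : ℝ := 39 * n * (2 ^ (κ * (m + 1)) / 2 ^ n)

variable {n κ : ℕ}

lemma stepW (G : GeoW H n κ) {R : Finset α} (hR : R ∈ H) {s : Finset (Finset α)}
    (hs : s ⊆ nb H R) : ∑ C ∈ nb H R \ s, (1 / 2 : ℝ) ^ (R ∪ (insert C s).biUnion id).card ≤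
      (1 / 2) ^ (R ∪ s.biUnion id).card * gw n κ s.card := by
  obtain ⟨U, hU⟩ : ∃ U, U = R ∪ s.biUnion id := ⟨_, rfl⟩
  rw [← hU]
  have key : ∀ C ∈ nb H R \ s, (1 / 2 : ℝ) ^ (R ∪ (insert C s).biUnion id).card ≤
      (1 / 2) ^ U.card * (2 ^ (κ * (s.card + 1)) / 2 ^ n) := by
    intro C hC
    obtain ⟨hC, hCs⟩ := mem_sdiff.1 hC
    obtain ⟨c1, c2, -⟩ := mem_filter.1 hC
    have e : R ∪ (insert C s).biUnion id = U ∪ C := by
      rw [biUnion_insert, hU, id, union_comm C, union_assoc]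
    have i1 : (U ∩ C).card ≤ κ + s.card * κ := by
      refine le_trans (card_le_card fun w hw => ?_) ((card_union_le (C ∩ R)
        (s.biUnion fun D => C ∩ D)).trans (Nat.add_le_add (G.two C c1 R hR c2)
          (card_biUnion_le_card_mul _ _ _ fun D hD =>
            G.two C c1 D (mem_filter.1 (hs hD)).1 fun e => hCs (e ▸ hD))))
      simp only [hU, mem_inter, mem_union, mem_biUnion, id] at hw ⊢
      rcases hw.1 with h | ⟨D, a, b⟩
      exacts [Or.inl ⟨hw.2, h⟩, Or.inr ⟨D, a, hw.2, b⟩]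
    have i2 := card_union_add_card_inter U C
    rw [G.cn C c1] at i2
    rw [e, one_div, inv_pow, inv_pow, inv_mul_eq_div, div_div, ← pow_add, inv_eq_one_div,
      div_le_div_iff₀ (by positivity) (by positivity), one_mul, ← pow_add]
    exact pow_le_pow_right₀ one_le_two (by nlinarith)
  refine (sum_le_card_nsmul _ _ _ key).trans ?_
  have : ((nb H R \ s).card : ℝ) ≤ 39 * n := by
    exact_mod_cast (card_le_card sdiff_subset).trans (G.deg R hR)
  rw [nsmul_eq_mul, gw, mul_left_comm]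
  gcongr

lemma gw_nonneg (m : ℕ) : 0 ≤ gw n κ m := by unfold gw; positivity

lemma QW_le (G : GeoW H n κ) {R : Finset α} (hR : R ∈ H) : ∀ j s, s ⊆ nb H R →
    Q H R ∅ ∅ j s ≤ (1 / 2) ^ (R ∪ s.biUnion id).card * ∏ i ∈ range j, gw n κ (s.card + i)
  | 0, s, _ => by simp [Q, phi]
  | j + 1, s, hs => by
    rw [prod_range_succ', add_zero, mul_comm _ (gw _ _ _), ← mul_assoc]
    refine le_trans (sum_le_sum fun C hC => ?_) (le_trans (sum_mul _ _ _).ge
      (mul_le_mul_of_nonneg_right (stepW G hR hs) (prod_nonneg fun _ _ => gw_nonneg _)))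
    have := QW_le G hR j (insert C s) (insert_subset (mem_sdiff.1 hC).1 hs)
    simpa only [card_insert_of_notMem (mem_sdiff.1 hC).2, add_assoc, add_comm 1] using this

lemma QW_avg [Fintype α] (G : GeoW H n κ) {R : Finset α} (hR : R ∈ H) : ∀ j s, s ⊆ nb H R →
    s.card + j ≤ 4 → ∑ y, Q H R {y} ∅ j s ≤ (Fintype.card α + 5 * n) * Q H R ∅ ∅ j s
  | 0, s, hs, h => by
    have c : (R ∪ s.biUnion id).card ≤ 5 * n := by
      have := card_biUnion_le_card_mul s id n fun C hC => (G.cn C (mem_filter.1 (hs hC)).1).le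
      have := card_union_le R (s.biUnion id)
      have := G.cn R hR
      have := Nat.mul_le_mul_right n (show s.card ≤ 4 by omega)
      omega
    simp only [Q, phi, disjoint_empty_right, if_true, sdiff_singleton_eq_erase, half_erase,
      sdiff_empty, ← mul_sum]
    generalize R ∪ s.biUnion id = U at *
    rw [mul_comm]
    refine mul_le_mul_of_nonneg_right ?_ (by positivity)
    have : ∀ y, (if y ∈ U then (2 : ℝ) else 1) = 1 + if y ∈ U then 1 else 0 := fun y => by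
      split_ifs <;> norm_num
    have c' : (U.card : ℝ) ≤ 5 * n := by exact_mod_cast c
    simp [this, sum_add_distrib, c']
  | j + 1, s, hs, h => by
    simp only [Q]
    rw [sum_comm, mul_sum]
    exact sum_le_sum fun C hC => QW_avg G hR j _ (insert_subset (mem_sdiff.1 hC).1 hs) (by
      rw [card_insert_of_notMem (mem_sdiff.1 hC).2]; omega)

lemma firstW [Fintype α] (G : GeoW H n κ) {a b c d : ℝ} (ha : 0 ≤ a) (hb : 0 ≤ b)
    (hc : 0 ≤ c) (hd : 0 ≤ d) (h : 40 * n ^ 3 * ((Fintype.card α + 5 * n) * ((1 / 2) ^ n *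
      (a + b * gw n κ 0 + c * (gw n κ 0 * gw n κ 1) +
        d * (gw n κ 0 * gw n κ 1 * gw n κ 2 * gw n κ 3)))) < (Fintype.card α : ℝ)) :
    ∃ y, TW H a b c d {y} ∅ < 1 := by
  by_contra hn
  push Not at hn
  have e := card_nsmul_le_sum univ _ _ fun y _ => hn y
  have f : ∑ y, TW H a b c d {y} ∅ ≤ H.card • ((Fintype.card α + 5 * n) * ((1 / 2) ^ n *
      (a + b * gw n κ 0 + c * (gw n κ 0 * gw n κ 1) +
        d * (gw n κ 0 * gw n κ 1 * gw n κ 2 * gw n κ 3))) : ℝ) := by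
    unfold TW
    rw [sum_comm]
    refine sum_le_card_nsmul _ _ _ fun R hR => ?_
    simp only [sum_add_distrib, ← mul_sum]
    have u := fun j hj => (QW_avg G hR j ∅ (empty_subset _) hj).trans
      (mul_le_mul_of_nonneg_left (QW_le G hR j ∅ (empty_subset _)) (by positivity))
    have u0 := mul_le_mul_of_nonneg_left (u 0 (by simp)) ha
    have u1 := mul_le_mul_of_nonneg_left (u 1 (by simp)) hb
    have u2 := mul_le_mul_of_nonneg_left (u 2 (by simp)) hc
    have u4 := mul_le_mul_of_nonneg_left (u 4 (by simp)) hd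
    simp only [biUnion_empty, union_empty, G.cn R hR, card_empty, zero_add, prod_range_succ,
      prod_range_zero, one_mul, mul_one] at u0 u1 u2 u4
    linarith
  have g : (H.card : ℝ) ≤ 40 * n ^ 3 := by exact_mod_cast G.num
  rw [card_univ, nsmul_eq_mul, mul_one] at e
  rw [nsmul_eq_mul] at f
  have w := gw_nonneg (n := n) (κ := κ)
  have k := mul_le_mul_of_nonneg_right g (show (0 : ℝ) ≤ (Fintype.card α + 5 * n) * ((1 / 2) ^ n *
      (a + b * gw n κ 0 + c * (gw n κ 0 * gw n κ 1) +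
        d * (gw n κ 0 * gw n κ 1 * gw n κ 2 * gw n κ 3))) by
    have := w 0; have := w 1; have := w 2; have := w 3; positivity)
  linarith

end Pool.Agent.Lib.MP_9dacbe_co
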