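import Mathlib

namespace Pool.Agent.Lib.MP_9dacbe_co

/-- torus lines of `(ZMod n)^4` -/
def IsLine (n : ℕ) (L : Finset (Fin 4 → ZMod n)) : Prop :=
  ∃ p v : Fin 4 → ZMod n, v ≠ 0 ∧ (∀ i, v i = 0 ∨ v i = 1 ∨ v i = -1) ∧
    ∀ x, x ∈ L ↔ ∃ t : ZMod n, x = p + t • v

/-- With `k` rounds left, `M` the points of the first player, `B` those of the second player and
the first player to move, the second player can force to own a point of every set in `H`. -/
def Draw {α : Type} [DecidableEq α] (H : Finset α → Prop) : ℕ → Finset α → Finset α → Prop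
  | 0, _, B => ∀ L, H L → ∃ x ∈ L, x ∈ B
  | k + 1, M, B => ∀ x, x ∉ M → x ∉ B →
      ∃ y, y ≠ x ∧ y ∉ M ∧ y ∉ B ∧ Draw H k (insert x M) (insert y B)

end Pool.Agent.Lib.MP_9dacbe_co
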