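import Pool.Agent.Lib.MP_9dacbe_co.Defs

/-! The two level strategy: pairs for almost complete sets, a potential for the rest. -/

namespace Pool.Agent.Lib.MP_9dacbe_co

open Finset

variable {α : Type} [DecidableEq α] [Fintype α]

def pend (O : Finset (Finset α)) (M : Finset α) (x : α) : Prop := ∃ C ∈ O, x ∈ C \ M

def Own (H : Finset (Finset α)) (M B : Finset α) (O : Finset (Finset α)) : Prop :=
  (∀ C ∈ O, C ∈ H ∧ Disjoint C B ∧ (C \ M).card = 2) ∧
    ∀ C ∈ O, ∀ D ∈ O, C ≠ D → Disjoint (C \ M) (D \ M)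

structure Pot (H : Finset (Finset α)) (T : Finset α → Finset α → ℝ) : Prop where
  es : ∀ M B y z, T (insert y M) (insert z B) + T M (insert y B) ≤ T M B + T M (insert z B)
  anti : ∀ M B z, T M (insert z B) ≤ T M B
  cover : ∀ M B R O, R ∈ H → Disjoint R B → (R \ M).Nonempty → Own H M B O →
    (∀ x ∈ R \ M, pend O M x) → (∀ C ∈ O, ¬ C \ M ⊆ R) → 1 ≤ T M B

structure Inv (H : Finset (Finset α)) (T : Finset α → Finset α → ℝ) (M' B' M B : Finset α)
    (O : Finset (Finset α)) : Prop where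
  sM : M ⊆ M'
  sB : B ⊆ B'
  dj : Disjoint M' B'
  pM : ∀ x ∈ M', x ∉ M → pend O M x
  pB : ∀ x ∈ B', x ∉ B → pend O M x
  own : Own H M B O
  hit : ∀ C ∈ O, ∀ x ∈ C \ M, x ∈ M' → ∃ y ∈ C \ M, y ∈ B'
  al : ∀ L ∈ H, Disjoint L B → 3 ≤ (L \ M).card ∨ ∃ x ∈ L \ M, pend O M x
  t0 : T M B < 1

def Ready (T : Finset α → Finset α → ℝ) (M B : Finset α) (O : Finset (Finset α)) : Prop :=
  ∀ y, y ∉ M → y ∉ B → ¬ pend O M y → T (insert y M) B < 1

variable {H : Finset (Finset α)} {T : Finset α → Finset α → ℝ} {M' B' M B : Finset α}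
  {O : Finset (Finset α)}

omit [Fintype α] in
lemma Inv.small (h : Inv H T M' B' M B O) {z : α} (h1 : z ∉ M') (hz : pend O M z) :
    Inv H T M' (insert z B') M B O :=
  ⟨h.sM, h.sB.trans (subset_insert _ _), disjoint_insert_right.2 ⟨h1, h.dj⟩, h.pM,
    fun x hx hx' => (mem_insert.1 hx).elim (fun e => e ▸ hz) fun e => h.pB x e hx', h.own,
    fun C hC x hx hx' => (h.hit C hC x hx hx').imp fun _ hy => ⟨hy.1, mem_insert_of_mem hy.2⟩,
    h.al, h.t0⟩

lemma free_move (hT : Pot H T) (h : Inv H T M' B' M B O) (hf : ∃ z, z ∉ M' ∧ z ∉ B') :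
    ∃ z B₂, z ∉ M' ∧ z ∉ B' ∧ Inv H T M' (insert z B') M B₂ O ∧ Ready T M B₂ O := by
  classical
  by_cases hn : (univ.filter fun z => z ∉ M ∧ z ∉ B ∧ ¬ pend O M z).Nonempty
  · obtain ⟨z, hz, hmin⟩ := exists_min_image _ (fun z => T M (insert z B)) hn
    obtain ⟨z1, z2, z3⟩ := (mem_filter.1 hz).2
    have z4 : z ∉ M' := fun e => z3 (h.pM z e z1)
    refine ⟨z, insert z B, z4, fun e => z3 (h.pB z e z2),
      ⟨h.sM, insert_subset_insert _ h.sB, disjoint_insert_right.2 ⟨z4, h.dj⟩, h.pM,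
        fun x hx hx' => ?_, ⟨fun C hC => ?_, h.own.2⟩,
        fun C hC x hx hx' => (h.hit C hC x hx hx').imp fun _ hy => ⟨hy.1, mem_insert_of_mem hy.2⟩,
        fun L hL hd => h.al L hL (disjoint_insert_right.1 hd).2, (hT.anti M B z).trans_lt h.t0⟩,
      fun y y1 y2 y3 => ?_⟩
    · rw [mem_insert, not_or] at hx'
      exact h.pB x ((mem_insert.1 hx).resolve_left hx'.1) hx'.2
    · obtain ⟨a, b, c⟩ := h.own.1 C hC
      exact ⟨a, disjoint_insert_right.2 ⟨fun e => z3 ⟨C, hC, mem_sdiff.2 ⟨e, z1⟩⟩, b⟩, c⟩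
    · have := hmin y (mem_filter.2 ⟨mem_univ _, y1, fun e => y2 (mem_insert_of_mem e), y3⟩)
      linarith [hT.es M B y z, h.t0]
  · obtain ⟨z, z1, z2⟩ := hf
    have key : ∀ y, y ∉ M → y ∉ B → pend O M y := fun y y1 y2 => by
      by_contra y3
      exact hn ⟨y, mem_filter.2 ⟨mem_univ _, y1, y2, y3⟩⟩
    exact ⟨z, B, z1, z2, h.small z1 (key z (fun e => z1 (h.sM e)) fun e => z2 (h.sB e)),
      fun y y1 y2 y3 => absurd (key y y1 y2) y3⟩

omit [Fintype α] in
lemma exists_max (h : Own H M B O) : ∃ O₂, O ⊆ O₂ ∧ Own H M B O₂ ∧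
    ∀ L ∈ H, Disjoint L B → (L \ M).card = 2 → ∃ x ∈ L \ M, pend O₂ M x := by
  classical
  obtain ⟨O₂, h2, hmax⟩ := exists_max_image (H.powerset.filter fun P => O ⊆ P ∧ Own H M B P) card
    ⟨O, mem_filter.2 ⟨mem_powerset.2 fun C hC => (h.1 C hC).1, Subset.rfl, h⟩⟩
  obtain ⟨a, b, c⟩ := mem_filter.1 h2
  refine ⟨O₂, b, c, fun L hL hd h2 => ?_⟩
  by_contra hn
  push Not at hn
  have hdj : ∀ D ∈ O₂, Disjoint (L \ M) (D \ M) := fun D hD =>
    disjoint_left.2 fun x hx hx' => hn x hx ⟨D, hD, hx'⟩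
  have hL' : L ∉ O₂ := fun e => by
    have := disjoint_self.1 (hdj L e)
    rw [this] at h2; simp at h2
  have := hmax (insert L O₂) (mem_filter.2 ⟨mem_powerset.2 (insert_subset hL (mem_powerset.1 a)),
    b.trans (subset_insert _ _), fun C hC => ?_, fun C hC D hD hne => ?_⟩)
  · rw [card_insert_of_notMem hL'] at this; omega
  · rcases mem_insert.1 hC with rfl | hC
    exacts [⟨hL, hd, h2⟩, c.1 C hC]
  · rcases mem_insert.1 hC with rfl | hC' <;> rcases mem_insert.1 hD with rfl | hD'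
    exacts [absurd rfl hne, hdj D hD', (hdj C hC').symm, c.2 C hC' D hD' hne]

omit [Fintype α] in
lemma Inv.big (h : Inv H T M' B' M B O) {x : α} (x2 : x ∉ B') (hx : ¬ pend O M x)
    (ht : T (insert x M) B < 1) : ∃ O₂, Inv H T (insert x M') B' (insert x M) B O₂ := by
  have e : ∀ C ∈ O, C \ insert x M = C \ M := fun C hC => by
    ext w
    simp only [mem_sdiff, mem_insert, not_or]
    exact ⟨fun a => ⟨a.1, a.2.2⟩, fun a => ⟨a.1, fun e => hx ⟨C, hC, e ▸ mem_sdiff.2 a⟩, a.2⟩⟩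
  obtain ⟨O₂, s, o, m⟩ := exists_max (H := H) (M := insert x M) (B := B) (O := O)
    ⟨fun C hC => by rw [e C hC]; exact h.own.1 C hC,
      fun C hC D hD hne => by rw [e C hC, e D hD]; exact h.own.2 C hC D hD hne⟩
  have p : ∀ w, pend O M w → pend O₂ (insert x M) w := fun w ⟨C, hC, hw⟩ =>
    ⟨C, s hC, by rwa [e C hC]⟩
  refine ⟨O₂, insert_subset_insert _ h.sM, h.sB, disjoint_insert_left.2 ⟨x2, h.dj⟩,
    fun w hw hw' => ?_, fun w hw hw' => p w (h.pB w hw hw'), o, fun C hC w hw hw' => ?_,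
    fun L hL hd => ?_, ht⟩
  · rw [mem_insert, not_or] at hw'
    exact p w (h.pM w ((mem_insert.1 hw).resolve_left hw'.1) hw'.2)
  · have a := (mem_sdiff.1 hw).2
    rw [mem_insert, not_or] at a
    have a2 := (mem_insert.1 hw').resolve_left a.1
    obtain ⟨D, hD, hwD⟩ := h.pM w a2 a.2
    have : C = D := by
      by_contra hne
      exact disjoint_left.1 (o.2 C hC D (s hD) hne) hw (by rwa [e D hD])
    rw [this, e D hD]
    exact h.hit D hD w hwD a2
  · rcases h.al L hL hd with a | ⟨w, hw, hw'⟩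
    · have : L \ insert x M = (L \ M).erase x := by ext; simp; tauto
      have b := pred_card_le_card_erase (s := L \ M) (a := x)
      rw [← this] at b
      by_cases c : 3 ≤ (L \ insert x M).card
      · exact Or.inl c
      · exact Or.inr (m L hL hd (by omega))
    · refine Or.inr ⟨w, ?_, p w hw'⟩
      simp only [mem_sdiff, mem_insert, not_or] at hw ⊢
      exact ⟨hw.1, fun e => hx (e ▸ hw'), hw.2⟩

lemma exists_free (hd : Disjoint M' B') (h : M'.card + B'.card < Fintype.card α) :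
    ∃ z, z ∉ M' ∧ z ∉ B' := by
  by_contra hn
  have : (univ : Finset α) ⊆ M' ∪ B' := fun z _ => by
    by_contra e
    rw [mem_union, not_or] at e
    exact hn ⟨z, e⟩
  have := card_le_card this
  rw [card_union_of_disjoint hd, card_univ] at this
  omega

lemma draw_of_inv (hT : Pot H T) : ∀ (k : ℕ) (M' B' M B : Finset α) (O : Finset (Finset α)),
    Inv H T M' B' M B O → Ready T M B O → M'.card + B'.card + 2 * k = Fintype.card α →
    Draw (· ∈ H) k M' B'
  | 0, M', B', M, B, O, h, _, hc => by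
    intro L hL
    by_contra hn
    push Not at hn
    have hu : M' ∪ B' = univ := eq_univ_of_card _ (by rw [card_union_of_disjoint h.dj]; omega)
    have LM : ∀ x ∈ L, x ∈ M' := fun x hx =>
      (mem_union.1 (hu ▸ mem_univ x)).resolve_right (hn x hx)
    have hd : Disjoint L B := disjoint_left.2 fun x hx e => hn x hx (h.sB e)
    refine (hT.cover M B L O hL hd ?_ h.own (fun x hx => h.pM x (LM x (mem_sdiff.1 hx).1)
      (mem_sdiff.1 hx).2) fun C hC hs => ?_).not_gt h.t0
    · rcases h.al L hL hd with a | ⟨x, hx, -⟩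
      exacts [card_pos.1 (by omega), ⟨x, hx⟩]
    · obtain ⟨x, hx⟩ : (C \ M).Nonempty := card_pos.1 (by rw [(h.own.1 C hC).2.2]; omega)
      obtain ⟨y, hy, hy'⟩ := h.hit C hC x hx (LM x (hs hx))
      exact hn y (hs hy) hy'
  | k + 1, M', B', M, B, O, h, hr, hc => by
    intro x x1 x2
    have fin : ∀ M₂ O₂, Inv H T (insert x M') B' M₂ B O₂ →
        ∃ y, y ≠ x ∧ y ∉ M' ∧ y ∉ B' ∧ Draw (· ∈ H) k (insert x M') (insert y B') := by
      intro M₂ O₂ h2
      obtain ⟨z, B₂, z1, z2, i, r⟩ := free_move hT h2 (exists_free h2.dj (by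
        rw [card_insert_of_notMem x1]; omega))
      rw [mem_insert, not_or] at z1
      exact ⟨z, z1.1, z1.2, z2, draw_of_inv hT k _ _ _ _ _ i r (by
        rw [card_insert_of_notMem x1, card_insert_of_notMem z2]; omega)⟩
    by_cases hp : pend O M x
    · obtain ⟨C, hC, hxC⟩ := hp
      have step : ∀ B'', Inv H T M' B'' M B O → x ∉ B'' → (∃ y ∈ C \ M, y ∈ B'') →
          Inv H T (insert x M') B'' M B O := fun B'' i b hy =>
        ⟨i.sM.trans (subset_insert _ _), i.sB, disjoint_insert_left.2 ⟨b, i.dj⟩,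
          fun w hw hw' => (mem_insert.1 hw).elim (fun e => e ▸ ⟨C, hC, hxC⟩) fun e => i.pM w e hw',
          i.pB, i.own, fun D hD w hw hw' => by
            rcases mem_insert.1 hw' with rfl | e
            · have : C = D := by
                by_contra hne
                exact disjoint_left.1 (i.own.2 C hC D hD hne) hxC hw
              exact this ▸ hy
            · exact i.hit D hD w hw e, i.al, i.t0⟩
      by_cases hy : ∃ y ∈ C \ M, y ∈ B'
      · exact fin M O (step B' h x2 hy)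
      · obtain ⟨y, hy1, hy2⟩ := exists_mem_ne (s := C \ M) (by rw [(h.own.1 C hC).2.2]; omega) x
        have y1 : y ∉ M' := fun e => hy (h.hit C hC y hy1 e)
        have y2 : y ∉ B' := fun e => hy ⟨y, hy1, e⟩
        refine ⟨y, hy2, y1, y2, draw_of_inv hT k _ _ M B O (step _ (h.small y1 ⟨C, hC, hy1⟩) ?_
          ⟨y, hy1, mem_insert_self _ _⟩) hr ?_⟩
        · rw [mem_insert, not_or]; exact ⟨hy2.symm, x2⟩
        · rw [card_insert_of_notMem x1, card_insert_of_notMem y2]; omega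
    · obtain ⟨O₂, i⟩ := h.big x2 hp (hr x (fun e => x1 (h.sM e)) (fun e => x2 (h.sB e)) hp)
      exact fin _ O₂ i

/-- answer to a first move of small potential -/
lemma first_move (hT : Pot H T) (h4 : ∀ L ∈ H, 4 ≤ L.card) {x : α} (hx : T {x} ∅ < 1) {k : ℕ}
    (hk : 2 + 2 * k = Fintype.card α) : ∃ y, y ≠ x ∧ Draw (· ∈ H) k {x} {y} := by
  have i : Inv H T {x} ∅ {x} ∅ ∅ :=
    ⟨Subset.rfl, Subset.rfl, disjoint_empty_right _, fun _ a b => absurd a b,
      fun _ a b => absurd a b, ⟨by simp, by simp⟩, by simp, fun L hL _ => Or.inl (by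
        have := le_card_sdiff {x} L
        have := h4 L hL
        rw [card_singleton] at *; omega), hx⟩
  obtain ⟨z, B₂, z1, -, i2, r⟩ := free_move hT i (exists_free i.dj (by simp; omega))
  exact ⟨z, by simpa using z1, draw_of_inv hT k _ _ _ _ _ i2 r (by simp; omega)⟩

omit [Fintype α] in
lemma Draw.map {G : Finset α → Prop} (e : α ≃ α) (he : ∀ L, G L → G (L.image e.symm)) :
    ∀ (k : ℕ) (M B : Finset α), Draw G k M B → Draw G k (M.image e) (B.image e)
  | 0, M, B, h => fun L hL => by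
    obtain ⟨x, hx, hx'⟩ := h _ (he L hL)
    obtain ⟨y, hy, rfl⟩ := mem_image.1 hx
    exact ⟨y, hy, mem_image.2 ⟨_, hx', e.apply_symm_apply y⟩⟩
  | k + 1, M, B, h => fun x x1 x2 => by
    obtain ⟨x, rfl⟩ := e.surjective x
    obtain ⟨y, y0, y1, y2, d⟩ := h x (fun a => x1 (mem_image_of_mem _ a))
      fun a => x2 (mem_image_of_mem _ a)
    refine ⟨e y, e.injective.ne y0, by simpa using y1, by simpa using y2, ?_⟩
    simpa only [image_insert] using Draw.map e he k _ _ d

end Pool.Agent.Lib.MP_9dacbe_co
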