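import Pool.Agent.Lib.MP_9dacbe_co.Pot

/-! Incidence geometry of the torus lines for `n = 14`. -/

namespace Pool.Agent.Lib.MP_9dacbe_co

open Finset

abbrev Z := ZMod 14
abbrev V := Fin 4 → Z

def tri : Finset Z := {0, 1, -1}

def Dir (v : V) : Prop := v ≠ 0 ∧ ∀ i, v i ∈ tri

def ln (p v : V) : Finset V := univ.image fun t : Z => p + t • v

lemma exists_HH : ∃ H : Finset (Finset V), ∀ L, L ∈ H ↔ IsLine 14 L := by
  classical
  exact ⟨univ.filter (IsLine 14), fun L => by simp⟩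

noncomputable def HH : Finset (Finset V) := exists_HH.choose

lemma HH_spec (L : Finset V) : L ∈ HH ↔ IsLine 14 L := exists_HH.choose_spec L

def g2 (x y : Z) : ℕ :=
  if 2 * x = 0 ∧ 2 * y = 0 then 16 else if x = 0 ∨ y = 0 ∨ x = y ∨ x = -y then 1 else 0

lemma f1 : ∀ a ∈ tri, ∀ b ∈ tri, ∀ c ∈ tri, ∀ d ∈ tri, a * d ≠ b * c →
    ∑ s : Z, ∑ t ∈ univ.erase (0 : Z), g2 (t * c - s * a) (t * d - s * b) ≤ 92 := by
  decide +kernel

lemma f2 : ∀ a ∈ tri, ∀ b ∈ tri, ∀ c ∈ tri, ∀ d ∈ tri, ∀ r r' : Z, a ≠ 0 → 2 * r ≠ 0 →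
    r * a = r' * b → r * c = r' * d → c = a * b * d := by
  decide +kernel

lemma f3 : ∀ a ∈ tri, a ≠ 0 → a * a = 1 ∧ a ≠ -a := by decide +kernel

lemma f4 : ∀ r : Z, 2 * r = 0 → r = 0 ∨ r = 7 := by decide +kernel

lemma f5 : ∀ y : Z, (tri.filter fun a => 7 * a = y).card ≤ 2 := by decide +kernel

lemma f6 : ∀ a ∈ tri, ∀ b ∈ tri, ∀ r : Z, r * a = 0 ∨ r * b = 0 ∨ r * a = r * b ∨
    r * a = -(r * b) := by decide +kernel

lemma f7 : ∀ a ∈ tri, -a ∈ tri := by decide +kernel

lemma mem_ln {p v x : V} : x ∈ ln p v ↔ ∃ t : Z, x = p + t • v := by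
  simp [ln, eq_comm]

lemma mem_HH {L : Finset V} : L ∈ HH ↔ ∃ p v, Dir v ∧ L = ln p v := by
  simp only [HH_spec, IsLine, Dir, tri, mem_insert, mem_singleton,
    Finset.ext_iff, mem_ln, and_assoc]

lemma through {L : Finset V} (hL : L ∈ HH) {x : V} (hx : x ∈ L) : ∃ v, Dir v ∧ L = ln x v := by
  obtain ⟨p, v, hv, rfl⟩ := mem_HH.1 hL
  obtain ⟨t, rfl⟩ := mem_ln.1 hx
  refine ⟨v, hv, Finset.ext fun y => ?_⟩
  rw [mem_ln, mem_ln]
  constructor
  · rintro ⟨s, rfl⟩; exact ⟨s - t, by rw [sub_smul]; abel⟩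
  · rintro ⟨s, rfl⟩; exact ⟨t + s, by rw [add_smul]; abel⟩

lemma Dir.smul_inj {v : V} (hv : Dir v) {s t : Z} (h : s • v = t • v) : s = t := by
  obtain ⟨i, hi⟩ := Function.ne_iff.1 hv.1
  have e : s * v i = t * v i := congrFun h i
  have := (f3 _ (hv.2 i) hi).1
  linear_combination v i * e - (s - t) * this

lemma Dir.inj {v : V} (hv : Dir v) (p : V) : Function.Injective fun t : Z => p + t • v :=
  fun _ _ h => hv.smul_inj (add_left_cancel h)

lemma Dir.card {v : V} (hv : Dir v) (p : V) : (ln p v).card = 14 := by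
  rw [ln, card_image_of_injective _ (hv.inj p), card_univ, ZMod.card]

lemma ln_eq {v w : V} (hv : Dir v) (hw : Dir w) {c : Z} (h : w = c • v) (p : V) :
    ln p w = ln p v := by
  refine eq_of_subset_of_card_le (fun x hx => ?_) (by rw [hv.card, hw.card])
  obtain ⟨t, rfl⟩ := mem_ln.1 hx
  exact mem_ln.2 ⟨t * c, by rw [h, mul_smul]⟩

lemma uniq {u w : V} (hu : Dir u) (hw : Dir w) {r r' : Z} (h : r • u = r' • w) (hr : 2 * r ≠ 0)
    (p : V) : ln p u = ln p w := by
  obtain ⟨i, hi⟩ := Function.ne_iff.1 hu.1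
  exact ln_eq hw hu (c := u i * w i) (funext fun j => f2 _ (hu.2 i) _ (hw.2 i) _ (hu.2 j) _ (hw.2 j)
    r r' hi hr (congrFun h i) (congrFun h j)) p

lemma two {L C : Finset V} (hL : L ∈ HH) (hC : C ∈ HH) (hne : L ≠ C) : (L ∩ C).card ≤ 2 := by
  rcases (L ∩ C).eq_empty_or_nonempty with h | ⟨a, ha⟩
  · simp [h]
  obtain ⟨u, hu, rfl⟩ := through hL (mem_inter.1 ha).1
  obtain ⟨w, hw, rfl⟩ := through hC (mem_inter.1 ha).2
  refine (card_le_card fun x hx => ?_).trans (card_le_two (a := a) (b := a + (7 : Z) • u))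
  obtain ⟨r, rfl⟩ := mem_ln.1 (mem_inter.1 hx).1
  obtain ⟨r', e⟩ := mem_ln.1 (mem_inter.1 hx).2
  by_cases h : 2 * r = 0
  · rcases f4 r h with rfl | rfl <;> simp
  · exact absurd (uniq hu hw (add_left_cancel e) h a) hne

lemma degree (x : V) : (HH.filter (x ∈ ·)).card ≤ 40 := by
  set D := (Fintype.piFinset fun _ : Fin 4 => tri).erase 0 with hD
  have mD : ∀ v, v ∈ D ↔ Dir v := fun v => by simp [hD, Dir]
  have cD : D.card = 80 := by
    rw [hD, card_erase_of_mem (by simp [tri]), Fintype.card_piFinset,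
      prod_const, show tri.card = 3 by decide]
    simp
  have a : HH.filter (x ∈ ·) ⊆ D.image (ln x) := fun L hL => by
    obtain ⟨v, hv, e⟩ := through (mem_filter.1 hL).1 (mem_filter.1 hL).2
    exact mem_image.2 ⟨v, (mD v).2 hv, e.symm⟩
  have b := mul_card_image_le_card (f := ln x) D 2 fun L hL => by
    obtain ⟨v, hv, rfl⟩ := mem_image.1 hL
    have d := (mD v).1 hv
    have d' : Dir (-v) := ⟨neg_ne_zero.2 d.1, fun i => f7 _ (d.2 i)⟩
    obtain ⟨i, hi⟩ := Function.ne_iff.1 d.1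
    exact one_lt_card.2 ⟨v, mem_filter.2 ⟨hv, rfl⟩, -v,
      mem_filter.2 ⟨(mD _).2 d', ln_eq d d' (neg_one_smul Z v).symm x⟩,
      fun e => (f3 _ (d.2 i) hi).2 (congrFun e i)⟩
  have := card_le_card a
  omega

lemma codeg {a b : V} (hne : a ≠ b) (i j : Fin 4) :
    (HH.filter fun C => a ∈ C ∧ b ∈ C).card ≤ g2 (b i - a i) (b j - a j) := by
  have key : ∀ C ∈ HH.filter fun C => a ∈ C ∧ b ∈ C,
      ∃ u, Dir u ∧ C = ln a u ∧ ∃ r : Z, b = a + r • u := fun C hC => by
    obtain ⟨c1, c2, c3⟩ := mem_filter.1 hC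
    obtain ⟨u, hu, rfl⟩ := through c1 c2
    exact ⟨u, hu, rfl, mem_ln.1 c3⟩
  have one : ∀ k, 2 * (b k - a k) ≠ 0 → (HH.filter fun C => a ∈ C ∧ b ∈ C).card ≤ 1 :=
    fun k hk => card_le_one.2 fun C hC D hD => by
      obtain ⟨u, hu, rfl, r, e⟩ := key C hC
      obtain ⟨w, hw, rfl, r', e'⟩ := key D hD
      refine uniq hu hw (add_left_cancel (e.symm.trans e')) (fun h => hk ?_) a
      rw [e]; simp only [Pi.add_apply, Pi.smul_apply, smul_eq_mul]
      linear_combination u k * h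
  unfold g2
  split_ifs with h1 h2
  · by_cases h : ∀ k, 2 * (b k - a k) = 0
    swap
    · obtain ⟨k, hk⟩ := not_forall.1 h
      exact (one k hk).trans (by norm_num)
    have s : (HH.filter fun C => a ∈ C ∧ b ∈ C) ⊆ (Fintype.piFinset fun k =>
        tri.filter fun c => 7 * c = b k - a k).image (ln a) := fun C hC => by
      obtain ⟨u, hu, rfl, r, e⟩ := key C hC
      refine mem_image_of_mem _ (Fintype.mem_piFinset.2 fun k => mem_filter.2 ⟨hu.2 k, ?_⟩)
      have r2 : 2 * r = 0 := hu.smul_inj (funext fun l => by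
        have := h l
        rw [e] at this
        simp only [Pi.add_apply, Pi.smul_apply, smul_eq_mul] at this ⊢
        linear_combination this)
      rcases f4 r r2 with rfl | rfl
      · exact absurd (by simpa using e.symm) hne
      · simp [e]
    refine (card_le_card s).trans (card_image_le.trans ?_)
    rw [Fintype.card_piFinset]
    exact (prod_le_pow_card _ _ 2 fun k _ => f5 _).trans (by simp)
  · rcases not_and_or.1 h1 with h | h <;> exact one _ h
  · refine (card_eq_zero.2 (eq_empty_of_forall_notMem fun C hC => h2 ?_)).le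
    obtain ⟨u, hu, -, r, rfl⟩ := key C hC
    simpa only [Pi.add_apply, Pi.smul_apply, smul_eq_mul, add_sub_cancel_left]
      using f6 _ (hu.2 i) _ (hu.2 j) r

lemma c14 {L : Finset V} (hL : L ∈ HH) : L.card = 14 := by
  obtain ⟨p, v, hv, rfl⟩ := mem_HH.1 hL
  exact hv.card p

lemma cardV : Fintype.card V = 38416 := by simp [ZMod.card]

lemma geo : Geo HH := by
  refine ⟨fun L => c14, fun L hL C => two hL, fun R hR => ?_, fun R hR D hD => ?_, ?_⟩
  · have := sum_card_inter_le (s := R) (B := nb HH R) (n := 39) fun a ha => by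
      have s : (nb HH R).filter (a ∈ ·) ⊆ (HH.filter (a ∈ ·)).erase R := fun C hC => by
        obtain ⟨c1, c2⟩ := mem_filter.1 hC
        exact mem_erase.2 ⟨(mem_filter.1 c1).2.1, mem_filter.2 ⟨(mem_filter.1 c1).1, c2⟩⟩
      have := card_le_card s
      rw [card_erase_of_mem (mem_filter.2 ⟨hR, ha⟩)] at this
      have := degree a
      omega
    simpa only [inter_comm R, c14 hR] using this
  · obtain ⟨d1, d2, o, ho⟩ := mem_filter.1 hD
    obtain ⟨v, hv, eR⟩ := through hR (mem_inter.1 ho).2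
    obtain ⟨w, hw, eD⟩ := through d1 (mem_inter.1 ho).1
    obtain ⟨i, hi⟩ := Function.ne_iff.1 hv.1
    obtain ⟨j, hj⟩ : ∃ j, v i * w j ≠ v j * w i := by
      by_contra hn
      push Not at hn
      refine d2 (by
        rw [eR, eD]
        refine ln_eq hv hw (c := v i * w i) (funext fun j => ?_) o
        have := (f3 _ (hv.2 i) hi).1
        simp only [Pi.smul_apply, smul_eq_mul]
        linear_combination v i * hn j - w j * this)
    calc _ = ∑ C ∈ nb HH R, ∑ a ∈ R, ∑ b ∈ D \ R, if a ∈ C ∧ b ∈ C then 1 else 0 :=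
          sum_congr rfl fun C _ => by
            simp only [ite_and, sum_ite_irrel, sum_const_zero, sum_ite_mem, sum_const, smul_eq_mul,
              mul_one]
            rw [inter_comm R, inter_comm (D \ R), inter_sdiff_assoc]
      _ = ∑ a ∈ R, ∑ b ∈ D \ R, ((nb HH R).filter fun C => a ∈ C ∧ b ∈ C).card := by
          rw [sum_comm]
          refine sum_congr rfl fun a _ => ?_
          rw [sum_comm]
          exact sum_congr rfl fun b _ => (card_filter _ _).symm
      _ ≤ ∑ a ∈ R, ∑ b ∈ D \ R, g2 (b i - a i) (b j - a j) :=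
          sum_le_sum fun a ha => sum_le_sum fun b hb => (card_le_card (filter_subset_filter _
            (filter_subset _ _))).trans (codeg (a := a) (b := b) (fun e => (mem_sdiff.1 hb).2 (e ▸ ha)) i j)
      _ ≤ ∑ a ∈ R, ∑ b ∈ (univ.erase (0 : Z)).image fun t => o + t • w,
            g2 (b i - a i) (b j - a j) :=
          sum_le_sum fun a _ => sum_le_sum_of_subset fun b hb => by
            obtain ⟨t, rfl⟩ := mem_ln.1 (eD ▸ (mem_sdiff.1 hb).1)
            refine mem_image_of_mem _ (mem_erase.2 ⟨fun e => (mem_sdiff.1 hb).2 ?_, mem_univ _⟩)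
            simpa [e] using (mem_inter.1 ho).2
      _ ≤ 92 := by
          rw [eR, ln, sum_image fun _ _ _ _ h => hv.inj o h]
          simp only [sum_image fun _ _ _ _ h => hw.inj o h, Pi.add_apply, Pi.smul_apply,
            smul_eq_mul, add_sub_add_left_eq_sub]
          exact f1 _ (hv.2 i) _ (hv.2 j) _ (hw.2 i) _ (hw.2 j) hj
  · have := sum_card_le (B := HH) (n := 40) degree
    rw [sum_congr rfl fun L hL => c14 hL, cardV, sum_const, smul_eq_mul] at this
    omega

lemma draw_congr {α : Type} [DecidableEq α] {G G' : Finset α → Prop} (h : ∀ L, G L ↔ G' L) :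
    Draw G = Draw G' := by rw [funext fun L => propext (h L)]

theorem draw14 : Draw (IsLine 14) (14 ^ 4 / 2) ∅ ∅ := by
  rw [draw_congr (G' := (· ∈ HH)) fun L => (HH_spec L).symm]
  obtain ⟨x₀, h0⟩ := exists_first geo cardV
  obtain ⟨y, hy, d⟩ := first_move (pot fun L => c14) (fun L hL => by rw [c14 hL]; norm_num) h0
    (k := 19207) (by rw [cardV])
  intro x _ _
  have := Draw.map (Equiv.addRight (x - x₀)) (fun L hL => by
    obtain ⟨p, v, hv, rfl⟩ := mem_HH.1 hL
    refine mem_HH.2 ⟨p - (x - x₀), v, hv, ?_⟩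
    rw [ln, ln, image_image]
    refine image_congr fun t _ => ?_
    show p + t • v + -(x - x₀) = _
    abel) _ _ _ d
  refine ⟨y + (x - x₀), fun e => hy ?_, notMem_empty _, notMem_empty _, by simpa using this⟩
  have e' : y + (x - x₀) = x₀ + (x - x₀) := by rw [e]; abel
  exact add_right_cancel e'

end Pool.Agent.Lib.MP_9dacbe_co
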