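import Pool.Agent.Lib.MP_9dacbe_co.Game

/-! The potential: weighted stars of sets around a central set. -/

namespace Pool.Agent.Lib.MP_9dacbe_co

open Finset

variable {α : Type} [DecidableEq α]

noncomputable def phi (U M B : Finset α) : ℝ :=
  if Disjoint U B then (1 / 2) ^ (U \ M).card else 0

def nb (H : Finset (Finset α)) (R : Finset α) : Finset (Finset α) :=
  H.filter fun C => C ≠ R ∧ (C ∩ R).Nonempty

noncomputable def Q (H : Finset (Finset α)) (R M B : Finset α) : ℕ → Finset (Finset α) → ℝ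
  | 0, s => phi (R ∪ s.biUnion id) M B
  | j + 1, s => ∑ C ∈ nb H R \ s, Q H R M B j (insert C s)

noncomputable def TT (H : Finset (Finset α)) (M B : Finset α) : ℝ :=
  ∑ R ∈ H, (2 * Q H R M B 1 ∅ + 4 / 3 * Q H R M B 2 ∅ + 11 * Q H R M B 4 ∅)

lemma phi_nonneg (U M B : Finset α) : 0 ≤ phi U M B := by unfold phi; split_ifs <;> positivity

lemma phi_anti (U M B : Finset α) (z : α) : phi U M (insert z B) ≤ phi U M B := by
  unfold phi
  simp only [disjoint_insert_right]
  by_cases h : Disjoint U B <;> by_cases h' : z ∈ U <;> simp [h, h']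

lemma half_erase (S : Finset α) (y : α) :
    (1 / 2 : ℝ) ^ (S.erase y).card = (1 / 2) ^ S.card * if y ∈ S then 2 else 1 := by
  split_ifs with h
  · rw [← card_erase_add_one h, pow_succ]; ring
  · rw [erase_eq_of_notMem h, mul_one]

lemma phi_es (U M B : Finset α) (y z : α) :
    phi U (insert y M) (insert z B) + phi U M (insert y B) ≤ phi U M B + phi U M (insert z B) := by
  unfold phi
  simp only [disjoint_insert_right, sdiff_insert, half_erase, mem_sdiff]
  have : (0 : ℝ) < (1 / 2) ^ (U \ M).card := by positivity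
  by_cases h : Disjoint U B <;> by_cases h' : z ∈ U <;> by_cases h'' : y ∈ U <;>
    by_cases h3 : y ∈ M <;> simp only [h, h', h'', h3, not_true, not_false_iff, and_true, and_false,
      if_true, if_false, and_self] <;> linarith

variable {H : Finset (Finset α)}

lemma Q_nonneg (R M B : Finset α) : ∀ j s, 0 ≤ Q H R M B j s
  | 0, _ => phi_nonneg _ _ _
  | j + 1, _ => sum_nonneg fun _ _ => Q_nonneg R M B j _

lemma Q_anti (R M B : Finset α) (z : α) : ∀ j s, Q H R M (insert z B) j s ≤ Q H R M B j s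
  | 0, _ => phi_anti _ _ _ _
  | j + 1, _ => sum_le_sum fun _ _ => Q_anti R M B z j _

lemma Q_es (R M B : Finset α) (y z : α) : ∀ j s,
    Q H R (insert y M) (insert z B) j s + Q H R M (insert y B) j s ≤
      Q H R M B j s + Q H R M (insert z B) j s
  | 0, _ => phi_es _ _ _ _ _
  | j + 1, _ => by
    simp only [Q, ← sum_add_distrib]
    exact sum_le_sum fun _ _ => Q_es R M B y z j _

lemma phi_ge {R M B : Finset α} (hR : Disjoint R B) {s : Finset (Finset α)}
    (hs : ∀ C ∈ s, Disjoint C B ∧ ((C \ M) \ R).card ≤ 1) :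
    (1 / 2) ^ ((R \ M).card + s.card) ≤ phi (R ∪ s.biUnion id) M B := by
  rw [phi, if_pos (disjoint_union_left.2 ⟨hR, (disjoint_biUnion_left s id _).2 fun C hC =>
    (hs C hC).1⟩)]
  refine pow_le_pow_of_le_one (by norm_num) (by norm_num) ?_
  calc _ ≤ (R \ M ∪ s.biUnion fun C => (C \ M) \ R).card := card_le_card fun x hx => by
        simp only [mem_sdiff, mem_union, mem_biUnion, id] at hx ⊢
        by_cases h : x ∈ R
        · exact Or.inl ⟨h, hx.2⟩
        · obtain ⟨C, a, b⟩ := hx.1.resolve_left h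
          exact Or.inr ⟨C, a, ⟨b, hx.2⟩, h⟩
    _ ≤ _ := (card_union_le _ _).trans (Nat.add_le_add_left
        ((card_biUnion_le_card_mul _ _ 1 fun C hC => (hs C hC).2).trans (mul_one _).le) _)

lemma Q_ge {R M B : Finset α} (hR : Disjoint R B) {A : Finset (Finset α)} (hA : A ⊆ nb H R)
    (hs : ∀ C ∈ A, Disjoint C B ∧ ((C \ M) \ R).card ≤ 1) : ∀ j s, s ⊆ A →
    ((A.card - s.card).descFactorial j : ℝ) * (1 / 2) ^ ((R \ M).card + s.card + j) ≤
      Q H R M B j s
  | 0, s, h => by simpa [Q] using phi_ge hR fun C hC => hs C (h hC)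
  | j + 1, s, h => by
    refine le_trans ?_ (sum_le_sum_of_subset_of_nonneg (sdiff_subset_sdiff hA Subset.rfl)
      fun _ _ _ => Q_nonneg _ _ _ _ _)
    refine le_trans ?_ (card_nsmul_le_sum _ _ (((A.card - s.card - 1).descFactorial j : ℝ) *
      (1 / 2) ^ ((R \ M).card + s.card + (j + 1))) fun C hC => ?_)
    · rw [card_sdiff_of_subset h, nsmul_eq_mul, ← mul_assoc]
      refine mul_le_mul_of_nonneg_right (le_of_eq ?_) (by positivity)
      rcases A.card - s.card with _ | n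
      · simp
      · rw [Nat.succ_descFactorial_succ]; simp
    · have := Q_ge hR hA hs j (insert C s) (insert_subset (mem_sdiff.1 hC).1 h)
      rwa [card_insert_of_notMem (mem_sdiff.1 hC).2, ← Nat.sub_sub, ← add_assoc, add_right_comm _ 1,
        add_assoc _ j] at this

lemma pot [Fintype α] (h14 : ∀ L ∈ H, L.card = 14) : Pot H (TT H) := by
  classical
  refine ⟨fun M B y z => ?_, fun M B z => sum_le_sum fun R _ => ?_,
    fun M B R O hR hd hne ho hp hs => ?_⟩
  · simp only [TT, ← sum_add_distrib]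
    refine sum_le_sum fun R _ => ?_
    linarith [Q_es (H := H) R M B y z 1 ∅, Q_es (H := H) R M B y z 2 ∅, Q_es (H := H) R M B y z 4 ∅]
  · linarith [Q_anti (H := H) R M B z 1 ∅, Q_anti (H := H) R M B z 2 ∅, Q_anti (H := H) R M B z 4 ∅]
  set O' := O.filter fun C => ((C \ M) ∩ R).Nonempty with hO'
  have c1 : ∀ C ∈ O', ((C \ M) ∩ R).card = 1 ∧ ((C \ M) \ R).card = 1 := fun C hC => by
    obtain ⟨a, b⟩ := mem_filter.1 hC
    have e := card_sdiff_add_card_inter (C \ M) R
    have := card_pos.2 b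
    have := card_pos.2 (sdiff_nonempty.2 (hs C a))
    have := (ho.1 C a).2.2
    omega
  have c2 : (R \ M).card ≤ O'.card := by
    calc _ ≤ (O'.biUnion fun C => (C \ M) ∩ R).card := card_le_card fun x hx => by
          obtain ⟨C, a, b⟩ := hp x hx
          have := mem_inter.2 ⟨b, (mem_sdiff.1 hx).1⟩
          exact mem_biUnion.2 ⟨C, mem_filter.2 ⟨a, x, this⟩, this⟩
      _ ≤ _ := (card_biUnion_le_card_mul _ _ 1 fun C hC => (c1 C hC).1.le).trans (mul_one _).le
  obtain ⟨A, hA, cA⟩ := exists_subset_card_eq c2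
  have An : A ⊆ nb H R := fun C hC => by
    obtain ⟨a, x, b⟩ := mem_filter.1 (hA hC)
    exact mem_filter.2 ⟨(ho.1 C a).1, fun e => hs C a (e ▸ sdiff_subset), x,
      mem_inter.2 ⟨(mem_sdiff.1 (mem_inter.1 b).1).1, (mem_inter.1 b).2⟩⟩
  have As : ∀ C ∈ A, Disjoint C B ∧ ((C \ M) \ R).card ≤ 1 := fun C hC =>
    ⟨(ho.1 C (mem_filter.1 (hA hC)).1).2.1, (c1 C (hA hC)).2.le⟩
  have RA : R ∉ A := fun e => (mem_filter.1 (An e)).2.1 rfl
  have q := fun j => Q_ge hd An As j ∅ (empty_subset _)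
  have back : ∀ C ∈ A, 2 * (1 / 2 : ℝ) ^ ((R \ M).card + 1) ≤
      2 * Q H C M B 1 ∅ + 4 / 3 * Q H C M B 2 ∅ + 11 * Q H C M B 4 ∅ := fun C hC => by
    have a := phi_ge hd (s := {C}) (M := M) (by simpa using As C hC)
    have b : Q H C M B 0 (insert R ∅) ≤ Q H C M B 1 ∅ := by
      obtain ⟨-, u, v⟩ := mem_filter.1 (An hC)
      exact single_le_sum (f := fun D => Q H C M B 0 (insert D ∅)) (fun _ _ => Q_nonneg _ _ _ _ _)
        (mem_sdiff.2 ⟨mem_filter.2 ⟨hR, u.symm, inter_comm C R ▸ v⟩, notMem_empty _⟩)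
    have c : Q H C M B 0 (insert R ∅) = phi (R ∪ ({C} : Finset (Finset α)).biUnion id) M B := by
      simp [Q, union_comm]
    rw [card_singleton] at a
    linarith [Q_nonneg (H := H) C M B 2 ∅, Q_nonneg (H := H) C M B 4 ∅]
  refine le_trans ?_ (sum_le_sum_of_subset_of_nonneg
    (insert_subset hR (An.trans (filter_subset _ _))) fun C _ _ => by
      linarith [Q_nonneg (H := H) C M B 1 ∅, Q_nonneg (H := H) C M B 2 ∅,
        Q_nonneg (H := H) C M B 4 ∅])
  rw [sum_insert RA]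
  have b := card_nsmul_le_sum _ _ _ back
  have q1 := q 1
  have q2 := q 2
  have q4 := q 4
  have p1 := card_pos.2 hne
  have p2 : (R \ M).card ≤ 14 := (card_le_card sdiff_subset).trans (h14 R hR).le
  rw [cA] at b q1 q2 q4
  generalize (R \ M).card = p at *
  interval_cases p <;> norm_num [Nat.descFactorial] at b q1 q2 q4 ⊢ <;> linarith

/-! ### the starting value -/

structure Geo (H : Finset (Finset α)) : Prop where
  c14 : ∀ L ∈ H, L.card = 14
  two : ∀ L ∈ H, ∀ C ∈ H, L ≠ C → (L ∩ C).card ≤ 2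
  deg : ∀ R ∈ H, ∑ C ∈ nb H R, (C ∩ R).card ≤ 546
  tri : ∀ R ∈ H, ∀ D ∈ nb H R, ∑ C ∈ nb H R, (C ∩ R).card * ((C ∩ D) \ R).card ≤ 92
  num : H.card ≤ 109760

noncomputable def gg (m : ℕ) : ℝ := (1092 + (4 ^ m - 1) * 92) / 2 ^ 14

lemma pow_le {m x : ℕ} (hm : m ≤ 3) (hx : x ≤ 2 * m) :
    (2 : ℝ) ^ x ≤ 1 + (4 ^ m - 1) / (2 * m) * x := by
  interval_cases m <;> interval_cases x <;> norm_num

lemma step (G : Geo H) {R : Finset α} (hR : R ∈ H) {s : Finset (Finset α)} (hs : s ⊆ nb H R)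
    (h3 : s.card ≤ 3) : ∑ C ∈ nb H R \ s, (1 / 2 : ℝ) ^ (R ∪ (insert C s).biUnion id).card ≤
      (1 / 2) ^ (R ∪ s.biUnion id).card * gg s.card := by
  obtain ⟨U, hU⟩ : ∃ U, U = R ∪ s.biUnion id := ⟨_, rfl⟩
  obtain ⟨κ, hκ⟩ : ∃ κ : ℝ, κ = (4 ^ s.card - 1) / (2 * s.card) := ⟨_, rfl⟩
  have k1 : (0 : ℝ) ≤ 4 ^ s.card - 1 := sub_nonneg.2 (one_le_pow₀ (by norm_num))
  have κ0 : 0 ≤ κ := by rw [hκ]; positivity
  rw [← hU]
  have key : ∀ C ∈ nb H R \ s, (1 / 2 : ℝ) ^ (R ∪ (insert C s).biUnion id).card ≤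
      (1 / 2) ^ U.card / 2 ^ 14 * (2 * (C ∩ R).card + 2 * κ *
        ∑ D ∈ s, (((C ∩ R).card * ((C ∩ D) \ R).card : ℕ) : ℝ)) := by
    intro C hC
    obtain ⟨hC, hCs⟩ := mem_sdiff.1 hC
    obtain ⟨c1, c2, c3⟩ := mem_filter.1 hC
    have e : R ∪ (insert C s).biUnion id = U ∪ C := by
      rw [biUnion_insert, hU, id, union_comm C, union_assoc]
    obtain ⟨x, hx⟩ : ∃ x, x = ∑ D ∈ s, ((C ∩ D) \ R).card := ⟨_, rfl⟩
    have x1 : x ≤ 2 * s.card := by
      rw [mul_comm, hx]
      exact sum_le_card_nsmul _ _ _ fun D hD => (card_le_card sdiff_subset).trans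
        (G.two C c1 D (mem_filter.1 (hs hD)).1 fun e => hCs (e ▸ hD))
    have i1 : (U ∩ C).card ≤ (C ∩ R).card + x := by
      rw [hx]
      refine le_trans (card_le_card fun w hw => ?_) ((card_union_le (C ∩ R)
        (s.biUnion fun D => (C ∩ D) \ R)).trans (Nat.add_le_add_left card_biUnion_le _))
      simp only [hU, mem_inter, mem_sdiff, mem_union, mem_biUnion, id] at hw ⊢
      by_cases h : w ∈ R
      · exact Or.inl ⟨hw.2, h⟩
      · obtain ⟨D, a, b⟩ := hw.1.resolve_left h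
        exact Or.inr ⟨D, a, ⟨hw.2, b⟩, h⟩
    have i2 := card_union_add_card_inter U C
    rw [G.c14 C c1] at i2
    have r1 := card_pos.2 c3
    have r2 := G.two C c1 R hR c2
    have a1 : (2 : ℝ) ^ (C ∩ R).card ≤ 2 * (C ∩ R).card := by
      generalize (C ∩ R).card = r at *
      interval_cases r <;> norm_num
    have a2 := pow_le h3 x1
    rw [← hκ] at a2
    have a3 : (1 / 2 : ℝ) ^ (U ∪ C).card ≤ (1 / 2) ^ U.card / 2 ^ 14 * (2 ^ (C ∩ R).card * 2 ^ x) := by
      rw [← pow_add, one_div, inv_pow, inv_pow, div_mul_eq_mul_div, inv_mul_eq_div, div_div,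
        ← pow_add, inv_eq_one_div, div_le_div_iff₀ (by positivity) (by positivity), one_mul,
        ← pow_add]
      exact pow_le_pow_right₀ one_le_two (by omega)
    rw [e]
    refine a3.trans (mul_le_mul_of_nonneg_left ?_ (by positivity))
    rw [← Nat.cast_sum, ← mul_sum, ← hx]
    push_cast
    calc _ ≤ (2 * (C ∩ R).card : ℝ) * (1 + κ * x) := mul_le_mul a1 a2 (by positivity) (by positivity)
      _ = _ := by ring
  refine (sum_le_sum key).trans ((sum_le_sum_of_subset_of_nonneg sdiff_subset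
    fun _ _ _ => mul_nonneg (by positivity) (add_nonneg (by positivity)
      (mul_nonneg (by positivity) (sum_nonneg fun _ _ => Nat.cast_nonneg _)))).trans ?_)
  rw [← mul_sum, sum_add_distrib, ← mul_sum, ← mul_sum, sum_comm, gg, div_mul_eq_mul_div,
    mul_div_assoc]
  have b1 : (∑ C ∈ nb H R, ((C ∩ R).card : ℝ)) ≤ 546 := by exact_mod_cast G.deg R hR
  have b2 : (∑ D ∈ s, ∑ C ∈ nb H R, (((C ∩ R).card * ((C ∩ D) \ R).card : ℕ) : ℝ)) ≤
      s.card • (92 : ℝ) :=
    sum_le_card_nsmul _ _ _ fun D hD => by exact_mod_cast G.tri R hR D (hs hD)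
  have b3 : 2 * κ * (s.card • (92 : ℝ)) ≤ (4 ^ s.card - 1) * 92 := by
    rw [hκ, nsmul_eq_mul]
    rcases Nat.eq_zero_or_pos s.card with h | h
    · simp [h]
    · have : (s.card : ℝ) ≠ 0 := by positivity
      exact le_of_eq (by field_simp)
  have b4 := mul_le_mul_of_nonneg_left b2 (show 0 ≤ 2 * κ by positivity)
  gcongr ?_ * (?_ / _)
  linarith

lemma gg_nonneg (m : ℕ) : 0 ≤ gg m := by
  have k1 : (0 : ℝ) ≤ 4 ^ m - 1 := sub_nonneg.2 (one_le_pow₀ (by norm_num))
  unfold gg; positivity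

lemma Q_le (G : Geo H) {R : Finset α} (hR : R ∈ H) : ∀ j s, s ⊆ nb H R → s.card + j ≤ 4 →
    Q H R ∅ ∅ j s ≤ (1 / 2) ^ (R ∪ s.biUnion id).card * ∏ i ∈ range j, gg (s.card + i)
  | 0, s, _, _ => by simp [Q, phi]
  | j + 1, s, hs, h => by
    rw [prod_range_succ', add_zero, mul_comm _ (gg _), ← mul_assoc]
    refine le_trans (sum_le_sum fun C hC => ?_) (le_trans (sum_mul _ _ _).ge
      (mul_le_mul_of_nonneg_right (step G hR hs (by omega)) (prod_nonneg fun _ _ => gg_nonneg _)))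
    have := Q_le G hR j (insert C s) (insert_subset (mem_sdiff.1 hC).1 hs) (by
      rw [card_insert_of_notMem (mem_sdiff.1 hC).2]; omega)
    simpa only [card_insert_of_notMem (mem_sdiff.1 hC).2, add_assoc, add_comm 1] using this

lemma Q_avg [Fintype α] (G : Geo H) {R : Finset α} (hR : R ∈ H) : ∀ j s, s ⊆ nb H R →
    s.card + j ≤ 4 → ∑ y, Q H R {y} ∅ j s ≤ (Fintype.card α + 70) * Q H R ∅ ∅ j s
  | 0, s, hs, h => by
    have c : (R ∪ s.biUnion id).card ≤ 70 := by
      have := card_biUnion_le_card_mul s id 14 fun C hC => (G.c14 C (mem_filter.1 (hs hC)).1).le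
      have := card_union_le R (s.biUnion id)
      have := G.c14 R hR
      omega
    simp only [Q, phi, disjoint_empty_right, if_true, sdiff_singleton_eq_erase, half_erase,
      sdiff_empty, ← mul_sum]
    generalize R ∪ s.biUnion id = U at *
    rw [mul_comm]
    refine mul_le_mul_of_nonneg_right ?_ (by positivity)
    have : ∀ y, (if y ∈ U then (2 : ℝ) else 1) = 1 + if y ∈ U then 1 else 0 := fun y => by
      split_ifs <;> norm_num
    have c' : (U.card : ℝ) ≤ 70 := by exact_mod_cast c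
    simp [this, sum_add_distrib, c']
  | j + 1, s, hs, h => by
    simp only [Q]
    rw [sum_comm, mul_sum]
    exact sum_le_sum fun C hC => Q_avg G hR j _ (insert_subset (mem_sdiff.1 hC).1 hs) (by
      rw [card_insert_of_notMem (mem_sdiff.1 hC).2]; omega)

lemma exists_first [Fintype α] (G : Geo H) (hc : Fintype.card α = 38416) :
    ∃ y, TT H {y} ∅ < 1 := by
  by_contra hn
  push Not at hn
  have a := card_nsmul_le_sum univ _ _ fun y _ => hn y
  have b : ∑ y, TT H {y} ∅ ≤ H.card • (34 / 100 : ℝ) := by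
    unfold TT
    rw [sum_comm]
    refine sum_le_card_nsmul _ _ _ fun R hR => ?_
    simp only [sum_add_distrib, ← mul_sum]
    have u := fun j hj => Q_avg G hR j ∅ (empty_subset _) hj
    have v := fun j hj => Q_le G hR j ∅ (empty_subset _) hj
    have u1 := u 1 (by simp)
    have u2 := u 2 (by simp)
    have u4 := u 4 (by simp)
    have v1 := v 1 (by simp)
    have v2 := v 2 (by simp)
    have v4 := v 4 (by simp)
    norm_num [G.c14 R hR, hc, gg, prod_range_succ] at u1 u2 u4 v1 v2 v4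
    linarith
  have c : (H.card : ℝ) ≤ 109760 := by exact_mod_cast G.num
  rw [card_univ, hc, nsmul_eq_mul] at a
  rw [nsmul_eq_mul] at b
  norm_num at a
  linarith

end Pool.Agent.Lib.MP_9dacbe_co
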