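import Pool.Agent.Lib.MP_9dacbe_co.T13Low

/-! The covering property of the potential. -/

namespace Pool.Agent.Lib.MP_9dacbe_co.T13

open Finset

def v0 (j : ℕ) : ℕ := (j - 1).descFactorial 4

def vv (j a : ℕ) : ℕ := if a = 0 then v0 j else min (v0 j) (2 * (j - 2).descFactorial 4)

def rowOk (a b c d : ℕ) : Prop :=
  let j := a + b + c + d
  let p : ℤ := 4 * a + 2 * (b + c) + d
  2 ^ 21 * 3 * 2 ^ j ≤ 2 ^ 17 * (p ^ 3 - 3 * p * (16 * a + 4 * (b + c) + d) +
      2 * (64 * a + 8 * (b + c) + d)) + 3 * 1470 * (j.descFactorial 7 : ℕ) +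
    3 * 2 ^ 20 * (2 * b * (p - 2) + c * (p - 2) + 2 * d * (p - 1) + 4 * c + 4 * d) +
    3 * 1125 * 32 * (2 * b * (vv j a : ℕ) + c * (vv j b : ℕ) + 2 * d * (vv j a : ℕ))

instance (a b c d : ℕ) : Decidable (rowOk a b c d) := by unfold rowOk; infer_instance

lemma rows0 : ∀ a < 14, ∀ b < 14 - a, ∀ c < 14 - a - b, ∀ d < 14 - a - b - c,
    4 ≤ 1 + a + 2 * b + 3 * c + 3 * d → rowOk a b c d := by decide +kernel

lemma rows {a b c d : ℕ} (h : a + b + c + d ≤ 13) (h4 : 4 ≤ 1 + a + 2 * b + 3 * c + 3 * d)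
    {p1 p2 p3 : ℝ} (e1 : p1 = a / 2 + (b + c) / 4 + d / 8) (e2 : p2 = a / 4 + (b + c) / 16 + d / 64)
    (e3 : p3 = a / 8 + (b + c) / 64 + d / 512) :
    1 ≤ (1 / 2 : ℝ) ^ (a + b + c + d) * (32 / 3 * (p1 ^ 3 - 3 * p1 * p2 + 2 * p3) +
      1470 * (((a + b + c + d).descFactorial 7 : ℝ) * (1 / 8) ^ 7) +
      (b * (8 * (p1 - 1 / 4) + 1125 / 4096 * vv (a + b + c + d) a / 8) +
      c * (4 * (p1 - 1 / 4) + 2 + 1125 / 4096 * vv (a + b + c + d) b / 16) +
      d * (8 * (p1 - 1 / 8) + 2 + 1125 / 4096 * vv (a + b + c + d) a / 8))) := by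
  have r := rows0 a (by omega) b (by omega) c (by omega) d (by omega) h4
  simp only [rowOk] at r
  have r' := (Int.cast_le (R := ℝ)).2 r
  push_cast at r'
  rw [one_div, inv_pow, inv_mul_eq_div, le_div_iff₀ (by positivity), e1, e2, e3]
  linarith

variable {α : Type} [DecidableEq α]
variable {H O : Finset (Finset α)} {π : Finset α → Finset α} {M B : Finset α}

def ty (O : Finset (Finset α)) (π : Finset α → Finset α) (x : Finset α) : ℕ :=
  if (ch O π x).card = 2 then 3 else sz O π 2 x - 1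

def cnt (O : Finset (Finset α)) (π : Finset α → Finset α) (L : Finset α) (t : ℕ) : ℕ :=
  ((ch O π L).filter fun x => ty O π x = t).card

lemma sum_ty {L : Finset α} (h : ∀ x ∈ ch O π L, ty O π x < 4) (f : ℕ → ℝ) :
    ∑ x ∈ ch O π L, f (ty O π x) =
      cnt O π L 0 * f 0 + cnt O π L 1 * f 1 + cnt O π L 2 * f 2 + cnt O π L 3 * f 3 := by
  rw [← sum_fiberwise_of_maps_to (t := range 4) (g := ty O π) fun x hx => mem_range.2 (h x hx),
    sum_congr rfl fun t _ => (sum_congr rfl fun x hx => by rw [(mem_filter.1 hx).2]).trans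
      (sum_const (f t))]
  simp [sum_range_succ, cnt]

noncomputable def UU (t : ℕ) : ℝ := if t = 0 then 1 / 2 else if t = 3 then 1 / 8 else 1 / 4

noncomputable def SS (t : ℕ) : ℝ := if t = 0 then 1 else if t = 1 then 2 else 3

lemma ty0 {x : Finset α} (h : ch O π x = ∅) : ty O π x = 0 ∧ uu O π x = 1 / 2 := by
  simp [ty, uu, sz, h]

lemma ty1 {x g : Finset α} (h : ch O π x = {g}) (h' : ch O π g = ∅) :
    ty O π x = 1 ∧ uu O π x = 1 / 4 := by
  simp [ty, uu, sz, h, h']; norm_num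

lemma ty_facts {x : Finset α} (h : sz O π 3 x ≤ 3) :
    ty O π x < 4 ∧ uu O π x = UU (ty O π x) ∧ (sz O π 2 x : ℝ) = SS (ty O π x) := by
  rcases shape h with a | ⟨g, a, b⟩ | ⟨g, y, a, b, c⟩ | ⟨g, y, n, a, b, c⟩
  · simp [ty, uu, sz, UU, SS, a]
  · simp [ty, uu, sz, UU, SS, a, b]; norm_num
  · simp [ty, uu, sz, UU, SS, a, b, c]; norm_num
  · simp [ty, uu, sz, UU, SS, a, b, c, card_pair n, sum_pair n]; norm_num

section own

variable (hl : Lin H) (ho : Own H M B O π) {L : Finset α} (hL : L ∈ H) (hO : L ∉ O)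
  {c0 : ℝ} (h0 : 0 ≤ c0) (hc : c0 ≤ phi L M B)

include hl ho h0 hc in
lemma Own.two_step {x g : Finset α} (hx : x ∈ ch O π L) (hg : g ∈ ch O π x) :
    c0 * uu O π x ≤ phi (L ∪ x) M B ∧ c0 * uu O π x * uu O π g ≤ phi (L ∪ x ∪ g) M B := by
  have a := ho.child hl hx Subset.rfl
  have b := ho.child hl hg (subset_union_right (s₁ := L))
  have c := uu_pos (O := O) (π := π) x
  have d := uu_pos (O := O) (π := π) g
  have e : c0 * uu O π x ≤ phi (L ∪ x) M B := by nlinarith
  exact ⟨e, by nlinarith⟩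

include hl ho hL h0 hc in
lemma Own.pair {x g : Finset α} (hx : x ∈ ch O π L) (hg : g ∈ ch O π x) {a : ℕ}
    (ha : g ∈ ch O π L → a ≠ 0) :
    c0 * uu O π x * uu O π g * (64 * (∑ c ∈ ch O π L, uu O π c - uu O π x) +
      1125 / 4096 * vv (ch O π L).card a) ≤ 64 * Q H L {g} M B 1 (x ∩ L) (L ∪ x ∪ g) +
      1125 * Q H L {g} M B 4 (x ∩ L) (L ∪ x ∪ g) + 16 * Tt M B L x g := by
  obtain ⟨s1, s2⟩ := ho.two_step hl h0 hc hx hg
  have q1 := ho.broom (g := g) hl hL hx 1
  have q4 := ho.broom (g := g) hl hL hx 4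
  have d4 := Ds_ge (u := uu O π) (m := 1 / 8) (by norm_num) 4 (((ch O π L).erase x).erase g)
    fun c hc => ho.uu_ge (mem_ch.1 (mem_of_mem_erase (mem_of_mem_erase hc))).1
  have px := uu_pos (O := O) (π := π) x
  have pg := uu_pos (O := O) (π := π) g
  have w0 : 0 ≤ c0 * uu O π x * uu O π g := by positivity
  have n1 := Ds_nn (fun c => (uu_pos (O := O) (π := π) c).le) 1 (((ch O π L).erase x).erase g)
  rw [Ds1] at q1 n1
  by_cases h : g ∈ ch O π L
  · obtain ⟨t1, t2⟩ := ho.dag hl hL hx hg h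
    have h' : g ∈ (ch O π L).erase x := mem_erase.2 ⟨(mem_ch.1 hg).2.1, h⟩
    rw [sum_erase_eq_sub h', sum_erase_eq_sub hx] at q1 n1
    rw [card_erase_of_mem h', card_erase_of_mem hx, Nat.sub_sub] at d4
    have v : (vv (ch O π L).card a : ℝ) ≤ 2 * (((ch O π L).card - (1 + 1)).descFactorial 4 : ℕ) := by
      rw [vv, if_neg (ha h)]; exact_mod_cast min_le_right _ _
    have ug : uu O π g ≤ 1 / 2 := le_trans (pow_le_pow_of_le_one (by norm_num) (by norm_num)
      (Nat.le_add_right 1 _)) (by norm_num)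
    have s3 : 2 * (c0 * uu O π x * uu O π g) ≤ phi (L ∪ x ∪ g) M B := by nlinarith
    rw [Tt, if_pos t2]
    have b1 := mul_le_mul_of_nonneg_right s3 n1
    have b2 := mul_le_mul s3 d4 (by positivity) (phi_nonneg _ _ _)
    have b3 := mul_le_mul_of_nonneg_left v w0
    have b4 := mul_le_mul_of_nonneg_left ug w0
    have b5 := mul_nonneg w0 n1
    nlinarith
  · have h' : g ∉ (ch O π L).erase x := fun e => h (mem_of_mem_erase e)
    rw [erase_eq_of_notMem h'] at q1 n1 d4 q4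
    rw [sum_erase_eq_sub hx] at q1 n1
    rw [card_erase_of_mem hx] at d4
    have v : (vv (ch O π L).card a : ℝ) ≤ (((ch O π L).card - 1).descFactorial 4 : ℕ) := by
      rw [vv]; split_ifs
      exacts [le_rfl, by exact_mod_cast min_le_left _ _]
    have b1 := mul_le_mul_of_nonneg_right s2 n1
    have b2 := mul_le_mul s2 d4 (by positivity) (phi_nonneg _ _ _)
    have b3 := mul_le_mul_of_nonneg_left v w0
    have := Tt_nn M B L x g
    nlinarith

include hl ho hL hO h0 hc in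
lemma Own.path {x g y : Finset α} (hx : x ∈ ch O π L) (hg : g ∈ ch O π x) (hy : y ∈ ch O π g) :
    c0 * uu O π x * uu O π g * uu O π y ≤ Br H 1 M B x g := by
  have xH := ho.mem x (mem_ch.1 hx).1
  have a := (ho.two_step hl h0 hc hx hg).2
  have b := ho.child hl hy (subset_union_right (s₁ := L ∪ x))
  obtain ⟨q, -, q1, -, q2, -⟩ := ho.meet hl hL hx
  have m : L ∈ cand H x {y} (g ∩ x) := mem_cand.2 ⟨hL, (mem_ch.1 hx).2.1.symm,
    fun e => hO (mem_singleton.1 e ▸ (mem_ch.1 hy).1), q, mem_sdiff.2 ⟨mem_inter.2 ⟨q2, q1⟩,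
      fun e => ho.off hl hL hx hg q q2 q1 (mem_inter.1 e).1⟩⟩
  rw [Br, if_pos (ho.adj hl xH hg)]
  refine le_trans ?_ (single_le_sum (f := fun y => Q H x {y} M B 1 (g ∩ x) (x ∪ g ∪ y))
    (fun _ _ => Q_nn _ _ _ _ _ _ _) (ho.ch_cand hl xH hg hy))
  refine le_trans ?_ (single_le_sum (f := fun C => Q H x {y} M B 0 (g ∩ x ∪ C ∩ x) (x ∪ g ∪ y ∪ C))
    (fun _ _ => Q_nn _ _ _ _ _ _ _) m)
  have e : x ∪ g ∪ y ∪ L = L ∪ x ∪ g ∪ y := by ac_rfl
  rw [Q, e]
  nlinarith [uu_pos (O := O) (π := π) y]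

include hl ho hL hO in
lemma Own.cherry {x g y : Finset α} (hx : x ∈ ch O π L) (hn : g ≠ y) (h : ch O π x = {g, y})
    (hg : ch O π g = ∅) (hy : ch O π y = ∅) (hB : Disjoint L B)
    (hj : (L \ M).card ≤ (ch O π L).card) :
    6 / 32 * (1 / 2) ^ (ch O π L).card ≤ Q H x ∅ M B 3 ∅ x := by
  have xO := (mem_ch.1 hx).1
  have xH := ho.mem x xO
  have gc : g ∈ ch O π x := by simp [h]
  have yc : y ∈ ch O π x := by simp [h]
  have gL : g ≠ L := ne_of_mem_of_not_mem (mem_ch.1 gc).1 hO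
  have yL : y ≠ L := ne_of_mem_of_not_mem (mem_ch.1 yc).1 hO
  obtain ⟨q, -, q1, q0, q2, -⟩ := ho.meet hl hL hx
  obtain ⟨j, ej⟩ : ∃ j, (ch O π L).card = j + 1 := ⟨_, (Nat.succ_pred_eq_of_pos
    (card_pos.2 ⟨x, hx⟩)).symm⟩
  have a := Q_ge (H := H) (M := M) (B := B) (R := x) (X := ∅)
    (u := fun C => if C = L then (1 / 2) ^ j else uu O π C)
    (fun C => by split_ifs; exacts [by positivity, (uu_pos C).le]) 3 ∅ x (insert L (ch O π x))
    Subset.rfl (fun C hC => ?_) fun C hC U hU => ?_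
  · have f := ho.cost (U := ∅) hl xO
    have p := phi_low (k := 4) (ho.alive x xO) (M := M) (by
      rw [sdiff_empty, sdiff_empty, ho.two x xO, h, card_pair hn] at f; omega)
    rw [Ds3, h] at a
    simp only [sum_insert (show L ∉ ({g, y} : Finset _) by simp [gL.symm, yL.symm]), sum_pair hn,
      if_true, if_neg gL, if_neg yL, (ty0 hg).2, (ty0 hy).2] at a
    rw [ej, pow_succ]
    have : (0 : ℝ) < (1 / 2) ^ j := by positivity
    nlinarith
  · rcases mem_insert.1 hC with rfl | hC'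
    · refine ⟨hL, (mem_ch.1 hx).2.1.symm, notMem_empty _, q, q2, q1, notMem_empty _,
        fun D hD hne => ho.off hl hL hx ((mem_insert.1 hD).resolve_left hne) q q2 q1⟩
    · obtain ⟨p, p1, p2, -, p3⟩ := ho.att hl xH hC'
      refine ⟨ho.mem C (mem_ch.1 hC').1, (mem_ch.1 hC').2.1, notMem_empty _, p, p1, p2,
        notMem_empty _, fun D hD hne => ?_⟩
      rcases mem_insert.1 hD with rfl | hD
      exacts [fun e => ho.off hl hL hx hC' p e p2 p1, p3 D hD hne]
  · rcases mem_insert.1 hC with rfl | hC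
    · rw [if_pos rfl]
      refine phi_union hB ?_
      have := card_lt_card (s := (C \ M) \ U) (t := C \ M) ⟨sdiff_subset, fun e =>
        (mem_sdiff.1 (e (mem_sdiff.2 ⟨q2, q0⟩))).2 (hU q1)⟩
      omega
    · rw [if_neg (ne_of_mem_of_not_mem (mem_ch.1 hC).1 hO)]
      exact ho.child hl hC hU

include hl ho hL hO in
lemma Own.val (hB : Disjoint L B) (hj : (L \ M).card ≤ (ch O π L).card) {x : Finset α}
    (hx : x ∈ ch O π L) {p : ℝ} (hp : p = ∑ c ∈ ch O π L, uu O π c) :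
    (1 / 2) ^ (ch O π L).card * (if ty O π x = 0 then 0 else if ty O π x = 1 then
      8 * (p - 1 / 4) + 1125 / 4096 * vv (ch O π L).card (cnt O π L 0) / 8 else
      if ty O π x = 2 then 4 * (p - 1 / 4) + 2 + 1125 / 4096 * vv (ch O π L).card (cnt O π L 1) / 16
      else 8 * (p - 1 / 8) + 2 + 1125 / 4096 * vv (ch O π L).card (cnt O π L 0) / 8 : ℝ) ≤
    32 / 3 * Q H x ∅ M B 3 ∅ x + 64 * Br H 1 M B L x + 64 * ∑ g ∈ ch O π x, Br H 1 M B x g +
      1125 * Br H 4 M B L x + 16 * ∑ g ∈ ch O π x, Tt M B L x g := by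
  have hc := phi_low hB hj
  have h0 : (0 : ℝ) ≤ (1 / 2) ^ (ch O π L).card := by positivity
  have br : ∀ k, ∑ g ∈ ch O π x, Q H L {g} M B k (x ∩ L) (L ∪ x ∪ g) ≤ Br H k M B L x := fun k => by
    rw [Br, if_pos (ho.adj hl hL hx)]
    exact sum_le_sum_of_subset_of_nonneg (ho.ch_cand hl hL hx) fun _ _ _ => Q_nn _ _ _ _ _ _ _
  have b1 := br 1
  have b4 := br 4
  have q3 := Q_nn (H := H) x ∅ M B 3 ∅ x
  have pos : ∀ {g t}, ty O π g = t → g ∈ ch O π L → cnt O π L t ≠ 0 := fun {g t} a b =>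
    (card_pos.2 ⟨g, mem_filter.2 ⟨b, a⟩⟩).ne'
  rcases shape (ho.small x (mem_ch.1 hx).1) with a | ⟨g, a, b⟩ | ⟨g, y, a, b, c⟩ | ⟨g, y, n, a, b, c⟩
  · rw [if_pos (ty0 a).1]
    rw [a] at b1 b4 ⊢
    simp only [sum_empty] at b1 b4 ⊢
    linarith
  · have s := ho.pair hl hL h0 hc hx (g := g) (by simp [a]) (pos (ty0 b).1)
    rw [(ty1 a b).1, if_neg one_ne_zero, if_pos rfl]
    rw [← hp, (ty1 a b).2, (ty0 b).2] at s
    rw [a] at b1 b4 ⊢
    simp only [sum_singleton] at *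
    linarith [Br_nn (H := H) 1 M B x g]
  · have s := ho.pair hl hL h0 hc hx (g := g) (by simp [a]) (pos (ty1 b c).1)
    have t := ho.path hl hL hO h0 hc hx (g := g) (y := y) (by simp [a]) (by simp [b])
    have e1 : ty O π x = 2 := by simp [ty, sz, a, b, c]
    have e2 : uu O π x = 1 / 4 := by simp [uu, a]; norm_num
    rw [e1, if_neg two_ne_zero, if_neg (by norm_num), if_pos rfl]
    rw [← hp, e2, (ty1 b c).2] at s
    rw [e2, (ty1 b c).2, (ty0 c).2] at t
    rw [a] at b1 b4 ⊢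
    simp only [sum_singleton] at *
    linarith
  · have s := ho.pair hl hL h0 hc hx (g := g) (by simp [a]) (pos (ty0 b).1)
    have s' := ho.pair hl hL h0 hc hx (g := y) (by simp [a]) (pos (ty0 c).1)
    have t := ho.cherry hl hL hO hx n a b c hB hj
    have e1 : ty O π x = 3 := by simp [ty, a, card_pair n]
    have e2 : uu O π x = 1 / 8 := by simp [uu, a, card_pair n]; norm_num
    rw [e1, if_neg (by norm_num), if_neg (by norm_num), if_neg (by norm_num)]
    rw [← hp, e2, (ty0 b).2] at s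
    rw [← hp, e2, (ty0 c).2] at s'
    rw [a] at b1 b4 ⊢
    simp only [sum_pair n] at *
    linarith [Br_nn (H := H) 1 M B x g, Br_nn (H := H) 1 M B x y]

end own

lemma cover (hl : Lin H) (h13 : ∀ L ∈ H, L.card = 13) (ho : Own H M B O π) {L : Finset α}
    (hL : L ∈ H) (hO : L ∉ O) (hB : Disjoint L B) (hp : ∀ x ∈ L \ M, pend O π x)
    (hb : Bad O π L) : 1 ≤ TT H M B := by
  have hj := ho.free hl hL hp
  rw [if_neg hO, sdiff_empty] at hj
  have hc := phi_low hB hj
  have h0 : (0 : ℝ) ≤ (1 / 2) ^ (ch O π L).card := by positivity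
  have cH : ∀ x, ch O π x ⊆ H := fun x g hg => ho.mem g (mem_ch.1 hg).1
  have nL : L ∉ ch O π L := fun e => (mem_ch.1 e).2.1 rfl
  have iH : insert L (ch O π L) ⊆ H := insert_subset hL (cH L)
  have t1 := sum_le_sum_of_subset_of_nonneg (f := fun R => Q H R ∅ M B 3 ∅ R) iH
    fun _ _ _ => Q_nn _ _ _ _ _ _ _
  have t2 := single_le_sum (f := fun R => Q H R ∅ M B 7 ∅ R) (fun _ _ => Q_nn _ _ _ _ _ _ _) hL
  have t3 := sym2 (Br_nn (H := H) 1 M B) (Br_symm M B) iH cH ho.anti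
  have t4 := (sum_le_sum_of_subset_of_nonneg (f := Br H 4 M B L) (cH L)
    fun _ _ _ => Br_nn _ _ _ _ _).trans (single_le_sum (f := fun R => ∑ x ∈ H, Br H 4 M B R x)
      (fun _ _ => sum_nonneg fun _ _ => Br_nn _ _ _ _ _) hL)
  have t5 := sym3 M B hL
  rw [sum_insert nL] at t1 t3
  simp only [TT, sum_add_distrib, ← mul_sum]
  by_cases h4 : 4 ≤ sz O π 3 L
  · have t6 := sym2 (Tt_nn M B L) (Tt_swap M B L) (cH L) cH ho.anti
    have tf := fun x (hx : x ∈ ch O π L) => ty_facts (ho.small x (mem_ch.1 hx).1)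
    have st := sum_ty fun x hx => (tf x hx).1
    have v := sum_le_sum fun x hx => ho.val hl hL hO hB hj (x := x) hx rfl
    have s3 := ho.star hl hL 3
    have s7 := ho.star hl hL 7
    have d7 := Ds_ge (u := uu O π) (m := 1 / 8) (by norm_num) 7 (ch O π L)
      fun c hc => ho.uu_ge (mem_ch.1 hc).1
    have s3' := mul_le_mul_of_nonneg_right hc (Ds_nn (fun c => (uu_pos (O := O) (π := π) c).le) 3
      (ch O π L))
    have s7' := mul_le_mul hc d7 (by positivity) (phi_nonneg _ _ _)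
    have ej : (ch O π L).card = cnt O π L 0 + cnt O π L 1 + cnt O π L 2 + cnt O π L 3 := by
      have := st fun _ => 1
      simp only [sum_const, nsmul_eq_mul, mul_one] at this
      exact_mod_cast this
    have es : 4 ≤ 1 + cnt O π L 0 + 2 * cnt O π L 1 + 3 * cnt O π L 2 + 3 * cnt O π L 3 := by
      have a := st SS
      rw [← sum_congr rfl fun x hx => (tf x hx).2.2] at a
      have b : ((4 : ℕ) : ℝ) ≤ ((1 + ∑ D ∈ ch O π L, sz O π 2 D : ℕ) : ℝ) := Nat.cast_le.2 h4
      push_cast at b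
      norm_num [SS] at a
      have c : (4 : ℝ) ≤ 1 + cnt O π L 0 + 2 * cnt O π L 1 + 3 * cnt O π L 2 + 3 * cnt O π L 3 := by
        linarith
      exact_mod_cast c
    have pw : ∀ k : ℕ, ∑ c ∈ ch O π L, uu O π c ^ k = cnt O π L 0 * (1 / 2) ^ k +
        cnt O π L 1 * (1 / 4) ^ k + cnt O π L 2 * (1 / 4) ^ k + cnt O π L 3 * (1 / 8) ^ k :=
      fun k => by
        rw [sum_congr rfl fun x hx => by rw [(tf x hx).2.1], st fun t => UU t ^ k]
        norm_num [UU]
    have r := rows (ej ▸ (ho.card_ch L).trans (h13 L hL).le) es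
      (p1 := ∑ c ∈ ch O π L, uu O π c) (p2 := ∑ c ∈ ch O π L, uu O π c ^ 2)
      (p3 := ∑ c ∈ ch O π L, uu O π c ^ 3) (by have := pw 1; simp only [pow_one] at this; linarith)
      (by rw [pw 2]; ring) (by rw [pw 3]; ring)
    rw [← mul_sum, st fun t => (if t = 0 then 0 else if t = 1 then _ else if t = 2 then _
      else _ : ℝ)] at v
    rw [← ej, ← Ds3] at r
    simp only [sum_add_distrib, ← mul_sum, if_true, if_neg one_ne_zero, if_neg two_ne_zero,
      OfNat.ofNat_ne_zero, OfNat.ofNat_ne_one, if_false, Nat.reduceEqDiff] at v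
    linarith
  · obtain ⟨D, hD, E, hE, t⟩ := hb.resolve_left h4
    have ne : D ≠ E := fun e => by
      obtain ⟨x, hx⟩ := t.1
      exact t.2.2.2 x (mem_inter.1 hx).1 (mem_inter.1 hx).2 (e ▸ (mem_inter.1 hx).2)
    have t6 := sym2 (A := {D}) (c := fun a => if a = D then {E} else ∅) (Tt_nn M B L)
      (Tt_swap M B L) (singleton_subset_iff.2 (cH L hD)) (fun a => by
        split_ifs
        exacts [singleton_subset_iff.2 (hE.elim (fun a => cH _ a) fun a => cH _ a), empty_subset _])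
      fun a b => by
        split_ifs with h1 h2 <;> simp
        rintro rfl
        exact absurd h2.symm ne
    simp only [sum_singleton, if_true, Tt, if_pos t] at t6
    have f : (1 / 16 : ℝ) ≤ phi (L ∪ D ∪ E) M B := by
      rcases shape (O := O) (π := π) (x := L) (by omega) with
        a | ⟨g, a, b⟩ | ⟨g, y, a, b, c⟩ | ⟨g, y, n, a, b, c⟩
      · simp [a] at hD
      · obtain rfl : D = g := by simpa [a] using hD
        simp [a, b, ne.symm] at hE
      · obtain rfl : D = g := by simpa [a] using hD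
        obtain rfl : E = y := by simpa [a, b, ne.symm] using hE
        have := (ho.two_step hl h0 hc hD (g := E) (by simp [b])).2
        rw [(ty1 b c).2, (ty0 c).2, a] at this
        norm_num at this ⊢
        exact this
      · have u : ∀ z ∈ ch O π L, ch O π z = ∅ := fun z hz => by
          rw [a, mem_insert, mem_singleton] at hz
          rcases hz with rfl | rfl <;> assumption
        have hE' := hE.resolve_right (by simp [u D hD])
        have p1 := ho.child hl hD Subset.rfl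
        have p2 := ho.child hl hE' (subset_union_left (s₂ := D))
        rw [(ty0 (u D hD)).2] at p1
        rw [(ty0 (u E hE')).2] at p2
        rw [a, card_pair n] at hc
        linarith
    have n1 := sum_nonneg fun R (_ : R ∈ H) => Q_nn (H := H) R ∅ M B 3 ∅ R
    have n2 := sum_nonneg fun R (_ : R ∈ H) => Q_nn (H := H) R ∅ M B 7 ∅ R
    have n3 := fun k => sum_nonneg fun R (_ : R ∈ H) => sum_nonneg fun x (_ : x ∈ H) =>
      Br_nn (H := H) k M B R x
    unfold Tt at t5 ⊢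
    linarith [n3 1, n3 4]

lemma pot [Fintype α] (hl : Lin H) (h13 : ∀ L ∈ H, L.card = 13) : Pot H (TT H) :=
  ⟨(TT_good h13).es, (TT_good h13).anti, fun _ _ _ _ _ ho a b c d e => cover hl h13 ho a b c d e⟩

end Pool.Agent.Lib.MP_9dacbe_co.T13
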