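import Pool.Agent.Lib.MP_9dacbe_co.T13Own

/-! The two level strategy with cascading ownership. -/

namespace Pool.Agent.Lib.MP_9dacbe_co.T13

open Finset

variable {α : Type} [DecidableEq α] [Fintype α]

structure Pot (H : Finset (Finset α)) (T : Finset α → Finset α → ℝ) : Prop where
  es : ∀ M B y z, T (insert y M) (insert z B) + T M (insert y B) ≤ T M B + T M (insert z B)
  anti : ∀ M B z, T M (insert z B) ≤ T M B
  cover : ∀ M B O π L, Own H M B O π → L ∈ H → L ∉ O → Disjoint L B →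
    (∀ x ∈ L \ M, pend O π x) → Bad O π L → 1 ≤ T M B

structure Inv (H : Finset (Finset α)) (T : Finset α → Finset α → ℝ) (M' B' M B : Finset α)
    (O : Finset (Finset α)) (π : Finset α → Finset α) : Prop where
  sM : M ⊆ M'
  sB : B ⊆ B'
  dj : Disjoint M' B'
  pM : ∀ x ∈ M', x ∉ M → pend O π x
  pB : ∀ x ∈ B', x ∉ B → pend O π x
  own : Own H M B O π
  hit : ∀ C ∈ O, ∀ x ∈ π C, x ∈ M' → ∃ y ∈ π C, y ∈ B'
  al : Calm H M B O π
  t0 : T M B < 1

def Ready (T : Finset α → Finset α → ℝ) (M B : Finset α) (O : Finset (Finset α))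
    (π : Finset α → Finset α) : Prop :=
  ∀ y, y ∉ M → y ∉ B → ¬ pend O π y → T (insert y M) B < 1

variable {H : Finset (Finset α)} {T : Finset α → Finset α → ℝ} {M' B' M B : Finset α}
  {O : Finset (Finset α)} {π : Finset α → Finset α}

omit [Fintype α] in
lemma Inv.small (h : Inv H T M' B' M B O π) {z : α} (h1 : z ∉ M') (hz : pend O π z) :
    Inv H T M' (insert z B') M B O π :=
  ⟨h.sM, h.sB.trans (subset_insert _ _), disjoint_insert_right.2 ⟨h1, h.dj⟩, h.pM,
    fun x hx hx' => (mem_insert.1 hx).elim (fun e => e ▸ hz) fun e => h.pB x e hx', h.own,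
    fun C hC x hx hx' => (h.hit C hC x hx hx').imp fun _ hy => ⟨hy.1, mem_insert_of_mem hy.2⟩,
    h.al, h.t0⟩

lemma free_move (hT : Pot H T) (h : Inv H T M' B' M B O π) (hf : ∃ z, z ∉ M' ∧ z ∉ B') :
    ∃ z B₂, z ∉ M' ∧ z ∉ B' ∧ Inv H T M' (insert z B') M B₂ O π ∧ Ready T M B₂ O π := by
  classical
  by_cases hn : (univ.filter fun z => z ∉ M ∧ z ∉ B ∧ ¬ pend O π z).Nonempty
  · obtain ⟨z, hz, hmin⟩ := exists_min_image _ (fun z => T M (insert z B)) hn
    obtain ⟨z1, z2, z3⟩ := (mem_filter.1 hz).2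
    have z4 : z ∉ M' := fun e => z3 (h.pM z e z1)
    refine ⟨z, insert z B, z4, fun e => z3 (h.pB z e z2),
      ⟨h.sM, insert_subset_insert _ h.sB, disjoint_insert_right.2 ⟨z4, h.dj⟩, h.pM,
        fun x hx hx' => ?_, ⟨h.own.mem, fun C hC => ?_, h.own.sub, h.own.two, h.own.cov,
          h.own.dis, h.own.small⟩,
        fun C hC x hx hx' => (h.hit C hC x hx hx').imp fun _ hy => ⟨hy.1, mem_insert_of_mem hy.2⟩,
        fun L hL hO hd => h.al L hL hO (disjoint_insert_right.1 hd).2,
        (hT.anti M B z).trans_lt h.t0⟩,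
      fun y y1 y2 y3 => ?_⟩
    · rw [mem_insert, not_or] at hx'
      exact h.pB x ((mem_insert.1 hx).resolve_left hx'.1) hx'.2
    · exact disjoint_insert_right.2 ⟨fun e => z3 (h.own.cov C hC z (mem_sdiff.2 ⟨e, z1⟩)),
        h.own.alive C hC⟩
    · have := hmin y (mem_filter.2 ⟨mem_univ _, y1, fun e => y2 (mem_insert_of_mem e), y3⟩)
      linarith [hT.es M B y z, h.t0]
  · obtain ⟨z, z1, z2⟩ := hf
    have key : ∀ y, y ∉ M → y ∉ B → pend O π y := fun y y1 y2 => by
      by_contra y3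
      exact hn ⟨y, mem_filter.2 ⟨mem_univ _, y1, y2, y3⟩⟩
    exact ⟨z, B, z1, z2, h.small z1 (key z (fun e => z1 (h.sM e)) fun e => z2 (h.sB e)),
      fun y y1 y2 y3 => absurd (key y y1 y2) y3⟩

omit [Fintype α] in
lemma Inv.big (hl : Lin H) (h : Inv H T M' B' M B O π) {x : α} (x2 : x ∉ B')
    (hx : ¬ pend O π x) (ht : T (insert x M) B < 1) :
    ∃ O₂ π₂, Inv H T (insert x M') B' (insert x M) B O₂ π₂ := by
  have e : ∀ C ∈ O, C \ insert x M = C \ M := fun C hC => by
    ext w
    simp only [mem_sdiff, mem_insert, not_or]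
    exact ⟨fun a => ⟨a.1, a.2.2⟩, fun a => ⟨a.1,
      fun e => hx (e ▸ h.own.cov C hC w (mem_sdiff.2 a)), a.2⟩⟩
  obtain ⟨O₂, π₂, s, q, o, m⟩ := cascade (M := insert x M) (B := B) hl (mem_insert_self x M) _ O π
    le_rfl ⟨h.own.mem, h.own.alive, fun C hC => by rw [e C hC]; exact h.own.sub C hC, h.own.two,
      fun C hC => by rw [e C hC]; exact h.own.cov C hC, h.own.dis, h.own.small⟩
    fun L hL hO hd => by
      rcases h.al L hL hO hd with a | a
      · have : np O π (insert x M) L = (np O π M L).erase x := by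
          ext; simp [np]; tauto
        by_cases c : x ∈ L
        · have b := pred_card_le_card_erase (s := np O π M L) (a := x)
          rw [← this] at b
          by_cases d : 3 ≤ (np O π (insert x M) L).card
          exacts [Or.inl d, Or.inr (Or.inr ⟨by omega, Or.inl c⟩)]
        · rw [this, erase_eq_of_notMem (s := np O π M L)
            fun b => c (mem_sdiff.1 (mem_filter.1 b).1).1]
          exact Or.inl a
      · exact Or.inr (Or.inl a)
  have p : ∀ w, pend O π w → pend O₂ π₂ w := fun w ⟨C, hC, hw⟩ => ⟨C, s hC, by rwa [q C hC]⟩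
  refine ⟨O₂, π₂, insert_subset_insert _ h.sM, h.sB, disjoint_insert_left.2 ⟨x2, h.dj⟩,
    fun w hw hw' => ?_, fun w hw hw' => p w (h.pB w hw hw'), o, fun C hC w hw hw' => ?_, m, ht⟩
  · rw [mem_insert, not_or] at hw'
    exact p w (h.pM w ((mem_insert.1 hw).resolve_left hw'.1) hw'.2)
  · have a := (mem_sdiff.1 (o.sub C hC hw)).2
    rw [mem_insert, not_or] at a
    have a2 := (mem_insert.1 hw').resolve_left a.1
    obtain ⟨D, hD, hwD⟩ := h.pM w a2 a.2
    have : C = D := by
      by_contra hne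
      exact disjoint_left.1 (o.dis C hC D (s hD) hne) hw (by rwa [q D hD])
    rw [this, q D hD]
    exact h.hit D hD w hwD a2

omit [Fintype α] in
lemma Inv.fin (hT : Pot H T) (h : Inv H T M' B' M B O π) {L : Finset α} (hL : L ∈ H)
    (hO : L ∉ O) (hn : ∀ x ∈ L, x ∉ B') (hp : ∀ x ∈ L \ M, pend O π x) : False := by
  have hd : Disjoint L B := disjoint_left.2 fun x hx e => hn x hx (h.sB e)
  refine (hT.cover M B O π L h.own hL hO hd hp ((h.al L hL hO hd).resolve_left ?_)).not_gt h.t0
  rw [np, filter_false_of_mem fun x hx a => a (hp x hx)]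
  simp

lemma draw_of_inv (hl : Lin H) (hT : Pot H T) : ∀ (k : ℕ) (M' B' M B : Finset α)
    (O : Finset (Finset α)) (π : Finset α → Finset α),
    Inv H T M' B' M B O π → Ready T M B O π → M'.card + B'.card + 2 * k + 1 = Fintype.card α →
    Draw (· ∈ H) k M' B'
  | 0, M', B', M, B, O, π, h, hr, hc => by
    intro L hL
    by_contra hn
    push Not at hn
    obtain ⟨x, x1, x2⟩ := exists_free h.dj (by omega)
    have hu : insert x (M' ∪ B') = univ := eq_univ_of_card _ (by
      rw [card_insert_of_notMem (by simp [x1, x2]), card_union_of_disjoint h.dj]; omega)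
    have LM : ∀ y ∈ L, y ∈ insert x M' := fun y hy => by
      have := hu ▸ mem_univ y
      have := hn y hy
      simp only [mem_insert, mem_union] at *
      tauto
    have no : ∀ {M₂ O₂ π₂}, Own H M₂ B O₂ π₂ →
        (∀ C ∈ O₂, ∀ x ∈ π₂ C, x ∈ M' → ∃ y ∈ π₂ C, y ∈ B') → L ∉ O₂ := fun o ht a => by
      obtain ⟨y, hy1, hy2⟩ := exists_mem_ne (s := _) (by rw [o.two L a]; omega) x
      have b := fun y hy => (mem_sdiff.1 (o.sub L a (x := y) hy)).1
      obtain ⟨z, z1, z2⟩ := ht L a y hy1 ((mem_insert.1 (LM y (b y hy1))).resolve_left hy2)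
      exact hn z (b z z1) z2
    by_cases hp : pend O π x
    · exact h.fin hT hL (no h.own h.hit) hn fun y hy =>
        (mem_insert.1 (LM y (mem_sdiff.1 hy).1)).elim (fun e => e ▸ hp)
          fun e => h.pM y e (mem_sdiff.1 hy).2
    · obtain ⟨O₂, π₂, i⟩ := h.big hl x2 hp
        (hr x (fun e => x1 (h.sM e)) (fun e => x2 (h.sB e)) hp)
      exact i.fin hT hL (no i.own fun C hC y hy a => i.hit C hC y hy (mem_insert_of_mem a)) hn
        fun y hy => i.pM y (LM y (mem_sdiff.1 hy).1) (mem_sdiff.1 hy).2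
  | k + 1, M', B', M, B, O, π, h, hr, hc => by
    intro x x1 x2
    have fin : ∀ M₂ O₂ π₂, Inv H T (insert x M') B' M₂ B O₂ π₂ →
        ∃ y, y ≠ x ∧ y ∉ M' ∧ y ∉ B' ∧ Draw (· ∈ H) k (insert x M') (insert y B') := by
      intro M₂ O₂ π₂ h2
      obtain ⟨z, B₂, z1, z2, i, r⟩ := free_move hT h2 (exists_free h2.dj (by
        rw [card_insert_of_notMem x1]; omega))
      rw [mem_insert, not_or] at z1
      exact ⟨z, z1.1, z1.2, z2, draw_of_inv hl hT k _ _ _ _ _ _ i r (by
        rw [card_insert_of_notMem x1, card_insert_of_notMem z2]; omega)⟩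
    by_cases hp : pend O π x
    · obtain ⟨C, hC, hxC⟩ := hp
      have step : ∀ B'', Inv H T M' B'' M B O π → x ∉ B'' → (∃ y ∈ π C, y ∈ B'') →
          Inv H T (insert x M') B'' M B O π := fun B'' i b hy =>
        ⟨i.sM.trans (subset_insert _ _), i.sB, disjoint_insert_left.2 ⟨b, i.dj⟩,
          fun w hw hw' => (mem_insert.1 hw).elim (fun e => e ▸ ⟨C, hC, hxC⟩) fun e => i.pM w e hw',
          i.pB, i.own, fun D hD w hw hw' => by
            rcases mem_insert.1 hw' with rfl | e
            · have : C = D := by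
                by_contra hne
                exact disjoint_left.1 (i.own.dis C hC D hD hne) hxC hw
              exact this ▸ hy
            · exact i.hit D hD w hw e, i.al, i.t0⟩
      by_cases hy : ∃ y ∈ π C, y ∈ B'
      · exact fin M O π (step B' h x2 hy)
      · obtain ⟨y, hy1, hy2⟩ := exists_mem_ne (s := π C) (by rw [h.own.two C hC]; omega) x
        have y1 : y ∉ M' := fun e => hy (h.hit C hC y hy1 e)
        have y2 : y ∉ B' := fun e => hy ⟨y, hy1, e⟩
        refine ⟨y, hy2, y1, y2, draw_of_inv hl hT k _ _ M B O π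
          (step _ (h.small y1 ⟨C, hC, hy1⟩) ?_ ⟨y, hy1, mem_insert_self _ _⟩) hr ?_⟩
        · rw [mem_insert, not_or]; exact ⟨hy2.symm, x2⟩
        · rw [card_insert_of_notMem x1, card_insert_of_notMem y2]; omega
    · obtain ⟨O₂, π₂, i⟩ := h.big hl x2 hp
        (hr x (fun e => x1 (h.sM e)) (fun e => x2 (h.sB e)) hp)
      exact fin _ O₂ π₂ i

/-- answer to a first move of small potential -/
lemma first_move (hl : Lin H) (hT : Pot H T) (h4 : ∀ L ∈ H, 4 ≤ L.card) {x : α}
    (hx : T {x} ∅ < 1) {k : ℕ} (hk : 3 + 2 * k = Fintype.card α) :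
    ∃ y, y ≠ x ∧ Draw (· ∈ H) k {x} {y} := by
  have i : Inv H T {x} ∅ {x} ∅ ∅ id :=
    ⟨Subset.rfl, Subset.rfl, disjoint_empty_right _, fun _ a b => absurd a b,
      fun _ a b => absurd a b, ⟨by simp, by simp, by simp, by simp, by simp, by simp, by simp⟩,
      by simp, fun L hL _ _ => Or.inl (by
        rw [np, filter_true_of_mem fun _ _ => by simp [pend]]
        have := le_card_sdiff {x} L
        have := h4 L hL
        rw [card_singleton] at *; omega), hx⟩
  obtain ⟨z, B₂, z1, -, i2, r⟩ := free_move hT i (exists_free i.dj (by simp; omega))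
  exact ⟨z, by simpa using z1, draw_of_inv hl hT k _ _ _ _ _ _ i2 r (by simp; omega)⟩

end Pool.Agent.Lib.MP_9dacbe_co.T13
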