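import Pool.Agent.Lib.MP_9dacbe_co.T13Start

/-! Incidence geometry of the torus lines for `n = 13`. -/

namespace Pool.Agent.Lib.MP_9dacbe_co.T13

open Finset

abbrev Z := ZMod 13
abbrev V := Fin 4 → Z

def tri : Finset Z := {0, 1, -1}

def Dir (v : V) : Prop := v ≠ 0 ∧ ∀ i, v i ∈ tri

@[irreducible] def ln (p v : V) : Finset V := univ.image fun t : Z => p + t • v

@[irreducible] def pl (R C : Finset V) : Finset V :=
  (R ×ˢ C ×ˢ C).image fun t => t.1 + (t.2.1 - t.2.2)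

lemma exists_HH : ∃ H : Finset (Finset V), ∀ L, L ∈ H ↔ IsLine 13 L := by
  classical
  exact ⟨univ.filter (IsLine 13), fun L => by simp⟩

noncomputable def HH : Finset (Finset V) := exists_HH.choose

lemma HH_spec (L : Finset V) : L ∈ HH ↔ IsLine 13 L := exists_HH.choose_spec L

lemma f2 : ∀ a ∈ tri, ∀ b ∈ tri, ∀ c ∈ tri, ∀ d ∈ tri, ∀ r r' : Z, a ≠ 0 → r ≠ 0 →
    r * a = r' * b → r * c = r' * d → c = a * b * d := by
  decide +kernel

lemma f3 : ∀ a ∈ tri, a ≠ 0 → a * a = 1 ∧ a ≠ -a := by decide +kernel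

lemma f4 : ∀ t : Z, t ≠ 0 → ∃ s, s * t = 1 := by decide +kernel

lemma f7 : ∀ a ∈ tri, -a ∈ tri := by decide +kernel

lemma mem_ln {p v x : V} : x ∈ ln p v ↔ ∃ t : Z, x = p + t • v := by
  simp [ln, eq_comm]

lemma mem_HH {L : Finset V} : L ∈ HH ↔ ∃ p v, Dir v ∧ L = ln p v := by
  simp only [HH_spec, IsLine, Dir, tri, mem_insert, mem_singleton,
    Finset.ext_iff, mem_ln, and_assoc]

lemma ln_shift {p v x : V} (hx : x ∈ ln p v) : ln p v = ln x v := by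
  obtain ⟨t, rfl⟩ := mem_ln.1 hx
  refine Finset.ext fun y => ?_
  rw [mem_ln, mem_ln]
  constructor
  · rintro ⟨s, rfl⟩; exact ⟨s - t, by rw [sub_smul]; abel⟩
  · rintro ⟨s, rfl⟩; exact ⟨t + s, by rw [add_smul]; abel⟩

lemma through {L : Finset V} (hL : L ∈ HH) {x : V} (hx : x ∈ L) : ∃ v, Dir v ∧ L = ln x v := by
  obtain ⟨p, v, hv, rfl⟩ := mem_HH.1 hL
  exact ⟨v, hv, ln_shift hx⟩

lemma Dir.smul_inj {v : V} (hv : Dir v) {s t : Z} (h : s • v = t • v) : s = t := by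
  obtain ⟨i, hi⟩ := Function.ne_iff.1 hv.1
  have e : s * v i = t * v i := congrFun h i
  have := (f3 _ (hv.2 i) hi).1
  linear_combination v i * e - (s - t) * this

lemma Dir.inj {v : V} (hv : Dir v) (p : V) : Function.Injective fun t : Z => p + t • v :=
  fun _ _ h => hv.smul_inj (add_left_cancel h)

lemma Dir.card {v : V} (hv : Dir v) (p : V) : (ln p v).card = 13 := by
  rw [ln, card_image_of_injective _ (hv.inj p), card_univ, ZMod.card]

lemma Dir.neg {v : V} (d : Dir v) : Dir (-v) := ⟨neg_ne_zero.2 d.1, fun i => f7 _ (d.2 i)⟩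

lemma Dir.ne_neg {v : V} (d : Dir v) : v ≠ -v := by
  obtain ⟨i, hi⟩ := Function.ne_iff.1 d.1
  exact fun e => (f3 _ (d.2 i) hi).2 (congrFun e i)

lemma ln_eq {v w : V} (hv : Dir v) (hw : Dir w) {c : Z} (h : w = c • v) (p : V) :
    ln p w = ln p v := by
  refine eq_of_subset_of_card_le (fun x hx => ?_) (by rw [hv.card, hw.card])
  obtain ⟨t, rfl⟩ := mem_ln.1 hx
  exact mem_ln.2 ⟨t * c, by rw [h, mul_smul]⟩

lemma uniq {u w : V} (hu : Dir u) (hw : Dir w) {r r' : Z} (h : r • u = r' • w) (hr : r ≠ 0)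
    (p : V) : ln p u = ln p w := by
  obtain ⟨i, hi⟩ := Function.ne_iff.1 hu.1
  exact ln_eq hw hu (c := u i * w i) (funext fun j => f2 _ (hu.2 i) _ (hw.2 i) _ (hu.2 j) _ (hw.2 j)
    r r' hi hr (congrFun h i) (congrFun h j)) p

lemma lin : Lin HH := fun L hL C hC hne x x1 x2 y y1 y2 => by
  obtain ⟨u, hu, rfl⟩ := through hL x1
  obtain ⟨w, hw, rfl⟩ := through hC x2
  obtain ⟨r, rfl⟩ := mem_ln.1 y1
  obtain ⟨r', e⟩ := mem_ln.1 y2
  by_cases h : r = 0
  · simp [h]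
  · exact absurd (uniq hu hw (add_left_cancel e) h x) hne

lemma half_count (x : V) {D : Finset V} (h1 : ∀ v ∈ D, Dir v) (h2 : ∀ v ∈ D, -v ∈ D) :
    2 * (D.image (ln x)).card ≤ D.card :=
  mul_card_image_le_card (f := ln x) D 2 fun L hL => by
    obtain ⟨v, hv, rfl⟩ := mem_image.1 hL
    have d := h1 v hv
    exact one_lt_card.2 ⟨v, mem_filter.2 ⟨hv, rfl⟩, -v,
      mem_filter.2 ⟨h2 v hv, ln_eq d d.neg (neg_one_smul Z v).symm x⟩, d.ne_neg⟩

@[irreducible] def DD : Finset V := (Fintype.piFinset fun _ : Fin 4 => tri).erase 0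

lemma mem_DD {v : V} : v ∈ DD ↔ Dir v := by simp [DD, Dir]

lemma degree (x : V) : (HH.filter (x ∈ ·)).card ≤ 40 := by
  have cD : DD.card = 80 := by
    rw [DD, card_erase_of_mem (by simp [tri]), Fintype.card_piFinset,
      prod_const, show tri.card = 3 by decide]
    simp
  have a : HH.filter (x ∈ ·) ⊆ DD.image (ln x) := fun L hL => by
    obtain ⟨v, hv, e⟩ := through (mem_filter.1 hL).1 (mem_filter.1 hL).2
    exact mem_image.2 ⟨v, mem_DD.2 hv, e.symm⟩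
  have b := half_count x (D := DD) (fun v hv => mem_DD.1 hv) fun v hv => mem_DD.2 (mem_DD.1 hv).neg
  have := card_le_card a
  omega

lemma c13 {L : Finset V} (hL : L ∈ HH) : L.card = 13 := by
  obtain ⟨p, v, hv, rfl⟩ := mem_HH.1 hL
  exact hv.card p

lemma cardV : Fintype.card V = 28561 := by simp [ZMod.card]

lemma mem_pl {o o' r u z : V} : z ∈ pl (ln o r) (ln o' u) ↔ ∃ s t : Z, z = o + s • r + t • u := by
  simp only [pl, mem_image, mem_product, mem_ln, Prod.exists]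
  constructor
  · rintro ⟨_, _, _, ⟨⟨s, rfl⟩, ⟨t, rfl⟩, t', rfl⟩, rfl⟩
    exact ⟨s, t - t', by module⟩
  · rintro ⟨s, t, rfl⟩
    exact ⟨_, _, _, ⟨⟨s, rfl⟩, ⟨t, rfl⟩, 0, rfl⟩, by module⟩

lemma frame {R C : Finset V} (hR : R ∈ HH) (h : Pet HH R C) :
    ∃ o r u, Dir r ∧ Dir u ∧ R = ln o r ∧ C = ln o u := by
  obtain ⟨o, ho⟩ := h.2.2
  obtain ⟨r, hr, e⟩ := through hR (mem_inter.1 ho).2
  obtain ⟨u, hu, e'⟩ := through h.1 (mem_inter.1 ho).1
  exact ⟨o, r, u, hr, hu, e, e'⟩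

lemma pl_sub {o o' o'' r u w b : V} (h1 : b ∈ pl (ln o r) (ln o' u))
    (h2 : b ∈ pl (ln o r) (ln o'' w)) (hb : b ∉ ln o r) :
    pl (ln o r) (ln o' u) ⊆ pl (ln o r) (ln o'' w) := fun z hz => by
  obtain ⟨s, t, rfl⟩ := mem_pl.1 h1
  obtain ⟨s', t', e⟩ := mem_pl.1 h2
  obtain ⟨σ, τ, rfl⟩ := mem_pl.1 hz
  obtain ⟨k, hk⟩ := f4 t fun e => hb (mem_ln.2 ⟨s, by simp [e]⟩)
  refine mem_pl.2 ⟨σ + τ * k * (s' - s), τ * k * t', funext fun i => ?_⟩
  have := congrFun e i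
  simp only [Pi.add_apply, Pi.smul_apply, smul_eq_mul] at this ⊢
  linear_combination τ * k * this - τ * u i * hk

lemma plane_dirs {o r u : V} (hr : Dir r) (hu : Dir u) (hne : ln o u ≠ ln o r) :
    ∃ D : Finset V, D.card ≤ 6 ∧ ∀ w, w ∈ D ↔
      Dir w ∧ (∃ s t : Z, w = s • r + t • u) ∧ w ≠ r ∧ w ≠ -r := by
  classical
  obtain ⟨i, hi⟩ := Function.ne_iff.1 hr.1
  obtain ⟨j, hj⟩ : ∃ j, r i * u j - r j * u i ≠ 0 := by
    by_contra hn
    push Not at hn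
    refine hne (ln_eq hr hu (c := r i * u i) (funext fun j => ?_) o)
    have := (f3 _ (hr.2 i) hi).1
    simp only [Pi.smul_apply, smul_eq_mul]
    linear_combination r i * hn j - u j * this
  obtain ⟨k, hk⟩ := f4 _ hj
  obtain ⟨E, hE⟩ : ∃ E, E = (insert 0 DD).filter fun w => ∃ s t : Z, w = s • r + t • u := ⟨_, rfl⟩
  have mE : ∀ w, w ∈ E ↔ (w = 0 ∨ Dir w) ∧ ∃ s t : Z, w = s • r + t • u := fun w => by
    rw [hE, mem_filter, mem_insert, mem_DD]
  have c9 : E.card ≤ (tri ×ˢ tri).card := card_le_card_of_injOn (fun w => (w i, w j))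
    (fun w hw => by
      rcases ((mE w).1 hw).1 with rfl | d
      · exact mem_coe.2 (mem_product.2 ⟨by simp [tri], by simp [tri]⟩)
      · exact mem_coe.2 (mem_product.2 ⟨d.2 i, d.2 j⟩))
    fun w hw w' hw' e => by
      obtain ⟨-, s, t, rfl⟩ := (mE w).1 hw
      obtain ⟨-, s', t', rfl⟩ := (mE w').1 hw'
      obtain ⟨e1, e2⟩ := Prod.mk.inj e
      simp only [Pi.add_apply, Pi.smul_apply, smul_eq_mul] at e1 e2
      obtain rfl : s = s' := by linear_combination k * u j * e1 - k * u i * e2 - (s - s') * hk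
      obtain rfl : t = t' := by linear_combination k * r i * e2 - k * r j * e1 - (t - t') * hk
      rfl
  rw [card_product, show tri.card = 3 by decide] at c9
  have s3 : {0, r, -r} ⊆ E := insert_subset ((mE _).2 ⟨Or.inl rfl, 0, 0, by simp⟩)
    (insert_subset ((mE _).2 ⟨Or.inr hr, 1, 0, by simp⟩)
      (singleton_subset_iff.2 ((mE _).2 ⟨Or.inr hr.neg, -1, 0, by simp⟩)))
  have c3 : ({0, r, -r} : Finset V).card = 3 :=
    card_eq_three.2 ⟨_, _, _, hr.1.symm, hr.neg.1.symm, hr.ne_neg, rfl⟩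
  refine ⟨E \ {0, r, -r}, by rw [card_sdiff_of_subset s3]; omega, fun w => ?_⟩
  simp only [mem_sdiff, mE, mem_insert, mem_singleton, not_or]
  exact ⟨fun ⟨⟨a, b⟩, c, d⟩ => ⟨a.resolve_left c, b, d⟩,
    fun ⟨a, b, d⟩ => ⟨⟨Or.inr a, b⟩, a.1, d⟩⟩

lemma geo : Geo HH pl := by
  refine ⟨fun L => c13, lin, degree, ?_, fun R hR C hC => ?_, fun R hR C D hC hD b b1 b2 b3 => ?_,
    fun R hR C hC g hg a a1 b b1 hne a2 b2 => ?_, fun R hR C hC b hb => ?_⟩
  · have := sum_card_le (B := HH) (n := 40) degree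
    rw [sum_congr rfl fun L hL => c13 hL, cardV, sum_const, smul_eq_mul] at this
    omega
  · obtain ⟨o, r, u, -, -, rfl, rfl⟩ := frame hR hC
    refine ⟨fun z hz => ?_, fun z hz => ?_, Finset.ext fun z => ?_⟩
    · obtain ⟨t, rfl⟩ := mem_ln.1 hz
      exact mem_pl.2 ⟨0, t, by simp⟩
    · obtain ⟨t, rfl⟩ := mem_ln.1 hz
      exact mem_pl.2 ⟨t, 0, by simp⟩
    · rw [mem_pl, mem_pl]
      constructor <;> rintro ⟨s, t, rfl⟩ <;> exact ⟨t, s, by abel⟩
  · obtain ⟨o, r, -, rfl⟩ := mem_HH.1 hR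
    obtain ⟨o', u, -, rfl⟩ := mem_HH.1 hC.1
    obtain ⟨o'', w, -, rfl⟩ := mem_HH.1 hD.1
    exact Subset.antisymm (pl_sub b1 b2 b3) (pl_sub b2 b1 b3)
  · obtain ⟨o, r, -, rfl⟩ := mem_HH.1 hR
    obtain ⟨o', u, -, rfl⟩ := mem_HH.1 hC.1
    obtain ⟨w, -, rfl⟩ := through hg a1
    obtain ⟨τ, rfl⟩ := mem_ln.1 b1
    obtain ⟨s, t, e⟩ := mem_pl.1 a2
    obtain ⟨s', t', e'⟩ := mem_pl.1 b2
    obtain ⟨k, hk⟩ := f4 τ fun e => hne (by simp [e])
    intro z hz
    obtain ⟨σ, rfl⟩ := mem_ln.1 hz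
    refine mem_pl.2 ⟨s + σ * k * (s' - s), t + σ * k * (t' - t), funext fun i => ?_⟩
    have p := congrFun e i
    have q := congrFun e' i
    simp only [Pi.add_apply, Pi.smul_apply, smul_eq_mul] at p q ⊢
    linear_combination (1 - σ * k) * p + σ * k * q - σ * w i * hk
  · obtain ⟨o, r, u, hr, hu, rfl, rfl⟩ := frame hR hC
    obtain ⟨D, cD, mD⟩ := plane_dirs hr hu hC.2.1
    have h := half_count b (D := D) (fun v hv => ((mD v).1 hv).1) fun v hv => by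
      obtain ⟨a, ⟨s, t, e⟩, c, d⟩ := (mD v).1 hv
      exact (mD _).2 ⟨a.neg, ⟨-s, -t, by rw [e]; module⟩, fun e => d (neg_eq_iff_eq_neg.1 e),
        fun e => c (neg_inj.1 e)⟩
    refine le_trans (card_le_card (t := D.image (ln b)) fun L hL => ?_) (by omega)
    obtain ⟨l1, l2, l3, l4, p, hp⟩ := mem_filter.1 hL
    obtain ⟨w, hw, rfl⟩ := through l1 l2
    obtain ⟨s, t, e⟩ := mem_pl.1 hb
    obtain ⟨s', t', e'⟩ := mem_pl.1 (l3 (mem_ln.2 ⟨1, rfl⟩))
    have n : ln b w ≠ ln b r := fun q => l4 (by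
      rw [q] at hp ⊢
      rw [ln_shift (mem_inter.1 hp).1, ln_shift (mem_inter.1 hp).2])
    refine mem_image_of_mem _ ((mD w).2 ⟨hw, ⟨s' - s, t' - t, funext fun i => ?_⟩,
      fun q => n (by rw [q]), fun q => n (ln_eq hr hw (q.trans (neg_one_smul Z r).symm) b)⟩)
    have p := congrFun e i
    have q := congrFun e' i
    simp only [Pi.add_apply, Pi.smul_apply, smul_eq_mul] at p q ⊢
    linear_combination q - p

theorem draw13 : Draw (IsLine 13) (13 ^ 4 / 2) ∅ ∅ := by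
  rw [show IsLine 13 = (· ∈ HH) from funext fun L => propext (HH_spec L).symm]
  obtain ⟨x₀, h0⟩ := geo.first cardV
  obtain ⟨y, hy, d⟩ := first_move lin (pot lin fun L => c13)
    (fun L hL => by rw [c13 hL]; norm_num) h0 (k := 14279) (by rw [cardV])
  intro x _ _
  have := Draw.map (Equiv.addRight (x - x₀)) (fun L hL => by
    obtain ⟨p, v, hv, rfl⟩ := mem_HH.1 hL
    refine mem_HH.2 ⟨p - (x - x₀), v, hv, ?_⟩
    rw [ln, ln, image_image]
    refine image_congr fun t _ => ?_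
    show p + t • v + -(x - x₀) = _
    abel) _ _ _ d
  refine ⟨y + (x - x₀), fun e => hy ?_, notMem_empty _, notMem_empty _, by simpa using this⟩
  have e' : y + (x - x₀) = x₀ + (x - x₀) := by rw [e]; abel
  exact add_right_cancel e'

end Pool.Agent.Lib.MP_9dacbe_co.T13
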