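import Pool.Agent.Lib.MP_9dacbe_co.T13Cover

/-! Overlap counts through planes and the recursion for the starting value of a star. -/

namespace Pool.Agent.Lib.MP_9dacbe_co.T13

open Finset

def Bq (γ c : ℕ) : ℕ → ℕ → ℕ
  | 0, _ => 1
  | r + 1, z => ((c + r + 1) * (39 + 2 * z) + γ * (39 + 3 * z)) * Bq γ c r (z + 1) +
      (c + r + 1 + γ) * 3 * (z + 1) * (Bq γ c r (2 * z + 1) - Bq γ c r (z + 1))

def Chord (γ c r z : ℕ) : Prop :=
  Bq γ c r (z + 1) ≤ Bq γ c r (2 * z + 1) ∧ ∀ w ≤ z, z * Bq γ c r (z + 1 + w) +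
    w * Bq γ c r (z + 1) ≤ z * Bq γ c r (z + 1) + w * Bq γ c r (2 * z + 1)

instance (γ c r z : ℕ) : Decidable (Chord γ c r z) := by unfold Chord; infer_instance

lemma chord : ∀ γ < 2, ∀ c < 12, ∀ r < 7, ∀ z < 64, (z + 1) * 2 ^ (r + 1) ≤ 128 →
    Chord γ c r z := by
  decide +kernel

variable {α : Type} [DecidableEq α]

def Pet (H : Finset (Finset α)) (R C : Finset α) : Prop := C ∈ H ∧ C ≠ R ∧ (C ∩ R).Nonempty

def thr (H : Finset (Finset α)) (R : Finset α) (a : α) : Finset (Finset α) :=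
  H.filter fun C => a ∈ C ∧ C ≠ R

structure Geo (H : Finset (Finset α)) (pl : Finset α → Finset α → Finset α) : Prop where
  c13 : ∀ L ∈ H, L.card = 13
  lin : Lin H
  deg : ∀ a, (H.filter (a ∈ ·)).card ≤ 40
  num : H.card ≤ 87880
  p1 : ∀ R ∈ H, ∀ C, Pet H R C → C ⊆ pl R C ∧ R ⊆ pl R C ∧ pl R C = pl C R
  p2 : ∀ R ∈ H, ∀ C D, Pet H R C → Pet H R D → ∀ b ∈ pl R C, b ∈ pl R D → b ∉ R → pl R C = pl R D
  p3 : ∀ R ∈ H, ∀ C, Pet H R C → ∀ g ∈ H, ∀ a ∈ g, ∀ b ∈ g, a ≠ b → a ∈ pl R C → b ∈ pl R C →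
    g ⊆ pl R C
  p4 : ∀ R ∈ H, ∀ C, Pet H R C → ∀ b ∈ pl R C,
    (H.filter fun L => b ∈ L ∧ L ⊆ pl R C ∧ L ≠ R ∧ (L ∩ R).Nonempty).card ≤ 3

variable {H : Finset (Finset α)} {pl : Finset α → Finset α → Finset α}

lemma mem_thr {R C : Finset α} {a : α} : C ∈ thr H R a ↔ C ∈ H ∧ a ∈ C ∧ C ≠ R := mem_filter

lemma pet_thr {R C : Finset α} {a : α} (ha : a ∈ R) (h : C ∈ thr H R a) : Pet H R C :=
  ⟨(mem_thr.1 h).1, (mem_thr.1 h).2.2, a, mem_inter.2 ⟨(mem_thr.1 h).2.1, ha⟩⟩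

lemma pet_cand {R C F : Finset α} {X : Finset (Finset α)} (h : C ∈ cand H R X F) : Pet H R C :=
  ⟨(mem_cand.1 h).1, (mem_cand.1 h).2.1, (mem_cand.1 h).2.2.2.mono sdiff_subset⟩

lemma sum_cand {R F : Finset α} {X : Finset (Finset α)} {f : Finset α → ℝ} (h : ∀ C, 0 ≤ f C) :
    ∑ C ∈ cand H R X F, f C ≤ ∑ a ∈ R \ F, ∑ C ∈ thr H R a, f C := by
  simp only [thr, sum_filter]
  rw [sum_comm, cand, sum_filter]
  refine sum_le_sum fun C _ => ?_
  have n : ∀ a, 0 ≤ if a ∈ C ∧ C ≠ R then f C else 0 := fun a => by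
    split_ifs; exacts [h C, le_rfl]
  split_ifs with e
  · obtain ⟨a, -, p, hp⟩ := e
    obtain ⟨b, c⟩ := mem_sdiff.1 hp
    refine le_trans ?_ (single_le_sum (fun a _ => n a) (mem_sdiff.2 ⟨(mem_inter.1 b).2, c⟩))
    rw [if_pos ⟨(mem_inter.1 b).1, a⟩]
  · exact sum_nonneg fun a _ => n a

lemma count_cand {R F : Finset α} {X : Finset (Finset α)} (p : Finset α → Prop) [DecidablePred p]
    {k m : ℕ} (hm : (R \ F).card ≤ m) (h : ∀ a ∈ R \ F, ((thr H R a).filter p).card ≤ k) :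
    ∑ C ∈ cand H R X F, (if p C then 1 else 0 : ℝ) ≤ m * k := by
  refine (sum_cand fun C => by split_ifs <;> norm_num).trans
    ((sum_le_card_nsmul _ _ (k : ℝ) fun a ha => ?_).trans ?_)
  · rw [sum_boole]; exact_mod_cast h a ha
  · rw [nsmul_eq_mul]; gcongr

lemma bump {β : Type} {S : Finset β} {f : β → ℕ} {p : β → Prop} [DecidablePred p] {m k : ℕ}
    (h : ∀ C ∈ S, p C → 2 ^ f C ≤ m) (hk : (S.filter p).card ≤ k) :
    ∑ C ∈ S, 2 ^ (f C + if p C then 1 else 0) ≤ ∑ C ∈ S, 2 ^ f C + k * m := by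
  refine le_trans (sum_le_sum (g := fun C => 2 ^ f C + if p C then m else 0) fun C hC => ?_) ?_
  · split_ifs with e
    · have := h C hC e
      rw [pow_succ]; omega
    · simp
  · rw [sum_add_distrib, ← sum_filter, sum_const, smul_eq_mul]
    gcongr

namespace Geo

variable (G : Geo H pl) {R : Finset α} (hR : R ∈ H)

include G in
lemma one {L C : Finset α} (hL : L ∈ H) (hC : C ∈ H) (h : L ≠ C) : (L ∩ C).card ≤ 1 :=
  card_le_one.2 fun x hx y hy => G.lin L hL C hC h x (mem_inter.1 hx).1 (mem_inter.1 hx).2 y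
    (mem_inter.1 hy).1 (mem_inter.1 hy).2

include G hR

lemma card_thr {a : α} (ha : a ∈ R) : (thr H R a).card ≤ 39 := by
  have := card_lt_card (s := thr H R a) (t := H.filter (a ∈ ·))
    ⟨fun C hC => mem_filter.2 ⟨(mem_thr.1 hC).1, (mem_thr.1 hC).2.1⟩,
      fun e => (mem_thr.1 (e (mem_filter.2 ⟨hR, ha⟩))).2.2 rfl⟩
  have := G.deg a
  omega

lemma u1 {a : α} (ha : a ∈ R) {D : Finset α} (hD : Pet H R D) :
    ((thr H R a).filter fun C => pl R C = pl R D).card ≤ 3 :=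
  le_trans (card_le_card fun C hC => by
    obtain ⟨c, e⟩ := mem_filter.1 hC
    have p := pet_thr ha c
    exact mem_filter.2 ⟨p.1, (mem_thr.1 c).2.1, e ▸ (G.p1 R hR C p).1, p.2⟩)
    (G.p4 R hR D hD a ((G.p1 R hR D hD).2.1 ha))

lemma u2 {C D : Finset α} (hC : Pet H R C) (hD : Pet H R D) (h : ((C ∩ D) \ R).Nonempty) :
    pl R C = pl R D := by
  obtain ⟨b, hb⟩ := h
  obtain ⟨b1, b2⟩ := mem_sdiff.1 hb
  exact G.p2 R hR C D hC hD b ((G.p1 R hR C hC).1 (mem_inter.1 b1).1)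
    ((G.p1 R hR D hD).1 (mem_inter.1 b1).2) b2

lemma u3 {b : α} (hb : b ∉ R) : (H.filter fun L => b ∈ L ∧ (L ∩ R).Nonempty).card ≤ 3 := by
  have p : ∀ L ∈ H.filter fun L => b ∈ L ∧ (L ∩ R).Nonempty, b ∈ L ∧ Pet H R L := fun L hL => by
    obtain ⟨x, y, z⟩ := mem_filter.1 hL
    exact ⟨y, x, fun e => hb (e ▸ y), z⟩
  rcases (H.filter fun L => b ∈ L ∧ (L ∩ R).Nonempty).eq_empty_or_nonempty with e | ⟨D, hD⟩
  · simp [e]
  · obtain ⟨d1, d2⟩ := p D hD
    refine le_trans (card_le_card fun C hC => ?_) (G.p4 R hR D d2 b ((G.p1 R hR D d2).1 d1))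
    obtain ⟨c1, c2⟩ := p C hC
    exact mem_filter.2 ⟨c2.1, c1, G.u2 hR c2 d2 ⟨b, mem_sdiff.2 ⟨mem_inter.2 ⟨c1, d1⟩, hb⟩⟩ ▸
      (G.p1 R hR C c2).1, c2.2⟩

lemma u4 {a : α} (ha : a ∈ R) {D : Finset α} (hD : Pet H R D) (h : a ∉ D) :
    ((thr H R a).filter fun C => ((C ∩ D) \ R).Nonempty).card ≤ 2 := by
  have := card_lt_card (s := (thr H R a).filter fun C => ((C ∩ D) \ R).Nonempty)
    (t := H.filter fun L => a ∈ L ∧ (L ∩ D).Nonempty)
    ⟨fun C hC => by
      obtain ⟨c, e⟩ := mem_filter.1 hC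
      exact mem_filter.2 ⟨(mem_thr.1 c).1, (mem_thr.1 c).2.1, e.mono sdiff_subset⟩,
    fun e => (mem_thr.1 (mem_filter.1 (e (mem_filter.2
      ⟨hR, ha, inter_comm D R ▸ hD.2.2⟩))).1).2.2 rfl⟩
  have := G.u3 hD.1 h
  omega

lemma Qle (X S : Finset (Finset α)) {γ c : ℕ} (hγ : γ < 2) (hc : c < 12)
    (hS : ∀ C ∈ S, Pet H R C) (cS : S.card ≤ 39 * γ)
    (hS3 : ∀ D, Pet H R D → (S.filter fun C => pl R C = pl R D).card ≤ 3 * γ) :
    ∀ (r z : ℕ) (F U : Finset α) (y n : Finset α → ℕ), (z + 1) * 2 ^ r ≤ 128 →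
    (R \ F).card ≤ c + r → R ⊆ U →
    (∀ C ∈ cand H R X F, (C ∩ U).card ≤ 1 + y C + if C ∈ S then 1 else 0) →
    (∀ C, Pet H R C → y C ≤ n C) → (∀ C D, pl R C = pl R D → n C = n D) →
    (∀ a ∈ R, ∑ C ∈ thr H R a, 2 ^ n C ≤ (thr H R a).card + 3 * z) →
    (∀ a ∈ R \ F, ∑ C ∈ thr H R a, 2 ^ y C ≤ 39 + 2 * z) → (∀ C, 2 ^ n C ≤ z + 1) →
    ∑ C ∈ S, 2 ^ n C ≤ S.card + 3 * γ * z →
    Q H R X ∅ ∅ r F U ≤ (1 / 2) ^ (U.card + 12 * r) * (Bq γ c r z : ℝ)
  | 0, _, _, _, _, _, _, _, _, _, _, _, _, _, _, _ => by simp [Q, phi, Bq]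
  | r + 1, z, F, U, y, n, hz, hF, hU, h0, hyn, hcl, i1, i2, i3, i4 => by
    have r7 : r < 7 := by
      by_contra e
      have := Nat.pow_le_pow_right two_pos (show 8 ≤ r + 1 by omega)
      nlinarith
    have z64 : z < 64 := by
      have := Nat.pow_le_pow_right two_pos (show 1 ≤ r + 1 by omega)
      nlinarith
    obtain ⟨c1, c2⟩ := chord γ hγ c hc r r7 z z64 hz
    obtain ⟨b1, e1⟩ : ∃ b : ℝ, b = Bq γ c r (z + 1) := ⟨_, rfl⟩
    obtain ⟨b2, e2⟩ : ∃ b : ℝ, b = Bq γ c r (2 * z + 1) := ⟨_, rfl⟩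
    have b0 : 0 ≤ b1 := e1 ▸ Nat.cast_nonneg _
    have b12 : b1 ≤ b2 := by rw [e1, e2]; exact_mod_cast c1
    obtain ⟨κ, eκ⟩ : ∃ κ : ℝ, κ = (b2 - b1) / z := ⟨_, rfl⟩
    have κ0 : 0 ≤ κ := eκ ▸ div_nonneg (sub_nonneg.2 b12) (Nat.cast_nonneg _)
    have κ1 : z * κ ≤ b2 - b1 := by
      rcases Nat.eq_zero_or_pos z with e | e
      · simpa [e] using b12
      · rw [eκ, mul_div_cancel₀ _ (by positivity)]
    have ch : ∀ C, (Bq γ c r (z + 2 ^ n C) : ℝ) ≤ b1 + (2 ^ n C - 1) * κ := fun C => by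
      obtain ⟨w, ew⟩ : ∃ w, 2 ^ n C = 1 + w := ⟨_, (Nat.add_sub_cancel' Nat.one_le_two_pow).symm⟩
      have ew' : (2 : ℝ) ^ n C = 1 + w := by exact_mod_cast ew
      have wz : w ≤ z := by have := i3 C; omega
      rw [ew, ew', ← add_assoc]
      rcases Nat.eq_zero_or_pos z with e | e
      · obtain rfl : w = 0 := by omega
        simp [e1]
      · have t := (Nat.cast_le (α := ℝ)).2 (c2 w wz)
        push_cast at t
        rw [← e1, ← e2] at t
        have z0 : (0 : ℝ) < z := by positivity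
        refine le_of_mul_le_mul_left ?_ z0
        rw [eκ]; field_simp; linarith
    have n1 : ∀ C, (1 : ℝ) ≤ 2 ^ n C := fun C => one_le_pow₀ one_le_two
    have n2 : ∀ C, (2 : ℝ) ^ n C ≤ z + 1 := fun C => by exact_mod_cast i3 C
    have key : ∀ D ∈ cand H R X F, Q H R X ∅ ∅ r (F ∪ D ∩ R) (U ∪ D) ≤
        (1 / 2) ^ (U.card + 12 * (r + 1)) * ((2 ^ y D * b1 + (z + 1) * κ * (2 ^ n D - 1)) +
          if D ∈ S then 2 ^ n D * b1 + (z + 1) * κ * (2 ^ n D - 1) else 0) := fun D hD => by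
      have pD := pet_cand hD
      obtain ⟨d, hd⟩ := (mem_cand.1 hD).2.2.2
      obtain ⟨d1, d2⟩ := mem_sdiff.1 hd
      have ih := Qle X S hγ hc hS cS hS3 r (z + 2 ^ n D) (F ∪ D ∩ R) (U ∪ D)
        (fun C => y C + if ((C ∩ D) \ R).Nonempty then 1 else 0)
        (fun C => n C + if pl R C = pl R D then 1 else 0)
        (by have := i3 D; rw [pow_succ] at hz; nlinarith [Nat.zero_le (2 ^ r)])
        (by
          have := card_lt_card (s := R \ (F ∪ D ∩ R)) (t := R \ F)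
            ⟨sdiff_subset_sdiff Subset.rfl subset_union_left, fun e => (mem_sdiff.1
              (e (mem_sdiff.2 ⟨(mem_inter.1 d1).2, d2⟩))).2 (mem_union_right _ d1)⟩
          omega)
        (hU.trans subset_union_left) (fun C hC => by
          obtain ⟨x1, x2, x3, p, hp⟩ := mem_cand.1 hC
          obtain ⟨p1, p2⟩ := mem_sdiff.1 hp
          have a := h0 C (mem_cand.2 ⟨x1, x2, x3, p, mem_sdiff.2
            ⟨p1, fun e => p2 (mem_union_left _ e)⟩⟩)
          have b : (C ∩ (U ∪ D)).card ≤ (C ∩ U).card + ((C ∩ D) \ R).card :=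
            le_trans (card_le_card fun w hw => by
              have := @hU w
              simp only [mem_inter, mem_union, mem_sdiff] at hw ⊢
              tauto) (card_union_le _ _)
          have c : ((C ∩ D) \ R).card ≤ if ((C ∩ D) \ R).Nonempty then 1 else 0 := by
            split_ifs with e
            · exact (card_le_card sdiff_subset).trans (G.one x1 pD.1 fun e =>
                p2 (mem_union_right _ (e ▸ p1)))
            · rw [not_nonempty_iff_eq_empty.1 e]; rfl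
          omega)
        (fun C hC => by
          have := hyn C hC
          by_cases e : ((C ∩ D) \ R).Nonempty
          · simp only [if_pos e, if_pos (G.u2 hR hC pD e)]; omega
          · simp only [if_neg e]; omega)
        (fun C E e => by simp only [hcl C E e, e])
        (fun a ha => by
          have := bump (S := thr H R a) (f := n) (m := 2 ^ n D)
            (fun C _ e => by rw [hcl C D e]) (G.u1 hR ha pD)
          have := i1 a ha
          omega)
        (fun a ha => by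
          obtain ⟨a1, a2⟩ := mem_sdiff.1 ha
          have := bump (S := thr H R a) (f := y) (m := 2 ^ n D)
            (fun C hC e => Nat.pow_le_pow_right two_pos ((hyn C (pet_thr a1 hC)).trans
              (hcl C D (G.u2 hR (pet_thr a1 hC) pD e)).le))
            (G.u4 hR a1 pD fun e => a2 (mem_union_right _ (mem_inter.2 ⟨e, a1⟩)))
          have := i2 a (mem_sdiff.2 ⟨a1, fun e => a2 (mem_union_left _ e)⟩)
          omega)
        (fun C => by
          have := i3 C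
          split_ifs with e
          · rw [pow_succ, hcl C D e] at *; omega
          · rw [add_zero]; exact this.trans (Nat.add_le_add_right (Nat.le_add_right _ _) 1))
        (by
          have := bump (S := S) (f := n) (m := 2 ^ n D) (fun C _ e => by rw [hcl C D e]) (hS3 D pD)
          rw [mul_add]; omega)
      refine ih.trans ?_
      have u := card_union_add_card_inter U D
      have v := h0 D hD
      rw [inter_comm, G.c13 D pD.1] at u
      have s : (1 / 2 : ℝ) ^ ((U ∪ D).card + 12 * r) ≤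
          (1 / 2) ^ (U.card + 12 * (r + 1)) * 2 ^ (y D + if D ∈ S then 1 else 0) := by
        rw [one_div, inv_pow, inv_pow, inv_mul_eq_div, inv_eq_one_div,
          div_le_div_iff₀ (by positivity) (by positivity), one_mul, ← pow_add]
        exact pow_le_pow_right₀ one_le_two (by omega)
      refine (mul_le_mul s (ch D) (Nat.cast_nonneg _) (by positivity)).trans ?_
      rw [mul_assoc]
      refine mul_le_mul_of_nonneg_left ?_ (by positivity)
      have y1 : (2 : ℝ) ^ y D ≤ 2 ^ n D := pow_le_pow_right₀ one_le_two (hyn D pD)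
      have y2 := mul_nonneg (sub_nonneg.2 (n1 D)) κ0
      have y3 := mul_le_mul_of_nonneg_right (y1.trans (n2 D)) y2
      have y4 := mul_le_mul_of_nonneg_right y1 b0
      split_ifs
      · rw [pow_succ]; nlinarith
      · rw [add_zero]; nlinarith
    have g0 : ∀ (f : Finset α → ℕ) C, 0 ≤ 2 ^ f C * b1 + (z + 1) * κ * (2 ^ n C - 1) := fun f C =>
      add_nonneg (by positivity) (mul_nonneg (by positivity) (sub_nonneg.2 (n1 C)))
    have z0 : (0 : ℝ) ≤ z := Nat.cast_nonneg _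
    rw [Q]
    refine (sum_le_sum key).trans ?_
    rw [← mul_sum, sum_add_distrib]
    refine mul_le_mul_of_nonneg_left ?_ (by positivity)
    have s1 := (sum_cand (H := H) (R := R) (F := F) (X := X) (g0 y)).trans (sum_le_card_nsmul _ _
      ((39 + 2 * z) * b1 + 3 * (z + 1) * (b2 - b1)) fun a ha => by
        have p := (Nat.cast_le (α := ℝ)).2 (i1 a (mem_sdiff.1 ha).1)
        have q := (Nat.cast_le (α := ℝ)).2 (i2 a ha)
        push_cast at p q
        rw [sum_add_distrib, ← sum_mul, ← mul_sum, sum_sub_distrib, sum_const, nsmul_eq_mul]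
        have := mul_le_mul_of_nonneg_left p (show 0 ≤ (z + 1) * κ by positivity)
        nlinarith)
    have s2 : ∑ D ∈ cand H R X F, (if D ∈ S then 2 ^ n D * b1 + (z + 1) * κ * (2 ^ n D - 1)
        else 0) ≤ γ * ((39 + 3 * z) * b1 + 3 * (z + 1) * (b2 - b1)) := by
      rw [sum_ite_mem]
      refine (sum_le_sum_of_subset_of_nonneg inter_subset_right fun C _ _ => g0 n C).trans ?_
      have p := (Nat.cast_le (α := ℝ)).2 i4
      have q := (Nat.cast_le (α := ℝ)).2 cS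
      push_cast at p q
      rw [sum_add_distrib, ← sum_mul, ← mul_sum, sum_sub_distrib, sum_const, nsmul_eq_mul]
      have t1 := mul_le_mul_of_nonneg_left p (show 0 ≤ (z + 1) * κ by positivity)
      have t2 := mul_le_mul_of_nonneg_left κ1 (show (0 : ℝ) ≤ γ * (z + 1) by positivity)
      nlinarith
    have f : ((R \ F).card : ℝ) ≤ c + r + 1 := by exact_mod_cast hF
    rw [nsmul_eq_mul] at s1
    have s3 := mul_le_mul_of_nonneg_right f (show 0 ≤ (39 + 2 * z) * b1 + 3 * (z + 1) * (b2 - b1)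
      from add_nonneg (by positivity) (mul_nonneg (by positivity) (sub_nonneg.2 b12)))
    rw [Bq]
    push_cast [Nat.cast_sub c1]
    rw [← e1, ← e2]
    nlinarith

end Geo

end Pool.Agent.Lib.MP_9dacbe_co.T13
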