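import Pool.Agent.Lib.MP_9dacbe_co.T13Pot

/-! Lower bounds for the pieces of the potential at a set all of whose free points are pending. -/

namespace Pool.Agent.Lib.MP_9dacbe_co.T13

open Finset

variable {α : Type} [DecidableEq α]

lemma phi_low {U M B : Finset α} {k : ℕ} (h : Disjoint U B) (hk : (U \ M).card ≤ k) :
    (1 / 2) ^ k ≤ phi U M B := by
  rw [phi, if_pos h]
  exact pow_le_pow_of_le_one (by norm_num) (by norm_num) hk

lemma phi_union {U C M B : Finset α} {k : ℕ} (h : Disjoint C B) (hk : ((C \ M) \ U).card ≤ k) :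
    (1 / 2) ^ k * phi U M B ≤ phi (U ∪ C) M B := by
  by_cases hU : Disjoint U B
  · rw [phi, if_pos hU, ← pow_add]
    refine phi_low (disjoint_union_left.2 ⟨hU, h⟩) (le_trans (card_le_card fun x hx => ?_)
      ((card_union_le ((C \ M) \ U) (U \ M)).trans (Nat.add_le_add_right hk _)))
    simp only [mem_sdiff, mem_union] at hx ⊢
    tauto
  · rw [phi, if_neg hU, mul_zero]; exact phi_nonneg _ _ _

noncomputable def Ds {β : Type} [DecidableEq β] (u : β → ℝ) : ℕ → Finset β → ℝ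
  | 0, _ => 1
  | r + 1, A => ∑ c ∈ A, u c * Ds u r (A.erase c)

section Ds

variable {β : Type} [DecidableEq β] {u : β → ℝ}

lemma Ds_nn (h : ∀ c, 0 ≤ u c) : ∀ r A, 0 ≤ Ds u r A
  | 0, _ => zero_le_one
  | r + 1, _ => sum_nonneg fun c _ => mul_nonneg (h c) (Ds_nn h r _)

lemma Ds_ge {m : ℝ} (hm : 0 ≤ m) : ∀ r A, (∀ c ∈ A, m ≤ u c) →
    (A.card.descFactorial r : ℝ) * m ^ r ≤ Ds u r A
  | 0, _, _ => by simp [Ds]
  | r + 1, A, h => by
    refine le_trans ?_ (card_nsmul_le_sum _ _ (m * (((A.card - 1).descFactorial r : ℝ) * m ^ r))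
      fun c hc => ?_)
    · rw [nsmul_eq_mul]
      rcases A.card with _ | n
      · simp
      · rw [Nat.succ_descFactorial_succ]; push_cast
        exact le_of_eq (by ring)
    · have := Ds_ge hm r (A.erase c) fun d hd => h d (mem_of_mem_erase hd)
      rw [card_erase_of_mem hc] at this
      exact mul_le_mul (h c hc) this (by positivity) (hm.trans (h c hc))

lemma Ds1 (A : Finset β) : Ds u 1 A = ∑ c ∈ A, u c := by simp [Ds]

lemma Ds2 (A : Finset β) : Ds u 2 A = (∑ c ∈ A, u c) ^ 2 - ∑ c ∈ A, u c ^ 2 := by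
  rw [Ds, sq, sum_mul, ← sum_sub_distrib]
  exact sum_congr rfl fun c hc => by rw [Ds1, sum_erase_eq_sub hc]; ring

lemma Ds3 (A : Finset β) : Ds u 3 A = (∑ c ∈ A, u c) ^ 3 -
    3 * (∑ c ∈ A, u c) * ∑ c ∈ A, u c ^ 2 + 2 * ∑ c ∈ A, u c ^ 3 := by
  rw [Ds, sum_congr rfl fun c hc => by rw [Ds2, sum_erase_eq_sub hc, sum_erase_eq_sub hc]]
  generalize hp : ∑ c ∈ A, u c = p
  generalize hq : ∑ c ∈ A, u c ^ 2 = q
  have : ∀ c, u c * ((p - u c) ^ 2 - (q - u c ^ 2)) =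
      (p ^ 2 - q) * u c - 2 * p * u c ^ 2 + 2 * u c ^ 3 := fun c => by ring
  simp only [this, sum_add_distrib, sum_sub_distrib, ← mul_sum, hp, hq]
  ring

end Ds

variable {H O : Finset (Finset α)} {π : Finset α → Finset α} {M B : Finset α}

lemma Q_ge {R : Finset α} {X : Finset (Finset α)} {u : Finset α → ℝ} (h0 : ∀ c, 0 ≤ u c) :
    ∀ r F U (A : Finset (Finset α)), R ⊆ U →
    (∀ C ∈ A, C ∈ H ∧ C ≠ R ∧ C ∉ X ∧ ∃ p ∈ C, p ∈ R ∧ p ∉ F ∧ ∀ D ∈ A, D ≠ C → p ∉ D) →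
    (∀ C ∈ A, ∀ U, R ⊆ U → u C * phi U M B ≤ phi (U ∪ C) M B) →
    phi U M B * Ds u r A ≤ Q H R X M B r F U
  | 0, _, _, _, _, _, _ => by simp [Ds, Q]
  | r + 1, F, U, A, hU, hA, hu => by
    rw [Ds, Q, mul_sum]
    refine le_trans (sum_le_sum fun C hC => ?_) (sum_le_sum_of_subset_of_nonneg (fun C hC => ?_)
      fun _ _ _ => Q_nn _ _ _ _ _ _ _)
    · refine le_trans ?_ (Q_ge h0 r _ _ (A.erase C) (hU.trans subset_union_left)
        (fun D hD => ?_) fun D hD => hu D (mem_of_mem_erase hD))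
      · rw [← mul_assoc, mul_comm _ (u C)]
        exact mul_le_mul_of_nonneg_right (hu C hC U hU) (Ds_nn h0 _ _)
      · obtain ⟨a, b, c, p, p1, p2, p3, p4⟩ := hA D (mem_of_mem_erase hD)
        refine ⟨a, b, c, p, p1, p2, fun e => ?_, fun E hE => p4 E (mem_of_mem_erase hE)⟩
        exact (mem_union.1 e).elim p3 fun e => p4 C hC (mem_erase.1 hD).1.symm (mem_inter.1 e).1
    · obtain ⟨a, b, c, p, p1, p2, p3, -⟩ := hA C hC
      exact mem_cand.2 ⟨a, b, c, p, mem_sdiff.2 ⟨mem_inter.2 ⟨p1, p2⟩, p3⟩⟩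

lemma szc (k : ℕ) (x : Finset α) : 1 + (ch O π x).card ≤ sz O π (k + 1) x :=
  Nat.add_le_add_left (by
    simpa using card_nsmul_le_sum (ch O π x) (sz O π k) 1 fun _ _ => sz_pos _ _) 1

lemma shape {x : Finset α} (h : sz O π 3 x ≤ 3) : ch O π x = ∅ ∨
    (∃ g, ch O π x = {g} ∧ ch O π g = ∅) ∨
    (∃ g h, ch O π x = {g} ∧ ch O π g = {h} ∧ ch O π h = ∅) ∨
    ∃ g h, g ≠ h ∧ ch O π x = {g, h} ∧ ch O π g = ∅ ∧ ch O π h = ∅ := by
  have a : _ ≤ sz O π 3 x := szc 2 x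
  obtain e | e | e : (ch O π x).card = 0 ∨ (ch O π x).card = 1 ∨ (ch O π x).card = 2 := by omega
  · exact Or.inl (card_eq_zero.1 e)
  · obtain ⟨g, hg⟩ := card_eq_one.1 e
    have b : _ ≤ sz O π 3 x := sz_ch (k := 2) (hg ▸ mem_singleton_self g)
    have c : _ ≤ sz O π 2 g := szc 1 g
    obtain e | e : (ch O π g).card = 0 ∨ (ch O π g).card = 1 := by omega
    · exact Or.inr (Or.inl ⟨g, hg, card_eq_zero.1 e⟩)
    · obtain ⟨y, hy⟩ := card_eq_one.1 e
      have b : _ ≤ sz O π 2 g := sz_ch (k := 1) (hy ▸ mem_singleton_self y)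
      have c : _ ≤ sz O π 1 y := szc 0 y
      exact Or.inr (Or.inr (Or.inl ⟨g, y, hg, hy, card_eq_zero.1 (by omega)⟩))
  · obtain ⟨g, y, hne, hg⟩ := card_eq_two.1 e
    have b : _ ≤ sz O π 3 x := sz_ch2 (k := 2) (D := g) (E := y) (by simp [hg]) (by simp [hg]) hne
    have c : _ ≤ sz O π 2 g := szc 1 g
    have d : _ ≤ sz O π 2 y := szc 1 y
    exact Or.inr (Or.inr (Or.inr ⟨g, y, hne, hg, card_eq_zero.1 (by omega),
      card_eq_zero.1 (by omega)⟩))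

noncomputable def uu (O : Finset (Finset α)) (π : Finset α → Finset α) (D : Finset α) : ℝ :=
  (1 / 2) ^ (1 + (ch O π D).card)

lemma uu_pos (D : Finset α) : 0 < uu O π D := by unfold uu; positivity

section own

variable (hl : Lin H) (ho : Own H M B O π)

include ho in
lemma Own.anti (a b : Finset α) (h : b ∈ ch O π a) : a ∉ ch O π b := fun h' => by
  have := ho.small a (mem_ch.1 h').1
  have : _ ≤ sz O π 3 a := sz_ch (k := 2) h
  have : _ ≤ sz O π 2 b := sz_ch (k := 1) h'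
  have : _ ≤ sz O π 1 a := sz_ch (k := 0) h
  have := sz_pos (O := O) (π := π) 0 b
  omega

include ho in
lemma Own.uu_ge {D : Finset α} (h : D ∈ O) : 1 / 8 ≤ uu O π D := by
  have := ho.small D h
  have : _ ≤ sz O π 3 D := szc 2 D
  exact le_trans (by norm_num) (pow_le_pow_of_le_one (by norm_num) (by norm_num)
    (show 1 + (ch O π D).card ≤ 3 by omega))

include hl ho in
lemma Own.meet {Y D : Finset α} (hY : Y ∈ H) (h : D ∈ ch O π Y) :
    ∃ p ∈ π D, p ∈ D ∧ p ∉ M ∧ p ∈ Y ∧ ∀ x ∈ D, x ∈ Y → x = p := by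
  obtain ⟨a, b, p, hp⟩ := mem_ch.1 h
  obtain ⟨c, d⟩ := mem_inter.1 hp
  obtain ⟨e, f⟩ := mem_sdiff.1 (ho.sub D a c)
  exact ⟨p, c, e, f, d, fun x x1 x2 => hl D (ho.mem D a) Y hY b x x1 x2 p e d⟩

include hl ho in
lemma Own.free {Y : Finset α} (hY : Y ∈ H) (hp : ∀ x ∈ Y \ M, pend O π x) :
    ((Y \ M) \ if Y ∈ O then π Y else ∅).card ≤ (ch O π Y).card := by
  refine le_trans (card_le_card (t := (ch O π Y).biUnion fun D => D ∩ Y) fun x hx => ?_)
    ((card_biUnion_le_card_mul _ _ 1 fun D hD => ?_).trans (mul_one _).le)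
  · obtain ⟨a, b⟩ := mem_sdiff.1 hx
    obtain ⟨D, c, d⟩ := hp x a
    refine mem_biUnion.2 ⟨D, mem_ch.2 ⟨c, ?_, x, mem_inter.2 ⟨d, (mem_sdiff.1 a).1⟩⟩,
      mem_inter.2 ⟨(mem_sdiff.1 (ho.sub D c d)).1, (mem_sdiff.1 a).1⟩⟩
    rintro rfl
    exact b (by rwa [if_pos c])
  · obtain ⟨p, -, -, -, -, e⟩ := ho.meet hl hY hD
    exact card_le_one.2 fun x hx y hy => (e x (mem_inter.1 hx).1 (mem_inter.1 hx).2).trans
      (e y (mem_inter.1 hy).1 (mem_inter.1 hy).2).symm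

include hl ho in
lemma Own.cost {D U : Finset α} (hD : D ∈ O) :
    ((D \ M) \ U).card ≤ (π D \ U).card + (ch O π D).card := by
  have := ho.free hl (ho.mem D hD) (ho.cov D hD)
  rw [if_pos hD] at this
  refine le_trans (card_le_card fun x hx => ?_)
    ((card_union_le (π D \ U) ((D \ M) \ π D)).trans (Nat.add_le_add_left this _))
  simp only [mem_sdiff, mem_union] at hx ⊢
  tauto

include hl ho in
lemma Own.child {Y D U : Finset α} (h : D ∈ ch O π Y) (hU : Y ⊆ U) :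
    uu O π D * phi U M B ≤ phi (U ∪ D) M B := by
  obtain ⟨a, -, p, hp⟩ := mem_ch.1 h
  refine phi_union (ho.alive D a) ((ho.cost hl a).trans (Nat.add_le_add_right ?_ _))
  have := card_lt_card (s := π D \ U) (t := π D) ⟨sdiff_subset, fun e =>
    (mem_sdiff.1 (e (mem_inter.1 hp).1)).2 (hU (mem_inter.1 hp).2)⟩
  have := ho.two D a
  omega

include hl ho in
lemma Own.att {Y C : Finset α} (hY : Y ∈ H) (hC : C ∈ ch O π Y) : ∃ p ∈ C, p ∈ Y ∧ p ∈ π C ∧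
    ∀ D ∈ ch O π Y, D ≠ C → p ∉ D := by
  obtain ⟨p, p1, p2, -, p3, -⟩ := ho.meet hl hY hC
  refine ⟨p, p2, p3, p1, fun D hD hne e => ?_⟩
  obtain ⟨q, q1, -, -, -, q2⟩ := ho.meet hl hY hD
  exact disjoint_left.1 (ho.dis D (mem_ch.1 hD).1 C (mem_ch.1 hC).1 hne) q1 (q2 p e p3 ▸ p1)

include ho in
lemma Own.card_ch (Y : Finset α) : (ch O π Y).card ≤ Y.card := by
  refine le_trans ?_ (card_le_card (s := (ch O π Y).biUnion fun D => π D ∩ Y)
    (biUnion_subset.2 fun _ _ => inter_subset_right))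
  rw [card_biUnion fun C hC D hD hne => (ho.dis C (mem_ch.1 hC).1 D (mem_ch.1 hD).1 hne).mono
    inter_subset_left inter_subset_left]
  simpa using card_nsmul_le_sum (ch O π Y) (fun D => (π D ∩ Y).card) 1
    fun D hD => card_pos.2 (mem_ch.1 hD).2.2

include hl ho in
/-- the junction of a child with its own child is not on the parent -/
lemma Own.off {Y x g : Finset α} (hY : Y ∈ H) (hx : x ∈ ch O π Y) (hg : g ∈ ch O π x) :
    ∀ p ∈ Y, p ∈ x → p ∉ g := fun p p1 p2 p3 => by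
  obtain ⟨q, q1, -, -, -, q2⟩ := ho.meet hl hY hx
  obtain ⟨r, r1, -, -, -, r2⟩ := ho.meet hl (ho.mem x (mem_ch.1 hx).1) hg
  exact disjoint_left.1 (ho.dis g (mem_ch.1 hg).1 x (mem_ch.1 hx).1 (mem_ch.1 hg).2.1)
    (r2 p p3 p2 ▸ r1) (q2 p p2 p1 ▸ q1)

include hl ho in
lemma Own.ch_cand {Y x : Finset α} (hY : Y ∈ H) (hx : x ∈ ch O π Y) :
    ch O π x ⊆ cand H x ∅ (x ∩ Y) := fun g hg => by
  obtain ⟨r, -, r1, -, r2, -⟩ := ho.meet hl (ho.mem x (mem_ch.1 hx).1) hg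
  exact mem_cand.2 ⟨ho.mem g (mem_ch.1 hg).1, (mem_ch.1 hg).2.1, notMem_empty _, r,
    mem_sdiff.2 ⟨mem_inter.2 ⟨r1, r2⟩, fun e => ho.off hl hY hx hg r (mem_inter.1 e).2 r2 r1⟩⟩

include hl ho in
lemma Own.adj {Y x : Finset α} (hY : Y ∈ H) (hx : x ∈ ch O π Y) : x ≠ Y ∧ (x ∩ Y).Nonempty := by
  obtain ⟨r, -, r1, -, r2, -⟩ := ho.meet hl hY hx
  exact ⟨(mem_ch.1 hx).2.1, r, mem_inter.2 ⟨r1, r2⟩⟩

include hl ho in
lemma Own.broom {L x g : Finset α} (hL : L ∈ H) (hx : x ∈ ch O π L) (k : ℕ) :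
    phi (L ∪ x ∪ g) M B * Ds (uu O π) k (((ch O π L).erase x).erase g) ≤
      Q H L {g} M B k (x ∩ L) (L ∪ x ∪ g) := by
  refine Q_ge (fun c => (uu_pos c).le) k _ _ _ (subset_union_left.trans subset_union_left)
    (fun C hC => ?_) fun C hC U hU => ho.child hl (mem_of_mem_erase (mem_of_mem_erase hC)) hU
  obtain ⟨c1, c2⟩ := mem_erase.1 hC
  obtain ⟨c3, c4⟩ := mem_erase.1 c2
  obtain ⟨p, p1, p2, -, p3⟩ := ho.att hl hL c4
  exact ⟨ho.mem C (mem_ch.1 c4).1, (mem_ch.1 c4).2.1, fun e => c1 (mem_singleton.1 e), p, p1, p2,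
    fun e => p3 x hx c3.symm (mem_inter.1 e).1,
    fun D hD => p3 D (mem_of_mem_erase (mem_of_mem_erase hD))⟩

include hl ho in
lemma Own.star {L : Finset α} (hL : L ∈ H) (k : ℕ) :
    phi L M B * Ds (uu O π) k (ch O π L) ≤ Q H L ∅ M B k ∅ L := by
  refine Q_ge (fun c => (uu_pos c).le) k _ _ _ Subset.rfl
    (fun C hC => ?_) fun C hC U hU => ho.child hl hC hU
  obtain ⟨p, p1, p2, -, p3⟩ := ho.att hl hL hC
  exact ⟨ho.mem C (mem_ch.1 hC).1, (mem_ch.1 hC).2.1, notMem_empty _, p, p1, p2,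
    notMem_empty _, p3⟩

include hl ho in
lemma Own.dag {L x g : Finset α} (hL : L ∈ H) (hx : x ∈ ch O π L) (hg : g ∈ ch O π x)
    (hg' : g ∈ ch O π L) :
    2 * uu O π g * phi (L ∪ x) M B ≤ phi (L ∪ x ∪ g) M B ∧ tr L x g := by
  obtain ⟨q, q1, q2, -, q3, -⟩ := ho.meet hl hL hg'
  obtain ⟨r, r1, r2, -, r3, -⟩ := ho.meet hl (ho.mem x (mem_ch.1 hx).1) hg
  have o := ho.off hl hL hx hg
  refine ⟨le_trans (le_of_eq ?_) (phi_union (k := (ch O π g).card) (ho.alive g (mem_ch.1 hg).1)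
    ((ho.cost hl (mem_ch.1 hg).1).trans ?_)), inter_comm x L ▸ (ho.adj hl hL hx).2,
    ⟨r, mem_inter.2 ⟨r3, r2⟩⟩, ⟨q, mem_inter.2 ⟨q2, q3⟩⟩, o⟩
  · rw [uu, pow_add]; ring
  · have : {q, r} = π g := eq_of_subset_of_card_le (insert_subset q1 (singleton_subset_iff.2 r1))
      (by rw [ho.two g (mem_ch.1 hg).1, card_pair fun e : q = r => o q q3 (e ▸ r3) q2])
    rw [sdiff_eq_empty_iff_subset.2 (this ▸ insert_subset (mem_union_left _ q3)
      (singleton_subset_iff.2 (mem_union_right _ r3)))]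
    simp

end own

end Pool.Agent.Lib.MP_9dacbe_co.T13
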