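import Pool.Agent.Lib.MP_9dacbe_co.Pot

/-! Owned sets with their pairs, closures of size at most three, and the cascade of ownership. -/

namespace Pool.Agent.Lib.MP_9dacbe_co.T13

open Finset

variable {α : Type} [DecidableEq α]

def pend (O : Finset (Finset α)) (π : Finset α → Finset α) (x : α) : Prop := ∃ C ∈ O, x ∈ π C

instance (O : Finset (Finset α)) (π : Finset α → Finset α) : DecidablePred (pend O π) :=
  fun _ => by unfold pend; infer_instance

def ch (O : Finset (Finset α)) (π : Finset α → Finset α) (L : Finset α) : Finset (Finset α) :=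
  O.filter fun D => D ≠ L ∧ (π D ∩ L).Nonempty

def sz (O : Finset (Finset α)) (π : Finset α → Finset α) : ℕ → Finset α → ℕ
  | 0, _ => 1
  | k + 1, L => 1 + ∑ D ∈ ch O π L, sz O π k D

structure Own (H : Finset (Finset α)) (M B : Finset α) (O : Finset (Finset α))
    (π : Finset α → Finset α) : Prop where
  mem : ∀ C ∈ O, C ∈ H
  alive : ∀ C ∈ O, Disjoint C B
  sub : ∀ C ∈ O, π C ⊆ C \ M
  two : ∀ C ∈ O, (π C).card = 2
  cov : ∀ C ∈ O, ∀ x ∈ C \ M, pend O π x
  dis : ∀ C ∈ O, ∀ D ∈ O, C ≠ D → Disjoint (π C) (π D)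
  small : ∀ C ∈ O, sz O π 3 C ≤ 3

def tr (a b c : Finset α) : Prop :=
  (a ∩ b).Nonempty ∧ (b ∩ c).Nonempty ∧ (c ∩ a).Nonempty ∧ ∀ x ∈ a, x ∈ b → x ∉ c

instance (a b c : Finset α) : Decidable (tr a b c) := by unfold tr; infer_instance

def Bad (O : Finset (Finset α)) (π : Finset α → Finset α) (L : Finset α) : Prop :=
  4 ≤ sz O π 3 L ∨ ∃ D ∈ ch O π L, ∃ E, (E ∈ ch O π L ∨ E ∈ ch O π D) ∧ tr L D E

def np (O : Finset (Finset α)) (π : Finset α → Finset α) (M L : Finset α) : Finset α :=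
  (L \ M).filter fun x => ¬ pend O π x

def Near (O : Finset (Finset α)) (π : Finset α → Finset α) (w : α) (L : Finset α) : Prop :=
  w ∈ L ∨ ∃ D ∈ ch O π L, w ∈ D ∨ ∃ E ∈ ch O π D, w ∈ E

def Lin (H : Finset (Finset α)) : Prop :=
  ∀ L ∈ H, ∀ C ∈ H, L ≠ C → ∀ x ∈ L, x ∈ C → ∀ y ∈ L, y ∈ C → x = y

variable {H O : Finset (Finset α)} {π : Finset α → Finset α} {M B : Finset α}

lemma mem_ch {L D : Finset α} : D ∈ ch O π L ↔ D ∈ O ∧ D ≠ L ∧ (π D ∩ L).Nonempty := mem_filter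

lemma sz_pos (k : ℕ) (L : Finset α) : 1 ≤ sz O π k L := by
  cases k <;> simp [sz]

lemma sz_ch {k : ℕ} {L D : Finset α} (h : D ∈ ch O π L) : 1 + sz O π k D ≤ sz O π (k + 1) L :=
  Nat.add_le_add_left (single_le_sum (f := sz O π k) (fun _ _ => Nat.zero_le _) h) 1

lemma sz_ch2 {k : ℕ} {L D E : Finset α} (h : D ∈ ch O π L) (h' : E ∈ ch O π L) (hne : D ≠ E) :
    1 + sz O π k D + sz O π k E ≤ sz O π (k + 1) L := by
  have := sum_le_sum_of_subset (f := sz O π k) (show {D, E} ⊆ ch O π L from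
    insert_subset h (singleton_subset_iff.2 h'))
  rw [sum_pair hne] at this
  simp only [sz]; omega

section add

variable {D : Finset α} (ho : Own H M B O π) (hD : D ∉ O)

lemma pend_add (hD : D ∉ O) (ρ : Finset α) (x : α) :
    pend (insert D O) (Function.update π D ρ) x ↔ x ∈ ρ ∨ pend O π x := by
  simp only [pend, exists_mem_insert, Function.update_self]
  refine or_congr Iff.rfl (exists_congr fun C => and_congr_right fun hC => ?_)
  rw [Function.update_of_ne (ne_of_mem_of_not_mem hC hD)]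

lemma mem_ch_add (hD : D ∉ O) (ρ L E : Finset α) :
    E ∈ ch (insert D O) (Function.update π D ρ) L ↔
      (E = D ∧ D ≠ L ∧ (ρ ∩ L).Nonempty) ∨ E ∈ ch O π L := by
  simp only [mem_ch, mem_insert]
  by_cases e : E = D
  · subst e; simp [hD]
  · simp [e, Function.update_of_ne e]

lemma ch_add_sub (hD : D ∉ O) (ρ L : Finset α) :
    ch O π L ⊆ ch (insert D O) (Function.update π D ρ) L :=
  fun _ h => (mem_ch_add hD _ _ _).2 (Or.inr h)

include ho hD in
lemma ch_add_own {C : Finset α} (hC : C ∈ insert D O) :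
    ch (insert D O) (Function.update π D (np O π M D)) C = ch O π C := by
  ext E
  rw [mem_ch_add hD]
  refine or_iff_right ?_
  rintro ⟨-, h1, x, hx⟩
  rcases mem_insert.1 hC with e | hC
  · exact h1 e.symm
  · obtain ⟨a, b⟩ := mem_inter.1 hx
    obtain ⟨c, d⟩ := mem_filter.1 a
    exact d (ho.cov C hC x (mem_sdiff.2 ⟨b, (mem_sdiff.1 c).2⟩))

include ho hD in
lemma sz_add_own : ∀ (k : ℕ) {C : Finset α}, C ∈ insert D O →
    sz (insert D O) (Function.update π D (np O π M D)) k C = sz O π k C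
  | 0, _, _ => rfl
  | k + 1, C, hC => by
    simp only [sz]
    rw [ch_add_own ho hD hC]
    exact congrArg _ (sum_congr rfl fun E hE =>
      sz_add_own k (mem_insert_of_mem (mem_ch.1 hE).1))

include ho hD in
lemma sz_add_le (k : ℕ) (L : Finset α) :
    sz O π k L ≤ sz (insert D O) (Function.update π D (np O π M D)) k L := by
  cases k with
  | zero => exact le_rfl
  | succ k =>
    simp only [sz]
    refine Nat.add_le_add_left (le_trans (le_of_eq (sum_congr rfl fun E hE =>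
      (sz_add_own ho hD k (mem_insert_of_mem (mem_ch.1 hE).1)).symm))
      (sum_le_sum_of_subset (ch_add_sub hD _ _))) 1

include ho hD in
lemma Bad.add {L : Finset α} (h : Bad O π L) :
    Bad (insert D O) (Function.update π D (np O π M D)) L := by
  rcases h with h | ⟨C, hC, E, hE, t⟩
  · exact Or.inl (h.trans (sz_add_le ho hD 3 L))
  · exact Or.inr ⟨C, ch_add_sub hD _ _ hC, E,
      hE.imp (fun a => ch_add_sub hD _ _ a) fun a => ch_add_sub hD _ _ a, t⟩

lemma Near.add (hD : D ∉ O) (ρ : Finset α) {w : α} {L : Finset α} (h : Near O π w L) :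
    Near (insert D O) (Function.update π D ρ) w L :=
  h.imp id fun ⟨C, hC, a⟩ => ⟨C, ch_add_sub hD _ _ hC,
    a.imp id fun ⟨E, hE, b⟩ => ⟨E, ch_add_sub hD _ _ hE, b⟩⟩

include ho hD in
lemma Own.add (h1 : D ∈ H) (h2 : Disjoint D B) (h3 : (np O π M D).card = 2)
    (h4 : sz O π 3 D ≤ 3) : Own H M B (insert D O) (Function.update π D (np O π M D)) := by
  have u : ∀ C ∈ O, Function.update π D (np O π M D) C = π C := fun C hC =>
    Function.update_of_ne (ne_of_mem_of_not_mem hC hD) _ _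
  have v : ∀ C ∈ O, Disjoint (np O π M D) (π C) := fun C hC =>
    disjoint_left.2 fun x a b => (mem_filter.1 a).2 ⟨C, hC, b⟩
  refine ⟨(forall_mem_insert _ _ _).2 ⟨h1, ho.mem⟩, (forall_mem_insert _ _ _).2 ⟨h2, ho.alive⟩,
    (forall_mem_insert _ _ _).2 ⟨?_, fun C hC => ?_⟩, (forall_mem_insert _ _ _).2 ⟨?_, fun C hC => ?_⟩,
    (forall_mem_insert _ _ _).2 ⟨fun x hx => ?_, fun C hC x hx => ?_⟩, fun C hC E hE hne => ?_,
    fun C hC => ?_⟩
  · rw [Function.update_self]; exact filter_subset _ _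
  · rw [u C hC]; exact ho.sub C hC
  · rwa [Function.update_self]
  · rw [u C hC]; exact ho.two C hC
  · rw [pend_add hD]
    by_cases p : pend O π x
    exacts [Or.inr p, Or.inl (mem_filter.2 ⟨hx, p⟩)]
  · exact (pend_add hD _ _).2 (Or.inr (ho.cov C hC x hx))
  · rcases mem_insert.1 hC with rfl | hC' <;> rcases mem_insert.1 hE with rfl | hE'
    · exact absurd rfl hne
    · rw [Function.update_self, u E hE']; exact v E hE'
    · rw [Function.update_self, u C hC']; exact (v C hC').symm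
    · rw [u C hC', u E hE']; exact ho.dis C hC' E hE' hne
  · rw [sz_add_own ho hD 3 hC]
    rcases mem_insert.1 hC with rfl | hC
    exacts [h4, ho.small C hC]

end add

def Mid (H : Finset (Finset α)) (M B : Finset α) (O : Finset (Finset α)) (π : Finset α → Finset α)
    (w : α) : Prop := ∀ L ∈ H, L ∉ O → Disjoint L B →
  3 ≤ (np O π M L).card ∨ Bad O π L ∨ ((np O π M L).card = 2 ∧ Near O π w L)

lemma Mid.add (hl : Lin H) {D : Finset α} (ho : Own H M B O π) (hD : D ∉ O) (h1 : D ∈ H)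
    {w : α} (hw : w ∈ M) (hn : Near O π w D) (hm : Mid H M B O π w) :
    Mid H M B (insert D O) (Function.update π D (np O π M D)) w := by
  intro L hL hO hB
  rw [mem_insert, not_or] at hO
  have e : np (insert D O) (Function.update π D (np O π M D)) M L = np O π M L \ np O π M D := by
    ext x
    rw [mem_sdiff, np, mem_filter, pend_add hD, show x ∈ np O π M L ↔ _ from mem_filter]
    tauto
  by_cases hq : (np O π M D ∩ L).Nonempty
  swap
  · have : np O π M L \ np O π M D = np O π M L := sdiff_eq_self_of_disjoint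
      (disjoint_left.2 fun x a b => hq ⟨x, mem_inter.2 ⟨b, (mem_sdiff.1 (mem_filter.1 a).1).1⟩⟩)
    rw [e, this]
    exact (hm L hL hO.2 hB).imp id (Or.imp (Bad.add ho hD) fun a => ⟨a.1, a.2.add hD _⟩)
  have cD : D ∈ ch (insert D O) (Function.update π D (np O π M D)) L :=
    (mem_ch_add hD _ _ _).2 (Or.inl ⟨rfl, Ne.symm hO.1, hq⟩)
  obtain ⟨q, hq⟩ := hq
  obtain ⟨q1, q2⟩ := mem_inter.1 hq
  obtain ⟨q3, q4⟩ := mem_filter.1 q1
  obtain ⟨q5, q6⟩ := mem_sdiff.1 q3
  have uq : ∀ x ∈ L, x ∈ D → x = q := fun x a b => hl L hL D h1 hO.1 x a b q q2 q5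
  have nq : ∀ E ∈ O, q ∉ E := fun E hE a => q4 (ho.cov E hE q (mem_sdiff.2 ⟨a, q6⟩))
  have s1 := fun k {C} => sz_add_own ho hD k (C := C)
  by_cases hs : 4 ≤ sz (insert D O) (Function.update π D (np O π M D)) 3 L
  · exact Or.inr (Or.inl (Or.inl hs))
  have hn' : w ∈ D ∨ ∃ E ∈ ch O π D, w ∈ E := by
    rcases hn with a | ⟨E, hE, a | ⟨F, hF, -⟩⟩
    · exact Or.inl a
    · exact Or.inr ⟨E, hE, a⟩
    · have a : _ ≤ sz _ _ 3 _ := sz_ch (k := 2) cD
      rw [s1 2 (mem_insert_self _ _)] at a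
      have b : _ ≤ sz _ _ 2 _ := sz_ch (k := 1) hE
      have c : _ ≤ sz _ _ 1 _ := sz_ch (k := 0) hF
      have := sz_pos (O := O) (π := π) 0 F
      omega
  have mt : ∀ {X E : Finset α}, E ∈ ch O π X → (X ∩ E).Nonempty := fun {X E} hE => by
    obtain ⟨a, -, x, hx⟩ := mem_ch.1 hE
    exact ⟨x, mem_inter.2 ⟨(mem_inter.1 hx).2,
      (mem_sdiff.1 (ho.sub E a (mem_inter.1 hx).1)).1⟩⟩
  rcases hm L hL hO.2 hB with a | a | ⟨-, a⟩
  · have : (np O π M L).erase q ⊆ np O π M L \ np O π M D := fun x hx =>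
      mem_sdiff.2 ⟨mem_of_mem_erase hx, fun b => (mem_erase.1 hx).1 (uq x (mem_sdiff.1
        (mem_filter.1 (mem_of_mem_erase hx)).1).1 (mem_sdiff.1 (mem_filter.1 b).1).1)⟩
    have b := card_le_card this
    have c := pred_card_le_card_erase (s := np O π M L) (a := q)
    rw [e]
    by_cases d : 3 ≤ (np O π M L \ np O π M D).card
    · exact Or.inl d
    · exact Or.inr (Or.inr ⟨by omega, Or.inr ⟨D, cD,
        hn'.imp id fun ⟨E, hE, b⟩ => ⟨E, ch_add_sub hD _ _ hE, b⟩⟩⟩)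
  · exact Or.inr (Or.inl (a.add ho hD))
  refine Or.inr (Or.inl (Or.inr ⟨D, cD, ?_⟩))
  have nc : ∀ E ∈ O, ∀ x ∈ L, x ∈ D → x ∉ E := fun E hE x a b => uq x a b ▸ nq E hE
  rcases a with a | ⟨E, hE, a⟩
  · rcases hn' with b | ⟨E, hE, b⟩
    · exact absurd (uq w a b ▸ hw) q6
    · exact ⟨E, Or.inr (ch_add_sub hD _ _ hE), ⟨q, mem_inter.2 ⟨q2, q5⟩⟩, mt hE,
        ⟨w, mem_inter.2 ⟨b, a⟩⟩, nc E (mem_ch.1 hE).1⟩
  · have hE' := ch_add_sub hD (np O π M D) L hE
    have z : _ ≤ sz _ _ 3 _ := sz_ch2 (k := 2) cD hE' fun e => hD (e ▸ (mem_ch.1 hE).1)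
    rw [s1 2 (mem_insert_self _ _), s1 2 (mem_insert_of_mem (mem_ch.1 hE).1)] at z
    have p1 := sz_pos (O := O) (π := π) 2 D
    have p2 := sz_pos (O := O) (π := π) 2 E
    rcases hn' with b | ⟨F, hF, -⟩
    · rcases a with a | ⟨F, hF, -⟩
      · exact ⟨E, Or.inl hE', ⟨q, mem_inter.2 ⟨q2, q5⟩⟩, ⟨w, mem_inter.2 ⟨b, a⟩⟩,
          inter_comm L E ▸ mt hE, nc E (mem_ch.1 hE).1⟩
      · have : _ ≤ sz _ _ 2 _ := sz_ch (k := 1) hF
        have := sz_pos (O := O) (π := π) 1 F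
        omega
    · have : _ ≤ sz _ _ 2 _ := sz_ch (k := 1) hF
      have := sz_pos (O := O) (π := π) 1 F
      omega

def Calm (H : Finset (Finset α)) (M B : Finset α) (O : Finset (Finset α))
    (π : Finset α → Finset α) : Prop :=
  ∀ L ∈ H, L ∉ O → Disjoint L B → 3 ≤ (np O π M L).card ∨ Bad O π L

lemma cascade (hl : Lin H) {w : α} (hw : w ∈ M) : ∀ (n : ℕ) (O : Finset (Finset α))
    (π : Finset α → Finset α), (H \ O).card ≤ n → Own H M B O π → Mid H M B O π w →
    ∃ O' π', O ⊆ O' ∧ (∀ C ∈ O, π' C = π C) ∧ Own H M B O' π' ∧ Calm H M B O' π' := by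
  intro n
  induction n with
  | zero =>
    intro O π hc ho _
    exact ⟨O, π, Subset.rfl, fun _ _ => rfl, ho, fun L hL hO _ =>
      absurd (card_pos.2 ⟨L, mem_sdiff.2 ⟨hL, hO⟩⟩) (by omega)⟩
  | succ n ih =>
    intro O π hc ho hm
    by_cases h : Calm H M B O π
    · exact ⟨O, π, Subset.rfl, fun _ _ => rfl, ho, h⟩
    simp only [Calm, not_forall, not_or] at h
    obtain ⟨D, h1, hD, h2, h3, h4⟩ := h
    obtain ⟨h5, h6⟩ := ((hm D h1 hD h2).resolve_left h3).resolve_left h4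
    obtain ⟨O', π', a, b, c⟩ := ih (insert D O) _ (by
      rw [sdiff_insert, card_erase_of_mem (mem_sdiff.2 ⟨h1, hD⟩)]; omega)
      (ho.add hD h1 h2 h5 (by by_contra e; exact h4 (Or.inl (by omega))))
      (hm.add hl ho hD h1 hw h6)
    exact ⟨O', π', (subset_insert _ _).trans a, fun C hC => by
      rw [b C (mem_insert_of_mem hC), Function.update_of_ne (ne_of_mem_of_not_mem hC hD)], c⟩

end Pool.Agent.Lib.MP_9dacbe_co.T13
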