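import Pool.Agent.Lib.MP_9dacbe_co.T13Game

/-! The potential for `n = 13`: stars, brooms and triangles of sets. -/

namespace Pool.Agent.Lib.MP_9dacbe_co.T13

open Finset

variable {α : Type} [DecidableEq α]

def cand (H : Finset (Finset α)) (R : Finset α) (X : Finset (Finset α)) (F : Finset α) :
    Finset (Finset α) := H.filter fun C => C ≠ R ∧ C ∉ X ∧ ((C ∩ R) \ F).Nonempty

noncomputable def Q (H : Finset (Finset α)) (R : Finset α) (X : Finset (Finset α))
    (M B : Finset α) : ℕ → Finset α → Finset α → ℝ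
  | 0, _, U => phi U M B
  | r + 1, F, U => ∑ C ∈ cand H R X F, Q H R X M B r (F ∪ C ∩ R) (U ∪ C)

noncomputable def Br (H : Finset (Finset α)) (k : ℕ) (M B R x : Finset α) : ℝ :=
  if x ≠ R ∧ (x ∩ R).Nonempty then
    ∑ g ∈ cand H x ∅ (x ∩ R), Q H R {g} M B k (x ∩ R) (R ∪ x ∪ g) else 0

noncomputable def Tt (M B a b c : Finset α) : ℝ := if tr a b c then phi (a ∪ b ∪ c) M B else 0

noncomputable def TT (H : Finset (Finset α)) (M B : Finset α) : ℝ :=
  ∑ R ∈ H, (32 / 3 * Q H R ∅ M B 3 ∅ R + 1470 * Q H R ∅ M B 7 ∅ R +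
    ∑ x ∈ H, (32 * Br H 1 M B R x + 1125 * Br H 4 M B R x + 8 / 3 * ∑ g ∈ H, Tt M B R x g))

variable {H : Finset (Finset α)}

lemma mem_cand {R C F : Finset α} {X : Finset (Finset α)} :
    C ∈ cand H R X F ↔ C ∈ H ∧ C ≠ R ∧ C ∉ X ∧ ((C ∩ R) \ F).Nonempty := mem_filter

lemma Q_nn (R : Finset α) (X : Finset (Finset α)) (M B : Finset α) :
    ∀ r F U, 0 ≤ Q H R X M B r F U
  | 0, _, _ => phi_nonneg _ _ _
  | r + 1, _, _ => sum_nonneg fun _ _ => Q_nn R X M B r _ _

lemma Br_nn (k : ℕ) (M B R x : Finset α) : 0 ≤ Br H k M B R x := by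
  unfold Br; split_ifs
  exacts [sum_nonneg fun _ _ => Q_nn _ _ _ _ _ _ _, le_rfl]

lemma Tt_nn (M B a b c : Finset α) : 0 ≤ Tt M B a b c := by
  unfold Tt; split_ifs
  exacts [phi_nonneg _ _ _, le_rfl]

lemma tr.rot {a b c : Finset α} (h : tr a b c) : tr b c a :=
  ⟨h.2.1, h.2.2.1, h.1, fun x p q r => h.2.2.2 x r p q⟩

lemma tr.swap {a b c : Finset α} (h : tr a b c) : tr a c b :=
  ⟨inter_comm c a ▸ h.2.2.1, inter_comm b c ▸ h.2.1, inter_comm a b ▸ h.1,
    fun x p q r => h.2.2.2 x p r q⟩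

lemma Tt_rot (M B a b c : Finset α) : Tt M B a b c = Tt M B b c a := by
  unfold Tt
  rw [union_assoc a, union_comm a]
  exact if_congr ⟨tr.rot, fun h => h.rot.rot⟩ rfl rfl

lemma Tt_swap (M B a b c : Finset α) : Tt M B a b c = Tt M B a c b := by
  unfold Tt
  rw [union_right_comm]
  exact if_congr ⟨tr.swap, tr.swap⟩ rfl rfl

lemma Tt_self (M B a c : Finset α) : Tt M B a a c = 0 :=
  if_neg fun h => by
    obtain ⟨x, hx⟩ := h.2.1
    exact h.2.2.2 x (mem_inter.1 hx).1 (mem_inter.1 hx).1 (mem_inter.1 hx).2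

lemma Br_symm (M B R x : Finset α) : Br H 1 M B R x = Br H 1 M B x R := by
  unfold Br
  rw [inter_comm R x]
  refine if_congr (and_congr_left' ne_comm) ?_ rfl
  simp only [Q]
  rw [sum_comm' (s' := fun c => cand H x {c} (x ∩ R)) (t' := cand H R ∅ (x ∩ R))]
  · refine sum_congr rfl fun c _ => sum_congr rfl fun g _ => ?_
    rw [union_comm x R, union_right_comm]
  · intro g c
    simp only [mem_cand, mem_singleton, notMem_empty, not_false_eq_true, true_and]
    tauto

lemma sym2 {β : Type} [DecidableEq β] {S A : Finset β} {c : β → Finset β} {f : β → β → ℝ}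
    (h0 : ∀ a b, 0 ≤ f a b) (hs : ∀ a b, f a b = f b a) (hA : A ⊆ S) (hc : ∀ a, c a ⊆ S)
    (ha : ∀ a b, b ∈ c a → a ∉ c b) :
    2 * ∑ a ∈ A, ∑ b ∈ c a, f a b ≤ ∑ a ∈ S, ∑ b ∈ S, f a b := by
  have e : ∑ a ∈ A, ∑ b ∈ c a, f a b ≤ ∑ a ∈ S, ∑ b ∈ S, if b ∈ c a then f a b else 0 := by
    refine le_trans (le_of_eq (sum_congr rfl fun a _ => ?_)) (sum_le_sum_of_subset_of_nonneg hA
      fun _ _ _ => sum_nonneg fun _ _ => by split_ifs; exacts [h0 _ _, le_rfl])
    rw [sum_ite_mem, inter_eq_right.2 (hc a)]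
  have e' := e
  rw [sum_comm] at e'
  rw [two_mul]
  refine (add_le_add e e').trans ?_
  rw [← sum_add_distrib]
  refine sum_le_sum fun a _ => ?_
  rw [← sum_add_distrib]
  refine sum_le_sum fun b _ => ?_
  split_ifs with h1 h2 h2
  · exact absurd h2 (ha a b h1)
  · simp
  · simp [hs b a]
  · simpa using h0 a b

lemma sym3 (M B : Finset α) {L : Finset α} (hL : L ∈ H) :
    3 * ∑ b ∈ H, ∑ c ∈ H, Tt M B L b c ≤ ∑ a ∈ H, ∑ b ∈ H, ∑ c ∈ H, Tt M B a b c := by
  have e1 : ∑ a ∈ H, ∑ b ∈ H, ∑ c ∈ H, (if a = L then Tt M B a b c else 0) =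
      ∑ b ∈ H, ∑ c ∈ H, Tt M B L b c := by
    simp only [sum_ite_irrel, sum_const_zero, sum_ite_eq', hL, if_true]
  have e2 : ∑ a ∈ H, ∑ b ∈ H, ∑ c ∈ H, (if b = L then Tt M B a b c else 0) =
      ∑ b ∈ H, ∑ c ∈ H, Tt M B L b c := by
    simp only [sum_ite_irrel, sum_const_zero, sum_ite_eq', hL, if_true]
    exact sum_congr rfl fun a _ => sum_congr rfl fun c _ => by rw [Tt_rot, Tt_swap]
  have e3 : ∑ a ∈ H, ∑ b ∈ H, ∑ c ∈ H, (if c = L then Tt M B a b c else 0) =
      ∑ b ∈ H, ∑ c ∈ H, Tt M B L b c := by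
    simp only [sum_ite_eq', hL, if_true]
    exact sum_congr rfl fun a _ => sum_congr rfl fun c _ => (Tt_rot _ _ _ _ _).symm
  refine le_trans (le_of_eq ((by ring : _ = _ + _ + _).trans
    (congrArg₂ (· + ·) (congrArg₂ (· + ·) e1 e2) e3).symm)) ?_
  simp only [← sum_add_distrib]
  refine sum_le_sum fun a _ => sum_le_sum fun b _ => sum_le_sum fun c _ => ?_
  have := Tt_nn M B a b c
  have s1 := Tt_self M B L c
  have s2 : Tt M B L b L = 0 := by rw [Tt_swap, Tt_self]
  have s3 : Tt M B a L L = 0 := by rw [Tt_rot, Tt_self]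
  split_ifs <;> subst_vars <;> linarith

/-! ### closure properties -/

structure Good [Fintype α] (T : Finset α → Finset α → ℝ) : Prop where
  es : ∀ M B y z, T (insert y M) (insert z B) + T M (insert y B) ≤ T M B + T M (insert z B)
  anti : ∀ M B z, T M (insert z B) ≤ T M B
  avg : ∑ y, T {y} ∅ ≤ (Fintype.card α + 104) * T ∅ ∅

variable [Fintype α]

lemma Good.phi {U : Finset α} (h : U.card ≤ 104) : Good (phi U) := by
  refine ⟨phi_es U, phi_anti U, ?_⟩
  simp only [MP_9dacbe_co.phi, disjoint_empty_right, if_true, sdiff_singleton_eq_erase, half_erase,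
    sdiff_empty, ← mul_sum]
  rw [mul_comm]
  refine mul_le_mul_of_nonneg_right ?_ (by positivity)
  have : ∀ y, (if y ∈ U then (2 : ℝ) else 1) = 1 + if y ∈ U then 1 else 0 := fun y => by
    split_ifs <;> norm_num
  have c' : (U.card : ℝ) ≤ 104 := by exact_mod_cast h
  simp [this, sum_add_distrib, c']

lemma Good.add {S T : Finset α → Finset α → ℝ} (a : Good S) (b : Good T) :
    Good fun M B => S M B + T M B :=
  ⟨fun M B y z => by linarith [a.es M B y z, b.es M B y z],
    fun M B z => add_le_add (a.anti M B z) (b.anti M B z),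
    by rw [sum_add_distrib]; linarith [a.avg, b.avg]⟩

lemma Good.smul {T : Finset α → Finset α → ℝ} (a : Good T) {c : ℝ} (hc : 0 ≤ c) :
    Good fun M B => c * T M B :=
  ⟨fun M B y z => by nlinarith [a.es M B y z],
    fun M B z => mul_le_mul_of_nonneg_left (a.anti M B z) hc,
    by rw [← mul_sum]; nlinarith [a.avg]⟩

lemma Good.zero : Good fun (_ _ : Finset α) => (0 : ℝ) := ⟨by simp, by simp, by simp⟩

lemma Good.sum {β : Type} {s : Finset β} {T : β → Finset α → Finset α → ℝ}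
    (h : ∀ b ∈ s, Good (T b)) : Good fun M B => ∑ b ∈ s, T b M B :=
  ⟨fun M B y z => by
    simp only [← sum_add_distrib]; exact sum_le_sum fun b hb => (h b hb).es M B y z,
    fun M B z => sum_le_sum fun b hb => (h b hb).anti M B z,
    by rw [sum_comm, mul_sum]; exact sum_le_sum fun b hb => (h b hb).avg⟩

lemma Good.ite {p : Prop} [Decidable p] {T : Finset α → Finset α → ℝ} (h : Good T) :
    Good fun M B => if p then T M B else 0 := by
  split_ifs
  exacts [h, Good.zero]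

lemma Q_good (h : ∀ L ∈ H, L.card = 13) (R : Finset α) (X : Finset (Finset α)) :
    ∀ r F U, U.card + 13 * r ≤ 104 → Good fun M B => Q H R X M B r F U
  | 0, _, _, hU => Good.phi (by omega)
  | r + 1, F, U, hU => Good.sum (T := fun C M B => Q H R X M B r (F ∪ C ∩ R) (U ∪ C))
      fun C hC => Q_good h R X r _ _ (by
        have := card_union_le U C
        have := h C (mem_cand.1 hC).1
        omega)

lemma TT_good (h : ∀ L ∈ H, L.card = 13) : Good (TT H) := by
  have u : ∀ a ∈ H, ∀ b ∈ H, ∀ c ∈ H, (a ∪ b ∪ c).card ≤ 39 := fun a ha b hb c hc => by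
    have := card_union_le (a ∪ b) c
    have := card_union_le a b
    have := h a ha
    have := h b hb
    have := h c hc
    omega
  have br : ∀ k ≤ 4, ∀ R ∈ H, ∀ x ∈ H, Good fun M B => Br H k M B R x := fun k hk R hR x hx =>
    Good.ite (Good.sum (T := fun g M B => Q H R {g} M B k (x ∩ R) (R ∪ x ∪ g)) fun g hg =>
      Q_good h _ _ _ _ _ (by have := u R hR x hx g (mem_cand.1 hg).1; omega))
  refine Good.sum fun R hR => Good.add (Good.add
    ((Q_good h R ∅ 3 ∅ R (by rw [h R hR]; omega)).smul (by norm_num))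
    ((Q_good h R ∅ 7 ∅ R (by rw [h R hR])).smul (by norm_num))) (Good.sum fun x hx =>
      Good.add (Good.add ((br 1 (by omega) R hR x hx).smul (by norm_num))
        ((br 4 le_rfl R hR x hx).smul (by norm_num))) (Good.smul (Good.sum fun g hg =>
          Good.ite (Good.phi ((u R hR x hx g hg).trans (by norm_num)))) (by norm_num)))

end Pool.Agent.Lib.MP_9dacbe_co.T13
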