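import Pool.Agent.Lib.MP_9dacbe_co.T13Init

/-! The starting value of the potential is below one. -/

namespace Pool.Agent.Lib.MP_9dacbe_co.T13

open Finset

variable {α : Type} [DecidableEq α] {H : Finset (Finset α)} {pl : Finset α → Finset α → Finset α}

lemma half_le {a b : ℕ} (h : b ≤ a) : (1 / 2 : ℝ) ^ a ≤ (1 / 2) ^ b :=
  pow_le_pow_of_le_one (by norm_num) (by norm_num) h

namespace Geo

variable (G : Geo H pl) {R : Finset α} (hR : R ∈ H)

include G hR

lemma star {c k : ℕ} (hc : c < 12) (hk : k ≤ 7) (h : 13 ≤ c + k) :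
    Q H R ∅ ∅ ∅ k ∅ R ≤ (1 / 2) ^ (13 + 12 * k) * (Bq 0 c k 0 : ℝ) := by
  have := G.Qle hR ∅ ∅ (γ := 0) two_pos hc (by simp) (by simp) (by simp) k 0 ∅ R (fun _ => 0)
    (fun _ => 0) (by simpa using Nat.pow_le_pow_right two_pos hk) (by simpa [G.c13 R hR] using h)
    Subset.rfl (fun C hC => by simpa using G.one (pet_cand hC).1 hR (pet_cand hC).2.1)
    (fun _ _ => le_rfl) (fun _ _ _ => rfl) (by simp)
    (fun a ha => by simpa using G.card_thr hR (mem_sdiff.1 ha).1) (by simp) (by simp)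
  rwa [G.c13 R hR] at this

lemma card_off {x : Finset α} (hx : Pet H R x) : (R \ (x ∩ R)).card ≤ 12 := by
  obtain ⟨p, hp⟩ := hx.2.2
  have := card_lt_card (s := R \ (x ∩ R)) (t := R) ⟨sdiff_subset, fun e =>
    (mem_sdiff.1 (e (mem_inter.1 hp).2)).2 hp⟩
  have := G.c13 R hR
  omega

lemma card_three {x g : Finset α} (hx : Pet H R x) (hg : g ∈ cand H x ∅ (x ∩ R)) :
    37 ≤ (R ∪ x ∪ g).card + if (g ∩ R).Nonempty then 1 else 0 := by
  obtain ⟨g1, g2, -, q, hq⟩ := mem_cand.1 hg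
  obtain ⟨q1, q2⟩ := mem_sdiff.1 hq
  have a := card_union_add_card_inter R x
  have b := card_union_add_card_inter (R ∪ x) g
  have c := G.one hR hx.1 hx.2.1.symm
  have d := G.one hx.1 g1 g2.symm
  have e := card_union_le (R ∩ g) (x ∩ g)
  have f : (R ∩ g).card ≤ if (g ∩ R).Nonempty then 1 else 0 := by
    split_ifs with h
    · exact G.one hR g1 fun e => q2 (mem_inter.2 ⟨(mem_inter.1 q1).2, e ▸ (mem_inter.1 q1).1⟩)
    · rw [inter_comm, not_nonempty_iff_eq_empty.1 h]; rfl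
  rw [union_inter_distrib_right] at b
  have := G.c13 R hR
  have := G.c13 x hx.1
  have := G.c13 g g1
  omega

lemma inter_three {x g C : Finset α} (hx : x ∈ H) (hg : g ∈ H) {X : Finset (Finset α)}
    (hC : C ∈ cand H R X (x ∩ R)) (h : C ≠ g ∨ ¬ ((C ∩ g) \ R).Nonempty) :
    (C ∩ (R ∪ x ∪ g)).card ≤ 1 + (if ((C ∩ x) \ R).Nonempty then 1 else 0) +
      if ((C ∩ g) \ R).Nonempty then 1 else 0 := by
  obtain ⟨c1, c2, -, p, hp⟩ := mem_cand.1 hC
  have k : ∀ D ∈ H, C ≠ D ∨ ¬ ((C ∩ D) \ R).Nonempty →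
      ((C ∩ D) \ R).card ≤ if ((C ∩ D) \ R).Nonempty then 1 else 0 := fun D hD h => by
    split_ifs with e
    · exact (card_le_card sdiff_subset).trans (G.one c1 hD (h.resolve_right fun a => a e))
    · rw [not_nonempty_iff_eq_empty.1 e]; rfl
  have a := k x hx (Or.inl fun e => (mem_sdiff.1 hp).2 (e ▸ (mem_sdiff.1 hp).1))
  have b := k g hg h
  have c := G.one c1 hR c2
  have d := card_union_le (C ∩ R) ((C ∩ x) \ R)
  have e := card_union_le (C ∩ R ∪ (C ∩ x) \ R) ((C ∩ g) \ R)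
  have f := card_le_card (s := C ∩ (R ∪ x ∪ g)) (t := C ∩ R ∪ (C ∩ x) \ R ∪ (C ∩ g) \ R)
    fun w hw => by
      simp only [mem_inter, mem_union, mem_sdiff] at hw ⊢
      tauto
  omega

lemma broom_out {x g : Finset α} (hx : Pet H R x) (hg : g ∈ cand H x ∅ (x ∩ R))
    (ho : ¬ g ⊆ pl R x) {c k : ℕ} (hc : c < 12) (hk : k ≤ 4) (h : 12 ≤ c + k) :
    Q H R {g} ∅ ∅ k (x ∩ R) (R ∪ x ∪ g) ≤
      (1 / 2) ^ ((R ∪ x ∪ g).card + 12 * k) * (Bq 1 c k 1 : ℝ) := by
  obtain ⟨g1, g2, -, q, hq⟩ := mem_cand.1 hg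
  obtain ⟨q1, q2⟩ := mem_sdiff.1 hq
  obtain ⟨q3, q4⟩ := mem_inter.1 q1
  have qR : q ∉ R := fun e => q2 (mem_inter.2 ⟨q4, e⟩)
  obtain ⟨S, hS⟩ : ∃ S, S = H.filter fun C => C ≠ R ∧ (C ∩ R).Nonempty ∧ ((C ∩ g) \ R).Nonempty :=
    ⟨_, rfl⟩
  have mS : ∀ C, C ∈ S ↔ Pet H R C ∧ ((C ∩ g) \ R).Nonempty := fun C => by
    simp only [hS, mem_filter, Pet, and_assoc]
  have s3 : ∀ D, Pet H R D → (S.filter fun C => pl R C = pl R D).card ≤ 3 * 1 := fun D hD => by
    rcases (S.filter fun C => pl R C = pl R D).eq_empty_or_nonempty with e | ⟨E, hE⟩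
    · simp [e]
    have pt : ∀ C ∈ S.filter fun C => pl R C = pl R D, Pet H R C ∧ C ⊆ pl R D ∧
        ∃ b ∈ C, b ∈ g := fun C hC => by
      obtain ⟨a, e⟩ := mem_filter.1 hC
      obtain ⟨p, b, hb⟩ := (mS C).1 a
      exact ⟨p, e ▸ (G.p1 R hR C p).1, b, mem_inter.1 (mem_sdiff.1 hb).1⟩
    obtain ⟨-, e2, b, b1, b2⟩ := pt E hE
    refine le_trans (card_le_card fun C hC => ?_) (G.p4 R hR D hD b (e2 b1))
    obtain ⟨c1, c2, a, a1, a2⟩ := pt C hC
    refine mem_filter.2 ⟨c1.1, ?_, c2, c1.2⟩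
    by_contra n
    have := G.p3 R hR D hD g g1 a a2 b b2 (fun e => n (e ▸ a1)) (c2 a1) (e2 b1)
    exact ho (G.p2 R hR D x hD hx q (this q3) ((G.p1 R hR x hx).1 q4) qR ▸ this)
  have bm := fun {T : Finset (Finset α)} {p} [DecidablePred p] {j} =>
    bump (S := T) (f := fun _ => 0) (p := p) (m := 1) (k := j) fun _ _ _ => le_rfl
  simp only [zero_add, pow_zero, sum_const, smul_eq_mul, mul_one] at bm
  refine G.Qle hR {g} S (γ := 1) one_lt_two hc (fun C hC => ((mS C).1 hC).1) ?_ s3 k 1 _ _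
    (fun C => if ((C ∩ x) \ R).Nonempty then 1 else 0) (fun C => if pl R C = pl R x then 1 else 0)
    (by have := Nat.pow_le_pow_right two_pos hk; omega) ((G.card_off hR hx).trans h)
    (subset_union_left.trans subset_union_left) (fun C hC => ?_) (fun C hC => ?_)
    (fun C D e => by simp only [e]) (fun a ha => bm (G.u1 hR ha hx)) (fun a ha => ?_)
    (fun C => by split_ifs <;> norm_num) (bm (s3 x hx))
  · refine le_trans (card_le_card (t := (g \ R).biUnion fun b =>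
      H.filter fun L => b ∈ L ∧ (L ∩ R).Nonempty) fun C hC => ?_)
      ((card_biUnion_le_card_mul _ _ 3 fun b hb => G.u3 hR (mem_sdiff.1 hb).2).trans ?_)
    · obtain ⟨p, b, hb⟩ := (mS C).1 hC
      obtain ⟨b1, b2⟩ := mem_sdiff.1 hb
      exact mem_biUnion.2 ⟨b, mem_sdiff.2 ⟨(mem_inter.1 b1).2, b2⟩,
        mem_filter.2 ⟨p.1, (mem_inter.1 b1).1, p.2.2⟩⟩
    · have := card_le_card (sdiff_subset (s := g) (t := R))
      have := G.c13 g g1
      omega
  · simpa only [mS, pet_cand hC, true_and] using G.inter_three hR hx.1 g1 hC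
      (Or.inl fun e => (mem_cand.1 hC).2.2.1 (mem_singleton.2 e))
  · by_cases e : ((C ∩ x) \ R).Nonempty
    · simp only [if_pos e, if_pos (G.u2 hR hC hx e), le_refl]
    · simp only [if_neg e, Nat.zero_le]
  · obtain ⟨a1, a2⟩ := mem_sdiff.1 ha
    have := bm (G.u4 hR a1 hx fun e => a2 (mem_inter.2 ⟨e, a1⟩))
    have := G.card_thr hR a1
    omega

lemma broom_in {x g : Finset α} (hx : Pet H R x) (hg : g ∈ cand H x ∅ (x ∩ R))
    (hi : g ⊆ pl R x) {c k : ℕ} (hc : c < 12) (hk : k ≤ 4) (h : 12 ≤ c + k) :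
    Q H R {g} ∅ ∅ k (x ∩ R) (R ∪ x ∪ g) ≤
      (1 / 2) ^ ((R ∪ x ∪ g).card + 12 * k) * (Bq 0 c k 4 : ℝ) := by
  have g1 := (mem_cand.1 hg).1
  refine G.Qle hR {g} ∅ (γ := 0) two_pos hc (by simp) (by simp) (by simp) k 4 _ _
    (fun C => (if ((C ∩ x) \ R).Nonempty then 1 else 0) + if ((C ∩ g) \ R).Nonempty then 1 else 0)
    (fun C => if pl R C = pl R x then 2 else 0)
    (by have := Nat.pow_le_pow_right two_pos hk; omega) ((G.card_off hR hx).trans h)
    (subset_union_left.trans subset_union_left) (fun C hC => ?_) (fun C hC => ?_)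
    (fun C D e => by simp only [e]) (fun a ha => ?_) (fun a ha => ?_)
    (fun C => by split_ifs <;> norm_num) (by simp)
  · simpa only [notMem_empty, if_false, add_zero, add_assoc] using G.inter_three hR hx.1 g1 hC
      (Or.inl fun e => (mem_cand.1 hC).2.2.1 (mem_singleton.2 e))
  · by_cases e : pl R C = pl R x
    · simp only [if_pos e]; split_ifs <;> norm_num
    · have a : ¬ ((C ∩ x) \ R).Nonempty := fun a => e (G.u2 hR hC hx a)
      have b : ¬ ((C ∩ g) \ R).Nonempty := fun ⟨b, hb⟩ => e (G.p2 R hR C x hC hx b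
        ((G.p1 R hR C hC).1 (mem_inter.1 (mem_sdiff.1 hb).1).1)
        (hi (mem_inter.1 (mem_sdiff.1 hb).1).2) (mem_sdiff.1 hb).2)
      simp only [if_neg a, if_neg b, if_neg e, le_refl]
  · refine le_trans (sum_le_sum (g := fun C => 1 + if pl R C = pl R x then 3 else 0)
      fun C _ => by split_ifs <;> norm_num) ?_
    rw [sum_add_distrib, ← sum_filter, sum_const, sum_const, smul_eq_mul, smul_eq_mul]
    have := G.u1 hR ha hx
    omega
  · obtain ⟨a1, a2⟩ := mem_sdiff.1 ha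
    have b1 := bump (S := thr H R a) (f := fun _ => 0) (m := 1) (fun _ _ _ => le_rfl)
      (G.u4 hR a1 hx fun e => a2 (mem_inter.2 ⟨e, a1⟩))
    have b2 := bump (S := thr H R a) (f := fun C => if ((C ∩ x) \ R).Nonempty then 1 else 0)
      (p := fun C => ((C ∩ g) \ R).Nonempty) (m := 2) (k := 3)
      (fun _ _ _ => by split_ifs <;> norm_num) (le_trans (card_le_card fun C hC => by
        obtain ⟨c1, b, hb⟩ := mem_filter.1 hC
        have p := pet_thr a1 c1
        exact mem_filter.2 ⟨c1, G.p2 R hR C x p hx b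
          ((G.p1 R hR C p).1 (mem_inter.1 (mem_sdiff.1 hb).1).1)
          (hi (mem_inter.1 (mem_sdiff.1 hb).1).2) (mem_sdiff.1 hb).2⟩) (G.u1 hR a1 hx))
    simp only [zero_add, pow_zero, sum_const, smul_eq_mul, mul_one] at b1
    have := G.card_thr hR a1
    omega

lemma counts {x : Finset α} (hx : Pet H R x) :
    ((cand H x ∅ (x ∩ R)).card : ℝ) ≤ 468 ∧
    ∑ g ∈ cand H x ∅ (x ∩ R), (if g ⊆ pl R x then 1 else 0 : ℝ) ≤ 36 ∧
    ∑ g ∈ cand H x ∅ (x ∩ R), (if (g ∩ R).Nonempty then 1 else 0 : ℝ) ≤ 24 := by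
  have hx' : Pet H x R := ⟨hR, hx.2.1.symm, inter_comm x R ▸ hx.2.2⟩
  have c := G.card_off hx.1 hx'
  rw [inter_comm] at c
  refine ⟨?_, ?_, ?_⟩
  · have := count_cand (H := H) (X := ∅) (fun _ => True) (k := 39) c fun a ha => by
      simpa using G.card_thr hx.1 (mem_sdiff.1 ha).1
    norm_num at this ⊢
    exact this
  · refine (count_cand (H := H) (X := ∅) (· ⊆ pl R x) (k := 3) c fun a ha => ?_).trans (by norm_num)
    have a1 := (mem_sdiff.1 ha).1
    refine le_trans (card_le_card fun C hC => ?_) (G.p4 x hx.1 R hx' a ((G.p1 x hx.1 R hx').2.1 a1))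
    obtain ⟨c1, c2⟩ := mem_filter.1 hC
    have p := pet_thr a1 c1
    exact mem_filter.2 ⟨p.1, (mem_thr.1 c1).2.1, (G.p1 R hR x hx).2.2 ▸ c2, p.2⟩
  · refine (count_cand (H := H) (X := ∅) (fun g => (g ∩ R).Nonempty) (k := 2) c
      fun a ha => ?_).trans (by norm_num)
    obtain ⟨a1, a2⟩ := mem_sdiff.1 ha
    have aR : a ∉ R := fun e => a2 (mem_inter.2 ⟨a1, e⟩)
    refine le_trans (card_le_card fun C hC => ?_) (G.u4 hx.1 a1 hx' aR)
    obtain ⟨c1, p, hp⟩ := mem_filter.1 hC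
    obtain ⟨c2, c3, c4⟩ := mem_thr.1 c1
    exact mem_filter.2 ⟨c1, p, mem_sdiff.2 ⟨hp, fun e => aR
      (G.lin C c2 x hx.1 c4 p (mem_inter.1 hp).1 e a c3 a1 ▸ (mem_inter.1 hp).2)⟩⟩

lemma broom {x : Finset α} (hx : x ∈ H) {c k : ℕ} (hc : c < 12) (hk : k ≤ 4) (h : 12 ≤ c + k)
    (hXY : Bq 1 c k 1 ≤ Bq 0 c k 4) : Br H k ∅ ∅ R x ≤ if x ∈ cand H R ∅ ∅ then
      (1 / 2) ^ (37 + 12 * k) * (432 * Bq 1 c k 1 + 60 * Bq 0 c k 4 : ℝ) else 0 := by
  have e : x ∈ cand H R ∅ ∅ ↔ x ≠ R ∧ (x ∩ R).Nonempty := by simp [mem_cand, hx]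
  rw [Br, if_congr e rfl rfl]
  split_ifs with p
  swap
  · exact le_rfl
  have px : Pet H R x := ⟨hx, p⟩
  obtain ⟨c1, c2, c3⟩ := G.counts hR px
  have XY : (Bq 1 c k 1 : ℝ) ≤ Bq 0 c k 4 := by exact_mod_cast hXY
  have X0 : (0 : ℝ) ≤ Bq 1 c k 1 := Nat.cast_nonneg _
  refine (sum_le_sum (g := fun g => (1 / 2) ^ (37 + 12 * k) * ((Bq 1 c k 1 : ℝ) +
    (Bq 0 c k 4 - Bq 1 c k 1) * (if g ⊆ pl R x then 1 else 0) +
    Bq 0 c k 4 * if (g ∩ R).Nonempty then 1 else 0)) fun g hg => ?_).trans ?_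
  · have a := G.card_three hR px hg
    have w : (0 : ℝ) < (1 / 2) ^ (37 + 12 * k) := by positivity
    have s : (1 / 2 : ℝ) ^ ((R ∪ x ∪ g).card + 12 * k) ≤
        (1 / 2) ^ (37 + 12 * k) * (1 + if (g ∩ R).Nonempty then 1 else 0) := by
      split_ifs at a ⊢
      · refine (half_le (show 36 + 12 * k ≤ _ by omega)).trans (le_of_eq ?_)
        rw [show 37 + 12 * k = 36 + 12 * k + 1 by omega, pow_succ]; ring
      · rw [add_zero, mul_one]; exact half_le (by omega)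
    by_cases i : g ⊆ pl R x
    · refine (G.broom_in hR px hg i hc hk h).trans ((mul_le_mul_of_nonneg_right s
        (Nat.cast_nonneg _)).trans (le_of_eq ?_))
      rw [if_pos i]; ring
    · refine (G.broom_out hR px hg i hc hk h).trans ((mul_le_mul_of_nonneg_right s X0).trans ?_)
      rw [if_neg i, mul_assoc]
      refine mul_le_mul_of_nonneg_left ?_ w.le
      split_ifs <;> linarith
  · rw [← mul_sum, sum_add_distrib, sum_add_distrib, ← mul_sum, ← mul_sum, sum_const, nsmul_eq_mul]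
    refine mul_le_mul_of_nonneg_left ?_ (by positivity)
    nlinarith

lemma tri {x : Finset α} (hx : x ∈ H) :
    ∑ g ∈ H, Tt ∅ ∅ R x g ≤ if x ∈ cand H R ∅ ∅ then (1 / 2) ^ 36 * 24 else 0 := by
  have k : ∀ g, tr R x g → x ≠ R ∧ (x ∩ R).Nonempty := fun g t => ⟨fun e => by
    obtain ⟨p, hp⟩ := t.2.1
    exact t.2.2.2 p (e ▸ (mem_inter.1 hp).1) (mem_inter.1 hp).1 (mem_inter.1 hp).2,
    inter_comm R x ▸ t.1⟩
  have e : x ∈ cand H R ∅ ∅ ↔ x ≠ R ∧ (x ∩ R).Nonempty := by simp [mem_cand, hx]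
  rw [if_congr e rfl rfl]
  split_ifs with p
  swap
  · exact (sum_eq_zero fun g _ => if_neg fun t => p (k g t)).le
  have px : Pet H R x := ⟨hx, p⟩
  refine le_trans ?_ (mul_le_mul_of_nonneg_left (G.counts hR px).2.2 (by positivity))
  rw [mul_sum, cand, sum_filter]
  refine sum_le_sum fun g hg => ?_
  rw [Tt]
  by_cases t : tr R x g
  · have m : g ∈ cand H x ∅ (x ∩ R) := by
      obtain ⟨q, hq⟩ := t.2.1
      obtain ⟨r, hr⟩ := t.1
      obtain ⟨q1, q2⟩ := mem_inter.1 hq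
      exact mem_cand.2 ⟨hg, fun e => t.2.2.2 r (mem_inter.1 hr).1 (mem_inter.1 hr).2
        (e ▸ (mem_inter.1 hr).2), notMem_empty _, q, mem_sdiff.2 ⟨mem_inter.2 ⟨q2, q1⟩,
          fun e => t.2.2.2 q (mem_inter.1 e).2 q1 q2⟩⟩
    have a := G.card_three hR px m
    rw [if_pos t.2.2.1] at a
    rw [if_pos t, if_pos (mem_cand.1 m).2, if_pos t.2.2.1, phi, if_pos (disjoint_empty_right _),
      sdiff_empty, mul_one]
    exact half_le (by omega)
  · rw [if_neg t]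
    split_ifs <;> positivity

end Geo

lemma Bq_vals : Bq 0 10 3 0 = 118790100 ∧ Bq 0 6 7 0 = 6315275561967852480 ∧ Bq 1 11 1 1 = 534 ∧
    Bq 0 11 1 4 = 564 ∧ Bq 1 8 4 1 = 73126267398 ∧ Bq 0 8 4 4 = 131741656200 := by decide +kernel

lemma Geo.start (G : Geo H pl) : TT H ∅ ∅ ≤ 97 / 100 := by
  obtain ⟨v1, v2, v3, v4, v5, v6⟩ := Bq_vals
  refine (sum_le_card_nsmul _ _ (97 / 100 / 87880) fun R hR => ?_).trans ?_
  · have s3 := G.star hR (c := 10) (k := 3) (by norm_num) (by norm_num) le_rfl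
    have s7 := G.star hR (c := 6) (k := 7) (by norm_num) le_rfl le_rfl
    have b1 := sum_le_sum fun x (hx : x ∈ H) => G.broom hR hx (c := 11) (k := 1) (by norm_num)
      (by norm_num) le_rfl (by omega)
    have b4 := sum_le_sum fun x (hx : x ∈ H) => G.broom hR hx (c := 8) (k := 4) (by norm_num)
      le_rfl le_rfl (by omega)
    have t := sum_le_sum fun x (hx : x ∈ H) => G.tri hR hx
    have c := count_cand (H := H) (R := R) (F := ∅) (X := ∅) (fun _ => True) (k := 39) (m := 13)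
      (by simp [G.c13 R hR]) fun a ha => by simpa using G.card_thr hR (mem_sdiff.1 ha).1
    rw [sum_ite_mem, inter_eq_right.2 (show cand H R ∅ ∅ ⊆ H from filter_subset _ _), sum_const,
      nsmul_eq_mul] at b1 b4 t
    rw [v1] at s3
    rw [v2] at s7
    rw [v3, v4] at b1
    rw [v5, v6] at b4
    simp only [sum_add_distrib, ← mul_sum]
    norm_num at s3 s7 b1 b4 t c
    have c' : ((cand H R ∅ ∅).card : ℝ) ≤ 507 := by exact_mod_cast c
    linarith
  · have : (H.card : ℝ) ≤ 87880 := by exact_mod_cast G.num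
    rw [nsmul_eq_mul]; linarith

lemma Geo.first [Fintype α] (G : Geo H pl) (hc : Fintype.card α = 28561) :
    ∃ y, TT H {y} ∅ < 1 := by
  by_contra hn
  push Not at hn
  have a := card_nsmul_le_sum univ _ _ fun y _ => hn y
  have b := (TT_good G.c13).avg
  have c := G.start
  rw [card_univ, hc, nsmul_eq_mul] at a
  rw [hc] at b
  norm_num at a b
  linarith

end Pool.Agent.Lib.MP_9dacbe_co.T13
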